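import Pool.Agent.MP_815c6c_an.L.Win

/-! Planar p-harmonic maps: a rigid solution stays in a fixed plane. -/

set_option autoImplicit false

noncomputable section

namespace Pool.Agent.MP_815c6c_an.L

open Set Metric MeasureTheory Filter Topology Complex
open scoped ContDiff ComplexConjugate
open Q

namespace PjA

variable {n : ℕ}

/-- continuity of the invariants of a jet -/
lemma cont {T : Type} [TopologicalSpace T] {w : T → Cn n} {N : T → L (Cn n)} (hw : Continuous w)
    (hN : Continuous N) (h0 : ∀ t, w t ≠ 0) (hJ : (∀ t, J2 (w t) ≠ 0) ∨ ∀ t, J2 (w t) = 0) :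
    Continuous (fun t => Nn (w t) (N t)) ∧ Continuous fun t =>
      ‖pp (w t) (N t) - be (w t) (N t) * conj (ph (w t))‖ + (‖be (w t) (N t)‖ + ‖lz (w t) (N t)‖) := by
  have e0 : ∀ t, ‖w t‖ ≠ 0 := fun t => norm_ne_zero_iff.2 (h0 t)
  have e1 : ∀ t, ((‖w t‖ ^ 2 : ℝ) : ℂ) ≠ 0 := fun t => ofReal_ne_zero.2 (pow_ne_zero _ (e0 t))
  have c1 : Continuous fun t => zd (N t) := by unfold zd; fun_prop
  have c2 : Continuous fun t => pp (w t) (N t) := Continuous.div (by fun_prop) (by fun_prop) e1
  have c3 : Continuous fun t => ph (w t) := Continuous.div (by fun_prop) (by fun_prop) e1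
  have c4 : Continuous fun t => et (w t) (N t) :=
    (Continuous.div (by fun_prop) (by fun_prop) e1).sub (c2.mul c3)
  have c5 : Continuous fun t => lz (w t) (N t) :=
    Continuous.div (by fun_prop) (by fun_prop) fun t => mul_ne_zero two_ne_zero (e1 t)
  have c6 : Continuous fun t => be (w t) (N t) := by
    rcases hJ with h | h
    · exact c4.div (continuous_ofReal.comp ((contDiff_J2.continuous.comp hw).div (by fun_prop)
        fun t => pow_ne_zero _ (e0 t))) fun t =>
        ofReal_ne_zero.2 (div_ne_zero (h t) (pow_ne_zero _ (e0 t)))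
    · simpa [be, C2, h] using continuous_const
  exact ⟨Continuous.div (by fun_prop) (by fun_prop) fun t => pow_ne_zero _ (e0 t), by fun_prop⟩

/-- the complement of the projection -/
def qj (e : Cn n) : Cn n →L[ℝ] Cn n :=
  LinearMap.toContinuousLinearMap
    { toFun := fun w => w - pj e w
      map_add' := fun u v => by simp only [pj, bil_add_left, add_smul]; abel
      map_smul' := fun t u => by
        simp only [pj, bil_rsmul_left, RingHom.id_apply, smul_sub, smul_add, mul_smul, coe_smul] }

lemma qj_apply (e w : Cn n) : qj e w = w - pj e w := rfl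

lemma qj_comb (e w : Cn n) (a b : ℂ) : qj e (a • w + b • cj w) = a • qj e w + b • cj (qj e w) := by
  simp only [qj_apply, pj, bil_add_left, bil_smul_left, cj_sub, cj_add, cj_smul, cj_cj,
    bil_cj_cj, bil_cj_left w e]
  module

lemma norm_le {s : ℝ} (h0 : 0 < s) (h1 : s < 1) (e : Cn n) {w : Cn n} {N : L (Cn n)} (hw : w ≠ 0)
    (ho : Op s w N = 0) (hN : Nn w N = 0) : ‖(qj e).comp N‖ ≤
      (‖pp w N - be w N * conj (ph w)‖ + (‖be w N‖ + ‖lz w N‖)) * ‖qj e w‖ := by
  have e1 : zd N = (pp w N - be w N * conj (ph w)) • w + be w N • cj w := by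
    have := (div_eq_zero_iff.1 hN).resolve_right (pow_ne_zero _ (norm_ne_zero_iff.2 hw))
    rw [sq_eq_zero_iff, norm_eq_zero, sub_sub, sub_eq_zero] at this
    exact this
  generalize pp w N - be w N * conj (ph w) = a at *
  generalize be w N = b at *
  refine ContinuousLinearMap.opNorm_le_bound _ (by positivity) fun X => ?_
  have e2 : N X = (X * a) • w + (X * b - conj X * (s * lz w N)) • cj w := by
    rw [ap_eq, zb_eq w N ho, e1]
    module
  rw [ContinuousLinearMap.comp_apply, e2, qj_comb]
  refine (norm_add_le _ _).trans ?_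
  rw [norm_smul, norm_smul, norm_cj, ← add_mul, mul_right_comm]
  gcongr
  have e3 := norm_sub_le (X * b) (conj X * (s * lz w N))
  simp only [norm_mul, Complex.norm_conj, norm_real, Real.norm_of_nonneg h0.le] at e3 ⊢
  have e4 : ‖X‖ * (s * ‖lz w N‖) ≤ ‖X‖ * ‖lz w N‖ := by
    gcongr
    exact mul_le_of_le_one_left (norm_nonneg _) h1.le
  linarith

end PjA

open PjA in
theorem pjS : Kit → ∀ n s, 0 < s → s < 1 → Shell n s → Mas n s → PjS n s := by
  intro k n s h0 h1 hs hm G e hG hR hz hJ he
  have a1 := fun z (h : z ≠ 0) => (hs.s1 univ G isOpen_univ hG z trivial (hz z h)).1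
  have a2 : ∀ z ≠ 0, Dz G z = fderiv ℝ G z := fun z h => if_neg (hz z h)
  have a3 : Continuous G := continuousOn_univ.1 hG.1
  have a4 : ContinuousOn (Dz G) {0}ᶜ :=
    ContinuousOn.congr (fun z h => ((a1 z h).continuousAt_fderiv one_ne_zero).continuousWithinAt) a2
  obtain ⟨b1, b2⟩ := cont (T := ({0}ᶜ : Set ℂ)) (w := fun t => G t) (N := fun t => Dz G t)
    (a3.comp continuous_subtype_val) a4.domRestrict (fun t => hz t t.2)
    (hJ.imp (fun h t => h t t.2) fun h t => h t t.2)
  have a5 : ∀ z ≠ 0, Nn (G z) (Dz G z) = 0 := fun x hx => by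
    obtain ⟨η, c1, c2, c3, -, c4⟩ := exists_contDiff_tsupport_subset (n := 1)
      (isOpen_compl_singleton.mem_nhds hx : ({0}ᶜ : Set ℂ) ∈ 𝓝 x)
    obtain ⟨C, hC⟩ := hR η ⟨c3, c2, c1⟩ ⟨_, c2, fun z h => hz z (c1 h),
      fun z h => fderiv_of_notMem_tsupport ℝ h⟩
    have p1 : ∀ z, 0 < 1 + ra 1 (G z) := fun z => add_pos_of_pos_of_nonneg one_pos (Real.sqrt_nonneg _)
    have p2 : ∀ z, 0 ≤ Nn (G z) (Dz G z) := fun z => div_nonneg (sq_nonneg _) (sq_nonneg _)
    set f : ℂ → ℝ := fun z =>
      η z ^ 2 * (2 * (1 / (1 + ra 1 (G z))) * ‖G z‖ ^ 2 * Nn (G z) (Dz G z)) with hf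
    have d1 : tsupport f ⊆ tsupport η := closure_mono fun z h c => h (by simp [hf, c])
    have d2 : Continuous f := by
      refine ContinuousOn.continuous_of_tsupport_subset ?_ isOpen_compl_singleton (d1.trans c1)
      refine (c3.continuous.pow 2).continuousOn.mul (ContinuousOn.mul (Continuous.continuousOn ?_)
        (continuousOn_iff_continuous_domRestrict.2 b1))
      have := contDiff_J2.continuous.comp a3
      refine (continuous_const.mul (continuous_const.div ?_ fun z => (p1 z).ne')).mul (by fun_prop)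
      exact continuous_const.add (continuous_const.add (continuous_const.mul this)).sqrt
    have d3 : HasCompactSupport f := c2.of_isClosed_subset (isClosed_tsupport _) d1
    by_contra c5
    have d4 := d2.integral_pos_of_hasCompactSupport_nonneg_nonzero (μ := volume) d3
      (fun z => by have := p1 z; have := p2 z; positivity) (x := x) (by
        have := (p1 x).ne'
        have := norm_ne_zero_iff.2 (hz x hx)
        simp only [hf, c4]
        positivity)
    have d5 : ∀ᶠ y in atTop, ∫ z, f z ≤ C / y := by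
      filter_upwards [eventually_ge_atTop 1] with y hy
      refine le_trans (integral_mono (d2.integrable_of_hasCompactSupport d3)
        (hm.sto G hG y η ⟨c3, c2, subset_univ _⟩).1 fun z => ?_) (hC y hy)
      refine mul_le_mul_of_nonneg_left (le_trans ?_ (hm.low G hG y z (by linarith)).2.1)
        (sq_nonneg _)
      have := ((k.bnd n).anti 1 y (G z) (Dz G z) one_pos hy).2
      have := p2 z
      gcongr
    exact absurd (ge_of_tendsto (tendsto_const_nhds.div_atTop tendsto_id) d5) (not_le.2 d4)
  intro z h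
  refine (sub_eq_zero.1 (k.con.2 n (fun z => qj e (G z)) (fun z =>
    ‖pp (G z) (Dz G z) - be (G z) (Dz G z) * conj (ph (G z))‖ +
      (‖be (G z) (Dz G z)‖ + ‖lz (G z) (Dz G z)‖)) (fun z h => ?_)
    (continuousOn_iff_continuous_domRestrict.2 b2) (fun z h => ?_) (sub_eq_zero.2 he.symm) z h)).symm
  · exact ((qj e).differentiableAt.comp z ((a1 z h).differentiableAt one_ne_zero)).differentiableWithinAt
  · have := ((qj e).hasFDerivAt.comp z ((a1 z h).differentiableAt one_ne_zero).hasFDerivAt).fderiv
    rw [Function.comp_def] at this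
    rw [this, ← a2 z h]
    exact norm_le h0 h1 e (hz z h) (hm.op G hG z (hz z h)) (a5 z h)

end Pool.Agent.MP_815c6c_an.L
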