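import Pool.Agent.MP_815c6c_an.L.Win

-- ======== part 0: formerly Pool.Agent.MP_815c6c_an.L.Bnd
section MrgPart0

/-! Planar p-harmonic maps: bounds for the monotone one form. -/

set_option autoImplicit false

namespace Pool.Agent.MP_815c6c_an.L

open Set Metric MeasureTheory Filter Topology Complex
open scoped ContDiff ComplexConjugate
open Q

namespace BndA

theorem mono {J y y' : ℝ} (hJ : 0 ≤ J) (h : 0 ≤ y) (h' : y ≤ y') :
    y / (1 + √(1 + y ^ 2 * J)) ≤ y' / (1 + √(1 + y' ^ 2 * J)) := by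
  have h1 := h.trans h'
  rw [div_le_div_iff₀ (by positivity) (by positivity), mul_add, mul_add]
  refine add_le_add (by linarith) (abs_le_of_sq_le_sq' ?_ (by positivity)).2
  rw [mul_pow, mul_pow, Real.sq_sqrt (by positivity), Real.sq_sqrt (by positivity)]
  nlinarith [pow_le_pow_left₀ h h' 2]

theorem anti {J y y' : ℝ} (hJ : 0 ≤ J) (h : 0 ≤ y) (h' : y ≤ y') :
    (√(1 + y' ^ 2 * J) * (1 + √(1 + y' ^ 2 * J)))⁻¹ ≤
      (√(1 + y ^ 2 * J) * (1 + √(1 + y ^ 2 * J)))⁻¹ := by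
  gcongr

theorem lim {J : ℝ} (hJ : 0 < J) :
    Tendsto (fun y : ℝ => (√(1 + y ^ 2 * J) * (1 + √(1 + y ^ 2 * J)))⁻¹) atTop (𝓝 0) := by
  have : Tendsto (fun y : ℝ => √(1 + y ^ 2 * J)) atTop atTop := Real.tendsto_sqrt_atTop.comp
    (tendsto_atTop_add_const_left _ _ ((tendsto_pow_atTop two_ne_zero).atTop_mul_const hJ))
  exact (this.atTop_mul_atTop₀ (tendsto_atTop_add_const_left _ _ this)).inv_tendsto_atTop

theorem th0 {x : ℝ} (h : 0 ≤ x) : 0 ≤ th x ∧ th x ≤ 1 ∧ th x ≤ x ∧ (1 ≤ x → 1 / 3 ≤ th x) := by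
  have a : x ≤ √(1 + x ^ 2) := Real.le_sqrt_of_sq_le (by linarith)
  refine ⟨div_nonneg h (by positivity), (div_le_one (by positivity)).2 (by linarith),
    div_le_self h (by linarith), fun k => ?_⟩
  have b : √(1 + x ^ 2) ≤ 2 * x := Real.sqrt_le_iff.2 ⟨by linarith, by nlinarith⟩
  rw [th, div_le_div_iff₀ (by positivity) (by positivity)]
  linarith

theorem th_neg (x : ℝ) : th (-x) = -th x := by rw [th, th, neg_sq, neg_div]

theorem th1 : Monotone th := fun x x' h => by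
  have m : ∀ {y y' : ℝ}, 0 ≤ y → y ≤ y' → th y ≤ th y' := fun a b => by
    simpa only [mul_one, th] using mono zero_le_one a b
  rcases le_total 0 x with a | a
  · exact m a h
  rcases le_total 0 x' with b | b
  · linarith [(th0 (neg_nonneg.2 a)).1, (th0 b).1, th_neg x]
  · linarith [m (neg_nonneg.2 b) (neg_le_neg h), th_neg x, th_neg x']

theorem th2 {x : ℝ} (h : 0 ≤ x) :
    th (4 * x) ≤ th x + 3 * x * (√(1 + x ^ 2) * (1 + √(1 + x ^ 2)))⁻¹ := by
  have h1 : √(1 + x ^ 2) ^ 2 = 1 + x ^ 2 := Real.sq_sqrt (by positivity)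
  have h2 : √(1 + (4 * x) ^ 2) ^ 2 = 1 + (4 * x) ^ 2 := Real.sq_sqrt (by positivity)
  have h3 : 1 ≤ √(1 + x ^ 2) := Real.one_le_sqrt.2 (by nlinarith)
  have h4 := Real.sqrt_nonneg (1 + (4 * x) ^ 2)
  rw [th, th]
  generalize √(1 + x ^ 2) = b at *
  generalize √(1 + (4 * x) ^ 2) = B at *
  have h5 : 4 * b ^ 2 + 3 * b - 3 ≤ (b + 3) * B := by
    refine (abs_le_of_sq_le_sq' ?_ (by positivity)).2
    rw [mul_pow, show B ^ 2 = 16 * b ^ 2 - 15 by linarith]
    nlinarith [mul_nonneg (by linarith : 0 ≤ b + 2) (by nlinarith : 0 ≤ b ^ 2 - 1)]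
  rw [show x / (1 + b) + 3 * x * (b * (1 + b))⁻¹ = x * (b + 3) / (b * (1 + b)) by field_simp,
    div_le_div_iff₀ (by positivity) (by positivity)]
  nlinarith [mul_le_mul_of_nonneg_left h5 h]

theorem prod {p q r e : ℝ} (q0 : 0 ≤ q) (p1 : p ≤ 1) (q1 : q ≤ 1) (r1 : r ≤ 1)
    (hp : 1 - e ≤ p) (hq : 1 - e ≤ q) (hr : 1 - e ≤ r) : 1 - p * q * r ≤ 3 * e := by
  nlinarith [mul_nonneg (sub_nonneg.2 p1) (sub_nonneg.2 q1), mul_le_one₀ p1 q0 q1,
    mul_nonneg (sub_nonneg.2 (mul_le_one₀ p1 q0 q1)) (sub_nonneg.2 r1)]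

theorem real {x C a b l Z al ka t W Y : ℝ} (x0 : 0 < x) (c0 : 0 ≤ C) (c1 : C ≤ 1) (a1 : 1 ≤ a)
    (b1 : 1 ≤ b) (ha : a ^ 2 = 1 + x ^ 2 * C ^ 2) (hb : b ^ 2 = 1 + x ^ 2) (l0 : 0 ≤ l)
    (z0 : 0 ≤ Z) (t0 : 0 ≤ t) (h1 : |al| ≤ 4 * l * t) (h2 : |ka| ≤ C * ((C * l + Z) * t))
    (lY : l ≤ Y) (zY : Z ≤ Y) (lW : l / (1 + b) ≤ W) (zW : Z / (1 + a) ≤ W) :
    |x / (1 + b) * al - x ^ 3 / ((1 + a) * (1 + b) * (a + b)) * ka| ≤ 10 * (x / (1 + b)) * Y * t ∧
    |x / (1 + b) * al - x ^ 3 / ((1 + a) * (1 + b) * (a + b)) * ka - (al - ka / (C * (1 + C)))| ≤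
      20 * W * t := by
  obtain ⟨k, rfl, e, h3⟩ : ∃ k, ka = C * k ∧ ka / (C * (1 + C)) = k / (1 + C) ∧
      |k| ≤ (C * l + Z) * t := by
    rcases c0.eq_or_lt with rfl | c
    · exact ⟨0, by simpa using h2, by simp, by simpa using mul_nonneg z0 t0⟩
    · exact ⟨ka / C, by field_simp, by field_simp, by
        rwa [abs_div, abs_of_pos c, div_le_iff₀' c]⟩
  have cx := mul_nonneg c0 x0.le
  have i1 : C * x ≤ a := (abs_le_of_sq_le_sq' (by nlinarith) (by linarith)).2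
  have i2 : x ≤ b := (abs_le_of_sq_le_sq' (by nlinarith) (by linarith)).2
  have i3 : a ≤ 1 + C * x := (abs_le_of_sq_le_sq' (by nlinarith) (by linarith)).2
  have i4 : b ≤ 1 + x := (abs_le_of_sq_le_sq' (by nlinarith) (by linarith)).2
  have c2 : C ^ 2 ≤ 1 := pow_le_one₀ c0 c1
  have i5 : C * b ≤ a := (abs_le_of_sq_le_sq' (by rw [mul_pow, hb]; nlinarith) (by linarith)).2
  have i6 : a ≤ b := (abs_le_of_sq_le_sq' (by nlinarith [sq_nonneg x]) (by linarith)).2
  have p1 : C * x / (1 + a) ≤ 1 := (div_le_one (by positivity)).2 (by linarith)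
  have q1 : x / (1 + b) ≤ 1 := (div_le_one (by positivity)).2 (by linarith)
  have q0 : 0 ≤ x / (1 + b) := by positivity
  have lt := mul_nonneg l0 t0
  have zt := mul_nonneg z0 t0
  constructor
  · rw [show x / (1 + b) * al - x ^ 3 / ((1 + a) * (1 + b) * (a + b)) * (C * k) =
      x / (1 + b) * (al - C * x / (1 + a) * (x / (a + b)) * k) by field_simp, abs_mul,
      abs_of_nonneg q0, mul_comm 10, mul_assoc (x / _) 10, mul_assoc (x / _) (10 * Y)]
    refine mul_le_mul_of_nonneg_left ((abs_sub _ _).trans ?_) q0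
    have r1 : x / (a + b) ≤ 1 := (div_le_one (by positivity)).2 (by linarith)
    have := mul_le_of_le_one_left (abs_nonneg k) (mul_le_one₀ p1 (by positivity) r1)
    rw [abs_mul, abs_of_nonneg (a := _ * _) (by positivity)]
    linarith [mul_le_mul_of_nonneg_right lY t0, mul_le_mul_of_nonneg_right zY t0,
      mul_le_of_le_one_left lt c1]
  · have r1 : (1 + C) * x / (a + b) ≤ 1 := (div_le_one (by positivity)).2 (by linarith)
    have s1 : 1 - 2 / (1 + b) ≤ x / (1 + b) := by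
      rw [sub_le_iff_le_add, ← add_div, one_le_div (by positivity)]; linarith
    have s2 : 2 / (1 + b) ≤ 2 / (1 + a) := by gcongr
    have s3 : 2 / (a + b) ≤ 2 / (1 + a) := by gcongr ?_ / ?_; exacts [le_rfl, by linarith]
    have s4 := prod (e := 2 / (1 + a)) q0 p1 q1 r1 (by
      rw [sub_le_iff_le_add, ← add_div, one_le_div (by positivity)]; linarith) (by linarith) (by
      have : 1 - 2 / (a + b) ≤ (1 + C) * x / (a + b) := by
        rw [sub_le_iff_le_add, ← add_div, one_le_div (by positivity)]; linarith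
      linarith)
    have s5 := mul_le_one₀ (mul_le_one₀ p1 q0 q1) (by positivity) r1
    rw [e, show x / (1 + b) * al - x ^ 3 / ((1 + a) * (1 + b) * (a + b)) * (C * k) -
      (al - k / (1 + C)) = (1 - C * x / (1 + a) * (x / (1 + b)) * ((1 + C) * x / (a + b))) /
      (1 + C) * k - (1 - x / (1 + b)) * al by field_simp; ring]
    generalize C * x / (1 + a) * (x / (1 + b)) * ((1 + C) * x / (a + b)) = m at s4 s5
    have s6 : (1 - m) / (1 + C) ≤ 3 * (2 / (1 + a)) :=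
      (div_le_self (by linarith) (by linarith)).trans s4
    refine (abs_sub _ _).trans ?_
    rw [abs_mul, abs_mul, abs_of_nonneg (div_nonneg (by linarith) (by linarith)),
      abs_of_nonneg (a := 1 - _) (by linarith)]
    have u1 := mul_le_mul s6 h3 (abs_nonneg _) (by positivity)
    have u2 := mul_le_mul (show 1 - x / (1 + b) ≤ 2 / (1 + b) by linarith) h1 (abs_nonneg _)
      (by positivity)
    have u3 : C * l / (1 + a) ≤ l / (1 + b) := by
      rw [div_le_div_iff₀ (by positivity) (by positivity)]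
      nlinarith [mul_le_mul_of_nonneg_left (show C * (1 + b) ≤ 1 + a by linarith) l0]
    rw [show 3 * (2 / (1 + a)) * ((C * l + Z) * t) = 6 * (C * l / (1 + a) + Z / (1 + a)) * t by
      ring] at u1
    rw [show 2 / (1 + b) * (4 * l * t) = 8 * (l / (1 + b)) * t by ring] at u2
    linarith [mul_le_mul_of_nonneg_right lW t0, mul_le_mul_of_nonneg_right zW t0,
      mul_le_mul_of_nonneg_right u3 t0]

variable {n : ℕ} (w : Cn n) (N : L (Cn n))

theorem z0 : 0 ≤ Z2 w N := div_nonneg (sq_nonneg _) (C2_nonneg w)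

theorem rb_eq (y : ℝ) : rb y w = √(1 + (y * ‖w‖ ^ 2) ^ 2) := by rw [rb]; congr 1; ring

theorem uv (y : ℝ) : 0 < vv y w ∧ vv y w ≤ uu y w ∧ uu y w ≤ 1 := by
  have a := one_le_ra w y
  have b := ra_le_rb w y
  have := a.trans b
  refine ⟨by unfold vv; positivity, by unfold vv uu; gcongr,
    inv_le_one_of_one_le₀ (by nlinarith)⟩

theorem y2 : Y2 w N ≤ 2 * ‖N‖ ^ 2 / ‖w‖ ^ 2 := by
  rcases eq_or_ne w 0 with rfl | h
  · simp [Y2, Z2, C2, lz]
  have w0 := norm_pos_iff.2 h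
  obtain ⟨n1, n2, -⟩ := L_norm N
  have a : ‖zd N‖ ≤ ‖N‖ := by
    have := norm_sub_le (N 1) (I • N I)
    rw [norm_smul, norm_I] at this
    rw [zd, norm_smul, norm_div, norm_one, Complex.norm_two]
    linarith
  have b : ‖lz w N‖ ≤ ‖N‖ / ‖w‖ := by
    have := norm_sub_le ((inner ℝ w (N 1) : ℝ) : ℂ) (I * (inner ℝ w (N I) : ℝ))
    rw [norm_mul, norm_I, Complex.norm_real, Complex.norm_real] at this
    rw [lz, norm_div, norm_mul, Complex.norm_two, Complex.norm_real,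
      Real.norm_of_nonneg (sq_nonneg _), div_le_iff₀ (by positivity),
      show ‖N‖ / ‖w‖ * (2 * ‖w‖ ^ 2) = ‖w‖ * ‖N‖ + ‖w‖ * ‖N‖ by field_simp; ring]
    linarith [norm_inner_le_norm (𝕜 := ℝ) w (N 1), norm_inner_le_norm (𝕜 := ℝ) w (N I),
      mul_le_mul_of_nonneg_left n1 w0.le, mul_le_mul_of_nonneg_left n2 w0.le]
  have c := pow_le_pow_left₀ (norm_nonneg _) b 2
  have d : ‖zd N‖ ^ 2 / ‖w‖ ^ 2 ≤ ‖N‖ ^ 2 / ‖w‖ ^ 2 := by gcongr
  have e : 0 ≤ Nn w N := by unfold Nn; positivity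
  rw [div_pow] at c
  rw [Y2, mul_div_assoc]
  linarith [gram_eq w N h, sq_nonneg ‖pp w N‖]

theorem form {s : ℝ} (h : w ≠ 0) (ho : Op s w N = 0) (X : ℂ) :
    (bil (N X) (cj w)).im = ‖w‖ ^ 2 * (2 * ((lz w N + s * conj (lz w N) * ph w) * X).im) ∧
    (conj (bil w w) * bil w (N X)).im = ‖w‖ ^ 4 *
      (((s * C2 w * conj (lz w N) * ph w + conj (ph w) * et w N) * X).im +
        ‖ph w‖ ^ 2 * (2 * ((lz w N + s * conj (lz w N) * ph w) * X).im)) := by
  have hp : 0 < ‖w‖ ^ 2 := pow_pos (norm_pos_iff.2 h) 2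
  have h0 : ((‖w‖ ^ 2 : ℝ) : ℂ) ≠ 0 := ofReal_ne_zero.2 hp.ne'
  have a : bil (zd N) (cj w) = pp w N * (‖w‖ ^ 2 : ℝ) := by rw [pp, div_mul_cancel₀ _ h0]
  have b : bil (zd N) w = (et w N + pp w N * ph w) * (‖w‖ ^ 2 : ℝ) := by
    rw [et, sub_add_cancel, div_mul_cancel₀ _ h0]
  have c : bil w w = ph w * (‖w‖ ^ 2 : ℝ) := by rw [ph, div_mul_cancel₀ _ h0]
  rw [bil_comm w (N X), ap_eq N X, zb_eq w N ho, C2_eq w h, show ‖w‖ ^ 4 = (‖w‖ ^ 2) ^ 2 by ring]
  simp only [bil_add_left, bil_smul_left, a, b, bil_cj_cj, bil_cj_self', c, pp_eq w N h ho,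
    Complex.sq_norm (ph w), normSq_apply]
  generalize ‖w‖ ^ 2 = E
  generalize lz w N = l
  generalize et w N = e
  generalize ph w = f
  simp
  constructor <;> ring

theorem la {s y : ℝ} (X : ℂ) (hs : |s| ≤ 1) (hy : 0 < y) (h : w ≠ 0) (ho : Op s w N = 0) :
    |La y w (N X)| ≤ 10 * th (y * ‖w‖ ^ 2) * √(Y2 w N) * ‖X‖ ∧
    |La y w (N X) - Lo w (N X)| ≤ 20 * √(X2 y w N) * ‖X‖ := by
  have w0 := norm_pos_iff.2 h
  have c0 := C2_nonneg w
  have c1 := C2_eq w h
  have f1 : ‖ph w‖ ≤ 1 := (abs_le_of_sq_le_sq' (by linarith) zero_le_one).2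
  have a1 := one_le_ra w y
  have b1 := a1.trans (ra_le_rb w y)
  have ha : ra y w ^ 2 = 1 + (y * ‖w‖ ^ 2) ^ 2 * √(C2 w) ^ 2 := by
    rw [ra_sq, J2_eq w h, Real.sq_sqrt c0]; ring
  have hb : rb y w ^ 2 = 1 + (y * ‖w‖ ^ 2) ^ 2 := by rw [rb_sq]; ring
  have z := z0 w N
  obtain ⟨v0, v1, -⟩ := uv w y
  have e1 : ‖et w N‖ = √(C2 w) * √(Z2 w N) := by
    rcases c0.eq_or_lt with c | c
    · rw [et_zero w N h c.symm, ← c]; simp
    · rw [← Real.sqrt_mul c0, Z2, mul_div_cancel₀ _ c.ne', Real.sqrt_sq (norm_nonneg _)]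
  have sl : ‖s * conj (lz w N) * ph w‖ ≤ ‖lz w N‖ := by
    rw [norm_mul, norm_mul, Complex.norm_real, Complex.norm_conj]
    exact (mul_le_of_le_one_right (by positivity) f1).trans
      (mul_le_of_le_one_left (norm_nonneg _) hs)
  have k : ∀ {r m : ℝ}, 1 ≤ r → (r * (1 + r))⁻¹ * m ^ 2 ≤ X2 y w N → m / (1 + r) ≤ √(X2 y w N) :=
    fun {r m} r1 a => Real.le_sqrt_of_sq_le (le_trans (by
      rw [div_pow, div_eq_inv_mul, sq (1 + r)]; gcongr; linarith) a)
  have R := real (al := 2 * ((lz w N + s * conj (lz w N) * ph w) * X).im)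
    (ka := ((s * C2 w * conj (lz w N) * ph w + conj (ph w) * et w N) * X).im) (Y := √(Y2 w N))
    (W := √(X2 y w N)) (by positivity) (Real.sqrt_nonneg _) (Real.sqrt_le_one.2 (by nlinarith)) a1 b1
    ha hb (norm_nonneg (lz w N)) (Real.sqrt_nonneg (Z2 w N)) (norm_nonneg X) (by
      have := (abs_im_le_norm ((lz w N + s * conj (lz w N) * ph w) * X)).trans (norm_mul_le _ _)
      have := mul_le_mul_of_nonneg_right ((norm_add_le _ _).trans (add_le_add_right sl ‖lz w N‖))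
        (norm_nonneg X)
      rw [abs_mul, abs_two]
      linarith) (by
      refine (abs_im_le_norm _).trans ((norm_mul_le _ _).trans ?_)
      rw [← mul_assoc]
      refine mul_le_mul_of_nonneg_right ((norm_add_le _ _).trans ?_) (norm_nonneg X)
      rw [mul_add, ← mul_assoc, Real.mul_self_sqrt c0, ← e1, show s * C2 w * conj (lz w N) * ph w =
        C2 w * (s * conj (lz w N) * ph w) by ring, norm_mul, norm_mul (conj _), Complex.norm_conj,
        Complex.norm_real, Real.norm_of_nonneg c0]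
      exact add_le_add (mul_le_mul_of_nonneg_left sl c0) (mul_le_of_le_one_left (norm_nonneg _) f1))
    (Real.le_sqrt_of_sq_le (le_add_of_nonneg_left z))
    (Real.sqrt_le_sqrt (le_add_of_nonneg_right (sq_nonneg _)))
    (k b1 (le_add_of_nonneg_left (mul_nonneg (v0.le.trans v1) z)))
    (k a1 (by rw [Real.sq_sqrt z]; exact le_add_of_nonneg_right (by positivity)))
  obtain ⟨g1, g2⟩ := form w N h ho X
  rw [La_apply, Lo, g1, g2, th, ← rb_eq]
  generalize 2 * ((lz w N + s * conj (lz w N) * ph w) * X).im = al at R ⊢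
  generalize ((s * C2 w * conj (lz w N) * ph w + conj (ph w) * et w N) * X).im = ka at R ⊢
  rw [Real.sq_sqrt c0] at ha
  have e2 : y / (1 + ra y w) * (‖w‖ ^ 2 * al) - y ^ 3 * ‖w‖ ^ 2 /
      ((1 + ra y w) * (1 + rb y w) * (ra y w + rb y w)) * (‖w‖ ^ 4 * (ka + ‖ph w‖ ^ 2 * al)) =
      y * ‖w‖ ^ 2 / (1 + rb y w) * al - (y * ‖w‖ ^ 2) ^ 3 /
        ((1 + ra y w) * (1 + rb y w) * (ra y w + rb y w)) * ka := by
    rw [c1] at ha
    field_simp
    linear_combination al * (hb - ha)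
  rw [e2, mul_div_cancel_left₀ _ (pow_pos w0 2).ne', mul_div_cancel_left₀ _ (pow_pos w0 4).ne',
    add_sub_cancel_right]
  exact R

end BndA

open BndA in
theorem bnd : BndS := fun _ =>
  { la := fun _ _ w N X hs hy h ho => la w N X hs hy h ho
    anti := fun _ _ w N h h' => ⟨add_le_add
      (mul_le_mul_of_nonneg_right (anti (J2_nonneg w) h.le h') (z0 w N))
      (mul_le_mul_of_nonneg_right (anti (by positivity) h.le h') (sq_nonneg _)),
      mono (J2_nonneg w) h.le h'⟩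
    xy := fun y w N => by
      obtain ⟨a, b, c⟩ := uv w y
      have z := z0 w N
      refine ⟨z, a, b, c, ?_, ?_, y2 w N⟩ <;> rw [X2, Y2] <;>
        nlinarith [sq_nonneg ‖lz w N‖]
    lim := fun w N h => by
      have b := (lim (pow_pos (norm_pos_iff.2 h) 4)).mul_const (‖lz w N‖ ^ 2)
      have a : Tendsto (fun y => uu y w * Z2 w N) atTop (𝓝 0) := by
        rcases (J2_nonneg w).eq_or_lt with j | j
        · simp [Z2, C2, ← j]
        · exact zero_mul (Z2 w N) ▸ (lim j).mul_const (Z2 w N)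
      have c := a.add b
      rwa [zero_mul, add_zero] at c
    th0 := fun _ => th0
    th1 := ⟨th1, continuous_id.div (by fun_prop) fun x => by positivity⟩
    th2 := fun y w h => by
      rw [mul_assoc, vv, rb_eq]
      exact th2 (by positivity) }

end Pool.Agent.MP_815c6c_an.L

end MrgPart0

-- ======== part 1: formerly Pool.Agent.MP_815c6c_an.L.Dl
section MrgPart1

/-! Planar p-harmonic maps: the exterior derivative of the monotone form. -/

set_option autoImplicit false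

noncomputable section

namespace Pool.Agent.MP_815c6c_an.L

open Set Metric MeasureTheory Filter Topology Complex
open scoped ContDiff ComplexConjugate
open Q

namespace DlA

variable {n : ℕ}

theorem ra_pos (y : ℝ) (w : Cn n) : 0 < ra y w := one_pos.trans_le (one_le_ra w y)
theorem rb_pos (y : ℝ) (w : Cn n) : 0 < rb y w := (ra_pos y w).trans_le (ra_le_rb w y)

theorem smooth (y : ℝ) : ContDiff ℝ ∞ (La y : Cn n → _) := by
  have a : ContDiff ℝ ∞ (ra y : Cn n → ℝ) :=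
    (contDiff_const.add (contDiff_const.mul contDiff_J2)).sqrt fun w => by
      have := J2_nonneg w; positivity
  have e : ContDiff ℝ ∞ fun w : Cn n => ‖w‖ ^ 2 := contDiff_norm_sq ℝ
  have b : ContDiff ℝ ∞ (rb y : Cn n → ℝ) := by
    have : (rb y : Cn n → ℝ) = fun w => √(1 + y ^ 2 * (‖w‖ ^ 2) ^ 2) := by
      ext w; rw [rb, ← pow_mul]
    rw [this]
    exact (contDiff_const.add (contDiff_const.mul (e.pow 2))).sqrt fun w => by positivity
  have g : ContDiff ℝ ∞ fun w : Cn n => y / (1 + ra y w) :=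
    contDiff_const.div (contDiff_const.add a) fun w => by have := ra_pos y w; positivity
  have h : ContDiff ℝ ∞ fun w : Cn n =>
      y ^ 3 * ‖w‖ ^ 2 / ((1 + ra y w) * (1 + rb y w) * (ra y w + rb y w)) :=
    (contDiff_const.mul e).div (((contDiff_const.add a).mul (contDiff_const.add b)).mul (a.add b))
      fun w => by have := ra_pos y w; have := rb_pos y w; positivity
  have v : ContDiff ℝ ∞ (vf y : Cn n → Cn n) :=
    ((g.smul contDiff_id).sub (h.smul ((contDiff_bil contDiff_id contDiff_id).smul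
      (contDiff_cj contDiff_id)))).const_smul I
  exact (innerSL ℝ).contDiff.comp v

theorem La_smul (y : ℝ) {t : ℝ} (ht : 0 < t) (w : Cn n) :
    La y (t • w) = t⁻¹ • La (y * t ^ 2) w := by
  have e : ‖t • w‖ = t * ‖w‖ := by rw [norm_smul, Real.norm_of_nonneg ht.le]
  have p : bil (t • w) (t • w) = (t ^ 2 : ℝ) * bil w w := by
    rw [bil_rsmul_left, bil_rsmul_right]; push_cast; ring
  have a : ra y (t • w) = ra (y * t ^ 2) w := by
    rw [ra, ra, J2, J2, e, p, norm_mul, Complex.norm_real, Real.norm_of_nonneg (sq_nonneg _)]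
    congr 1; ring
  have b : rb y (t • w) = rb (y * t ^ 2) w := by
    rw [rb, rb, e]; congr 1; ring
  ext X
  rw [smul_apply, La_apply, La_apply, a, b, e, p, cj_rsmul, bil_rsmul_right,
    bil_rsmul_left, map_mul, conj_ofReal, mul_mul_mul_comm, ← ofReal_mul, im_ofReal_mul,
    im_ofReal_mul, smul_eq_mul]
  field_simp

theorem scale (y t r : ℝ) (w : Cn n) (N : L (Cn n)) (ht : 0 < t) :
    dl (La y) (t • w) (r • N) = (r / t) ^ 2 * dl (La (y * t ^ 2)) w N := by
  have d' := ((smooth (y * t ^ 2)).differentiable (by simp) w).hasFDerivAt.const_smul t⁻¹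
  have d : HasFDerivAt (t⁻¹ • (La (y * t ^ 2) : Cn n → Cn n →L[ℝ] ℝ)) _ w :=
    (((smooth y).differentiable (by simp) (t • w)).hasFDerivAt.comp w
      ((hasFDerivAt_id w).const_smul t)).congr_of_eventuallyEq
      (Eventually.of_forall fun w => (La_smul y ht w).symm)
  have k : ∀ V X, fderiv ℝ (La y) (t • w) V X = t⁻¹ ^ 2 * fderiv ℝ (La (y * t ^ 2)) w V X := by
    intro V X
    have := congrArg (fun A => A V X) (d.unique d')
    simp only [ContinuousLinearMap.comp_apply, smul_apply, map_smul,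
      ContinuousLinearMap.id_apply, smul_eq_mul] at this
    field_simp at this ⊢
    linarith
  simp only [dl, k, smul_apply, map_smul, smul_eq_mul]
  ring

/-- the differential of `J2` -/
def dJ (w V : Cn n) : ℝ := 4 * ‖w‖ ^ 2 * inner ℝ w V - 4 * (conj (bil w w) * bil w V).re

theorem der (y : ℝ) (w V X : Cn n) {a b E : ℝ} (ha : a = ra y w) (hb : b = rb y w)
    (hE : E = ‖w‖ ^ 2) : fderiv ℝ (La y) w V X =
    -y ^ 3 / (2 * a * (1 + a) ^ 2) * dJ w V * (bil X (cj w)).im + y / (1 + a) * (bil X (cj V)).im -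
    y ^ 3 / ((1 + a) * (1 + b) * (a + b)) *
      ((1 - y ^ 2 * E ^ 2 / b * ((1 + b)⁻¹ + (a + b)⁻¹)) * (2 * inner ℝ w V) -
        y ^ 2 * E / (2 * a) * ((1 + a)⁻¹ + (a + b)⁻¹) * dJ w V) * (conj (bil w w) * bil w X).im -
    y ^ 3 * E / ((1 + a) * (1 + b) * (a + b)) *
      (2 * conj (bil w V) * bil w X + conj (bil w w) * bil V X).im := by
  have l : HasDerivAt (fun t : ℝ => w + t • V) V 0 := by
    simpa using ((hasDerivAt_id (0 : ℝ)).smul_const V).const_add w
  have l0 : w + (0 : ℝ) • V = w := by simp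
  have m : HasDerivAt (fun t : ℝ => La y (w + t • V) X) (fderiv ℝ (La y) w V X) 0 := by
    have := (((smooth y).differentiable (by simp) w).hasFDerivAt.comp_hasDerivAt_of_eq 0 l
      l0.symm).clm_apply (hasDerivAt_const (0 : ℝ) X)
    simpa using this
  have e : HasDerivAt (fun t : ℝ => ‖w + t • V‖ ^ 2) (2 * inner ℝ w V) 0 := by
    simpa using l.norm_sq
  have q : HasDerivAt (fun t : ℝ => bil (w + t • V) X) (bil V X) 0 :=
    (bilL.flip X).hasFDerivAt.comp_hasDerivAt 0 l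
  have p : HasDerivAt (fun t : ℝ => bil (w + t • V) (w + t • V)) (2 * bil w V) 0 := by
    have := (hasFDerivAt_bil l.hasFDerivAt l.hasFDerivAt).hasDerivAt
    simpa [two_mul, bil_comm V w] using this
  have pc : HasDerivAt (fun t : ℝ => conj (bil (w + t • V) (w + t • V))) (conj (2 * bil w V)) 0 :=
    conjCLE.hasFDerivAt.comp_hasDerivAt 0 p
  have j : HasDerivAt (fun t : ℝ => J2 (w + t • V)) (dJ w V) 0 := by
    have := (e.pow 2).sub p.norm_sq
    refine (this.congr_deriv ?_).congr_of_eventuallyEq (Eventually.of_forall fun t => ?_)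
    · simp [dJ, Complex.inner]; ring
    · simp only [J2, Pi.sub_apply, Pi.pow_apply]; ring
  have a0 : 0 < a := ha ▸ ra_pos y w
  have b0 : 0 < b := hb ▸ rb_pos y w
  have da : HasDerivAt (fun t : ℝ => ra y (w + t • V)) (y ^ 2 * dJ w V / (2 * a)) 0 := by
    have := ((j.const_mul (y ^ 2)).const_add 1).sqrt (by have := J2_nonneg (w + (0 : ℝ) • V); positivity)
    rwa [l0, ← ra, ← ha] at this
  have db : HasDerivAt (fun t : ℝ => rb y (w + t • V)) (y ^ 2 * E * (2 * inner ℝ w V) / b) 0 := by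
    have := (((e.pow 2).const_mul (y ^ 2)).const_add 1).sqrt (by simp only [Pi.pow_apply]; positivity)
    refine (this.congr_deriv ?_).congr_of_eventuallyEq (Eventually.of_forall fun t => ?_)
    · simp only [Pi.pow_apply, l0, ← pow_mul]
      rw [← rb, ← hb, hE]
      field_simp
      norm_num
      ring
    · simp only [rb, Pi.pow_apply, ← pow_mul]
  have A : HasDerivAt (fun t : ℝ => (bil X (cj (w + t • V))).im) (bil X (cj V)).im 0 :=
    (imCLM.comp ((bilL X).comp cjL)).hasFDerivAt.comp_hasDerivAt 0 l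
  have B := imCLM.hasFDerivAt.comp_hasDerivAt 0 (pc.mul q)
  have g := (hasDerivAt_const (0 : ℝ) y).div (da.const_add 1) (by rw [l0, ← ha]; positivity)
  have h := (e.const_mul (y ^ 3)).div (((da.const_add 1).mul (db.const_add 1)).mul (da.add db))
    (by simp only [Pi.mul_apply, Pi.add_apply, l0, ← ha, ← hb]; positivity)
  have f := (g.mul A).sub (h.mul B)
  refine (m.unique (f.congr_of_eventuallyEq (Eventually.of_forall fun t => La_apply _ _ _))).trans ?_
  simp only [Pi.mul_apply, Pi.add_apply, Pi.div_apply, Function.comp_apply, l0, ← ha, ← hb, ← hE,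
    imCLM_apply, map_mul, map_ofNat]
  field_simp
  ring

theorem coef {x X a b C T s R1 R2 R3 l m D : ℝ} (ha : 1 ≤ a) (hb : 1 ≤ b) (h0 : X ≠ 0)
    (h1 : X = b ^ 2 - 1) (h2 : a ^ 2 = 1 + X * C) (h3 : T = 1 - C) :
    -(x * X) / (2 * a * (1 + a) ^ 2) *
        (4 * (4 * C * l + 6 * s * C * R2 - 2 * R1 - 2 * s * R3 + 2 * s ^ 2 * C * T * l)) +
      x / (1 + a) * (2 * (D + 4 * l + 4 * s * R2 + s ^ 2 * T * l - s ^ 2 * l)) -
      x * X / ((1 + a) * (1 + b) * (a + b)) *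
        ((1 - X / b * ((1 + b)⁻¹ + (a + b)⁻¹)) * (4 * (R1 + 2 * T * l + s * (1 + T) * R2)) -
          X / (2 * a) * ((1 + a)⁻¹ + (a + b)⁻¹) * (2 * (4 * (C - T) * R1 + 8 * C * T * l +
            4 * s * C * (1 + 2 * T) * R2 - 2 * T * m - 4 * s * T * R3 +
            2 * s ^ 2 * C * (1 + T) * T * l)) +
          4 * (m + 4 * R1 + 2 * s * R3 + (4 * l + 4 * s * R2 + s ^ 2 * T * l) * T - s ^ 2 * l)) =
    2 * x * (-2 * (X * (a * (1 + a))⁻¹ * (b * (1 + b))⁻¹ * (1 + (a + b)⁻¹)) * (R1 + s * C * R2) +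
      (1 + a)⁻¹ * D - X * m / (a * (1 + a) ^ 2) - (a * (1 + a))⁻¹ * (s ^ 2 * C * l) +
      4 * (b * (1 + b))⁻¹ * (l + s * R2)) := by
  obtain rfl : C = (a ^ 2 - 1) / X := by rw [eq_div_iff h0]; linarith
  subst h3 h1
  have : 0 < a := by linarith
  have : 0 < b := by linarith
  field_simp
  ring

theorem form (s y : ℝ) (w : Cn n) (N : L (Cn n)) (h : w ≠ 0) (ho : Op s w N = 0) :
    dl (La y) w N = mu s y w N := by
  have hp : 0 < ‖w‖ ^ 2 := pow_pos (norm_pos_iff.2 h) 2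
  have h0 : ((‖w‖ ^ 2 : ℝ) : ℂ) ≠ 0 := ofReal_ne_zero.2 hp.ne'
  have a : bil (zd N) (cj w) = pp w N * (‖w‖ ^ 2 : ℝ) := by rw [pp, div_mul_cancel₀ _ h0]
  have b : bil w (zd N) = (et w N + pp w N * ph w) * (‖w‖ ^ 2 : ℝ) := by
    rw [bil_comm, et, sub_add_cancel, div_mul_cancel₀ _ h0]
  have c : bil w w = ph w * (‖w‖ ^ 2 : ℝ) := by rw [ph, div_mul_cancel₀ _ h0]
  have a' : ∀ X, bil (N X) (cj w) =
      (X * pp w N - conj X * (s * lz w N) * conj (ph w)) * (‖w‖ ^ 2 : ℝ) := fun X => by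
    rw [ap_eq, bil_add_left, bil_smul_left, bil_smul_left, zb_eq w N ho, bil_smul_left, bil_cj_cj,
      a, c, map_mul, conj_ofReal]
    ring
  have b' : ∀ X, bil w (N X) =
      (X * (et w N + pp w N * ph w) - conj X * (s * lz w N)) * (‖w‖ ^ 2 : ℝ) := fun X => by
    rw [ap_eq, bil_add_right, bil_smul_right, bil_smul_right, zb_eq w N ho, bil_smul_right,
      bil_cj_self, b]
    ring
  have g : (bil (N I) (cj (N 1))).im = ‖zd N‖ ^ 2 - s ^ 2 * ‖lz w N‖ ^ 2 * ‖w‖ ^ 2 := by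
    have : ‖zb N‖ ^ 2 = s ^ 2 * ‖lz w N‖ ^ 2 * ‖w‖ ^ 2 := by
      rw [zb_eq w N ho, norm_smul, norm_neg, norm_mul, norm_cj, Complex.norm_real, mul_pow, mul_pow,
        Real.norm_eq_abs, sq_abs]
    rw [← this, ap_eq N I, ap_eq N 1]
    simp only [cj_add, cj_smul, bil_add_left, bil_add_right, bil_smul_left, bil_smul_right,
      bil_cj_self, bil_comm (zb N) (cj (zd N)), bil_cj_left (zd N) (zb N),
      bil_comm (zd N) (cj (zb N))]
    generalize ‖zd N‖ ^ 2 = P
    generalize ‖zb N‖ ^ 2 = Q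
    simp
    ring
  have g' : (bil (N 1) (cj (N I))).im = -(bil (N I) (cj (N 1))).im := by
    rw [bil_comm (N 1), bil_cj_left, conj_im]
  have e4 : ‖w‖ ^ 4 = (‖w‖ ^ 2) ^ 2 := by ring
  have r1 := ra_sq w y
  have r2 := rb_sq w y
  rw [J2_eq w h, e4] at r1
  rw [e4] at r2
  have d := C2_eq w h
  rcases eq_or_ne y 0 with rfl | hy
  · simp [dl, der 0 w _ _ rfl rfl rfl, mu]
  have k := coef (x := y * ‖w‖ ^ 2) (X := (y * ‖w‖ ^ 2) ^ 2) (C := C2 w) (T := ‖ph w‖ ^ 2) (s := s)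
    (R1 := (lz w N * ph w * conj (et w N)).re) (R2 := (lz w N ^ 2 * conj (ph w)).re)
    (R3 := (conj (ph w) ^ 2 * et w N * lz w N).re) (l := ‖lz w N‖ ^ 2) (m := ‖et w N‖ ^ 2)
    (D := ‖zd N‖ ^ 2 / ‖w‖ ^ 2 - ‖pp w N‖ ^ 2) (one_le_ra w y)
    ((one_le_ra w y).trans (ra_le_rb w y)) (by positivity) (by rw [r2]; ring) (by rw [r1]; ring)
    (by rw [d]; ring)
  rw [mu, uu, vv, add_re, re_ofReal_mul, ← k, dl, der y w _ _ rfl rfl rfl, der y w _ _ rfl rfl rfl,
    g', g, bil_comm (N I) (N 1)]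
  simp only [dJ, a', b', c, inner_ap w N h, d, pp_eq w N h ho]
  obtain ⟨D, hD⟩ : ∃ D, ‖zd N‖ ^ 2 = D * ‖w‖ ^ 2 := ⟨_, (div_mul_cancel₀ _ hp.ne').symm⟩
  rw [hD, mul_div_cancel_right₀ _ hp.ne']
  generalize ‖w‖ ^ 2 = E
  generalize lz w N = l
  generalize ph w = f
  generalize et w N = e
  generalize bil (N 1) (N I) = u
  simp only [Complex.sq_norm, normSq_apply, div_eq_mul_inv]
  generalize (2 * ra y w * (1 + ra y w) ^ 2)⁻¹ = i1
  generalize (1 + ra y w)⁻¹ = i2
  generalize ((1 + ra y w) * (1 + rb y w) * (ra y w + rb y w))⁻¹ = i3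
  generalize (1 + rb y w)⁻¹ = i4
  generalize (ra y w + rb y w)⁻¹ = i5
  generalize (rb y w)⁻¹ = i6
  generalize (2 * ra y w)⁻¹ = i7
  simp [sq]
  ring

end DlA

theorem dlS : DlS := fun _ => ⟨DlA.smooth, DlA.scale, DlA.form⟩

end Pool.Agent.MP_815c6c_an.L

end
end MrgPart1

-- ======== part 2: formerly Pool.Agent.MP_815c6c_an.L.Rig
section MrgPart2

/-! Blow downs are rigid. -/

set_option autoImplicit false

namespace Pool.Agent.MP_815c6c_an.L

open Set Metric MeasureTheory Filter Topology Complex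
open Q

namespace RigA

variable {n : ℕ} {s : ℝ} {F G : ℂ → Cn n} {R N : ℕ → ℝ} {η : ℂ → ℝ} {K : Set ℂ}

theorem low (hG : Continuous G) (hK : IsCompact K) (h0 : ∀ z ∈ K, G z ≠ 0) :
    ∃ m, 0 < m ∧ ∀ z ∈ K, 2 * m ≤ ‖G z‖ := by
  obtain ⟨m, hm, h⟩ := hK.exists_forall_le' hG.norm.continuousOn fun z hz => norm_pos_iff.2 (h0 z hz)
  exact ⟨m / 2, by linarith, fun z hz => by linarith [h z hz]⟩

/-- uniform bounds where the limit has no zero -/
theorem unif (hS : Shell n s) (hB : Bl s F R N G) (hK : IsCompact K) (h0 : ∀ z ∈ K, G z ≠ 0) :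
    ∃ m D, 0 < m ∧ 0 ≤ D ∧ ∀ᶠ k in atTop, ∀ z ∈ K, m ≤ ‖sc (R k) (N k) F z‖ ∧
      ‖fderiv ℝ (sc (R k) (N k) F) z‖ ≤ D := by
  obtain ⟨m, hm, h⟩ := low (continuousOn_univ.1 hB.sol.1) hK h0
  obtain ⟨D, hD⟩ := hK.exists_bound_of_continuousOn (f := fderiv ℝ G) fun z hz =>
    (((hS.s1 _ G isOpen_univ hB.sol z trivial (h0 z hz)).1.fderiv_right (m := 0)
      le_rfl).continuousAt).continuousWithinAt
  refine ⟨m, |D| + 1, hm, by positivity, ?_⟩
  filter_upwards [Metric.tendstoUniformlyOn_iff.1 (hB.c0 K hK) m hm,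
    Metric.tendstoUniformlyOn_iff.1 (hB.c1 K hK h0) 1 one_pos] with k a b z hz
  have a' := a z hz
  have b' := b z hz
  rw [dist_eq_norm] at a' b'
  have := norm_sub_norm_le (G z) (sc (R k) (N k) F z)
  have := norm_sub_norm_le (fderiv ℝ (sc (R k) (N k) F) z) (fderiv ℝ G z)
  rw [norm_sub_rev] at b'
  exact ⟨by linarith [h z hz], by linarith [hD z hz, le_abs_self D]⟩

/-- a dominating function for the flux -/
theorem dom (hb : Bnd n) (hm : Mas n s) {H : ℂ → Cn n} (hH : Sol s univ H) {m D y : ℝ} (m0 : 0 < m)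
    (D0 : 0 ≤ D) (y0 : 0 < y) (h1 : ∀ z ∉ K, fderiv ℝ η z = 0)
    (h : ∀ z ∈ K, m ≤ ‖H z‖ ∧ ‖fderiv ℝ H z‖ ≤ D) (z : ℂ) :
    ‖fl y H η z‖ ≤ |η z| * ‖fderiv ℝ η z‖ * (80 * (D / m)) := by
  refine (hm.fl H hH y η z y0).trans ?_
  by_cases hz : z ∈ K
  · obtain ⟨a, b⟩ := h z hz
    have p : 0 < ‖H z‖ := m0.trans_le a
    have e : Dz H z = fderiv ℝ H z := if_neg (norm_pos_iff.1 p)
    have t := hb.th0 (y * ‖H z‖ ^ 2) (by positivity)
    have u : √(Y2 (H z) (Dz H z)) ≤ 2 * (D / m) := by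
      refine Real.sqrt_le_iff.2 ⟨by positivity, (hb.xy y _ _).2.2.2.2.2.2.trans ?_⟩
      rw [e, mul_div_assoc, ← div_pow]
      have : ‖fderiv ℝ H z‖ / ‖H z‖ ≤ D / m := by gcongr
      have := pow_le_pow_left₀ (by positivity) this 2
      nlinarith [sq_nonneg (D / m)]
    have := mul_le_mul t.2.1 u (Real.sqrt_nonneg _) zero_le_one
    calc _ = |η z| * ‖fderiv ℝ η z‖ * (40 * (th (y * ‖H z‖ ^ 2) * √(Y2 (H z) (Dz H z)))) := by ring
      _ ≤ _ := mul_le_mul_of_nonneg_left (by linarith) (by positivity)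
  · simp [h1 z hz]

theorem idom (hη : Tf univ η) (B : ℝ) : Integrable fun z => |η z| * ‖fderiv ℝ η z‖ * B :=
  ((hη.1.continuous.abs.mul (hη.1.continuous_fderiv one_ne_zero).norm).integrable_of_hasCompactSupport
    hη.2.1.abs.mul_right).mul_const B

theorem scal (hm : Mas n s) (hF : Sol s univ F) {r t : ℝ} (r0 : 0 < r) (t0 : 0 < t) (η : ℂ → ℝ) :
    ms (t ^ 2) (sc r t F) η = ∫ z, η (r⁻¹ • z) ^ 2 * dn 1 F z := by
  have := Measure.integral_comp_smul volume (fun z => η (r⁻¹ • z) ^ 2 * dn 1 F z) r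
  simp only [inv_smul_smul₀ r0.ne', finrank_real_complex, smul_eq_mul] at this
  rw [abs_of_pos (by positivity), eq_inv_mul_iff_mul_eq₀ (by positivity)] at this
  rw [← this, ← integral_const_mul, ms]
  refine integral_congr_ae (Eventually.of_forall fun z => ?_)
  have e := (hm.sca F r t 1 z hF r0 t0).2.2
  rw [one_mul] at e
  simp only [e, real_smul]
  ring

theorem tf_sc (hη : Tf univ η) {r : ℝ} (r0 : 0 < r) : Tf univ fun z => η (r⁻¹ • z) :=
  ⟨hη.1.comp (contDiff_const_smul _),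
    hη.2.1.comp_homeomorph (Homeomorph.smulOfNeZero r⁻¹ (inv_pos.2 r0).ne'), subset_univ _⟩

/-- the total mass is finite -/
theorem fin (hS : Shell n s) (hb : Bnd n) (hm : Mas n s) (hc : CirS n s) (hF : Sol s univ F)
    (hB : Bl s F R N G) : Integrable (dn 1 F) := by
  obtain ⟨x, hx⟩ := hB.g1
  obtain ⟨η, h1, ⟨K, hK, h0, h2⟩, r, x', hx', -, -, h3⟩ := hc G 0 x (‖x‖ + 1) hB.sol (by simp)
    (fun h => hx (h ▸ hB.g0)) hx
  have r0 : 0 < r := pos_of_mem_ball hx'
  have hη : Tf univ η := ⟨h1.1, h1.2.1, subset_univ _⟩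
  obtain ⟨m, D, m0, D0, h⟩ := unif hS hB hK h0
  have e : ∀ k, ∀ z ∈ ball (0 : ℂ) (R k * r), η ((R k)⁻¹ • z) ^ 2 * dn 1 F z = dn 1 F z :=
    fun k z hz => by
      rw [h3, one_pow, one_mul]
      rw [mem_ball_zero_iff] at hz ⊢
      rwa [norm_smul, norm_inv, Real.norm_of_nonneg (hB.r0 k).le, inv_mul_lt_iff₀ (hB.r0 k)]
  have i := fun k => (hm.sto F hF 1 _ (tf_sc hη (hB.r0 k))).1
  have p : ∀ z, 0 ≤ dn 1 F z := fun z => (hm.low F hF 1 z one_pos).1
  refine (aecover_ball (x := (0 : ℂ)) (hB.rt.atTop_mul_const r0)).integrable_of_integral_bounded_of_nonneg_ae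
    (∫ z, |η z| * ‖fderiv ℝ η z‖ * (80 * (D / m)))
    (fun k => (i k).integrableOn.congr_fun (e k) measurableSet_ball) (Eventually.of_forall p) ?_
  filter_upwards [h] with k hk
  have sk := (hm.sca F _ _ 1 0 hF (hB.r0 k) (hB.n0 k)).1
  rw [← setIntegral_congr_fun measurableSet_ball (e k)]
  refine (setIntegral_le_integral (i k) (Eventually.of_forall fun z =>
    mul_nonneg (sq_nonneg _) (p z))).trans ?_
  rw [← scal hm hF (hB.r0 k) (hB.n0 k), (hm.sto _ sk _ η hη).2.2]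
  exact (neg_le_abs _).trans (norm_integral_le_of_norm_le (idom hη _)
    (Eventually.of_forall (dom hb hm sk m0 D0 (pow_pos (hB.n0 k) 2) h2 hk)))

/-- the mass escapes from the punctured plane -/
theorem esc (hm : Mas n s) (hF : Sol s univ F) (hB : Bl s F R N G) (hi : Integrable (dn 1 F))
    (hη : Tf {0}ᶜ η) : Tendsto (fun k => ms (N k ^ 2) (sc (R k) (N k) F) η) atTop (𝓝 0) := by
  simp only [fun k => scal hm hF (hB.r0 k) (hB.n0 k) η]
  obtain ⟨B, hb⟩ := hη.1.continuous.bounded_above_of_compact_support hη.2.1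
  have e : η 0 = 0 := image_eq_zero_of_notMem_tsupport fun h => hη.2.2 h rfl
  have := tendsto_integral_of_dominated_convergence (f := fun _ => (0 : ℝ)) _
    (fun k => (hm.sto F hF 1 _ (tf_sc ⟨hη.1, hη.2.1, subset_univ _⟩ (hB.r0 k))).1.1)
    (hi.norm.const_mul (B ^ 2)) (fun k => Eventually.of_forall fun z => by
      rw [norm_mul, norm_pow]
      gcongr
      exact hb _) (Eventually.of_forall fun z => by
      have := (((hη.1.continuous.tendsto' 0 0 e).comp (by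
        simpa using hB.rt.inv_tendsto_atTop.smul_const z)).pow 2).mul_const (dn 1 F z)
      simpa using this)
  simpa using this

end RigA

open RigA in
theorem rig : Kit → ∀ n s, 0 < s → s < 1 → Shell n s → Mas n s → CirS n s → RigS n s := by
  intro k n s _ _ hS hm hc F G R N hF hB η hη ⟨K, hK, h0, h1⟩
  have hb := k.bnd n
  have he := esc hm hF hB (fin hS hb hm hc hF hB) hη
  have hu : Tf univ η := ⟨hη.1, hη.2.1, subset_univ _⟩
  obtain ⟨C, C0, ht⟩ := hm.tra
  obtain ⟨m, D, m0, D0, h⟩ := unif hS hB hK h0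
  refine ⟨(C * ∫ z, ‖fderiv ℝ η z‖ ^ 2) / m ^ 2, fun y y1 => ?_⟩
  have y0 : 0 < y := one_pos.trans_le y1
  have sk := fun k => (hm.sca F _ _ 1 0 hF (hB.r0 k) (hB.n0 k)).1
  have l : Tendsto (fun k => ms y (sc (R k) (N k) F) η) atTop (𝓝 (ms y G η)) := by
    simp only [fun k => (hm.sto _ (sk k) y η hu).2.2, (hm.sto _ hB.sol y η hu).2.2]
    refine (tendsto_integral_filter_of_dominated_convergence _
      (Eventually.of_forall fun k => (hm.sto _ (sk k) y η hu).2.1.1)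
      (h.mono fun k hk => Eventually.of_forall (dom hb hm (sk k) m0 D0 y0 h1 hk)) (idom hu _)
      (Eventually.of_forall fun z => ?_)).neg
    by_cases hz : z ∈ K
    · have a := (((k.dl n).1 y).continuous.tendsto _).comp ((hB.c0 K hK).tendsto_at hz)
      have b : Tendsto (fun k => Dz (sc (R k) (N k) F) z) atTop (𝓝 (Dz G z)) := by
        rw [show Dz G z = fderiv ℝ G z from if_neg (h0 z hz)]
        refine ((hB.c1 K hK h0).tendsto_at hz).congr' (h.mono fun k hk => ?_)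
        exact (if_neg (norm_pos_iff.1 (m0.trans_le (hk z hz).1))).symm
      have c : ∀ X : ℂ, Tendsto (fun k => La y (sc (R k) (N k) F z) (Dz (sc (R k) (N k) F) z X))
          atTop (𝓝 (La y (G z) (Dz G z X))) := fun X =>
        (isBoundedBilinearMap_apply.continuous.tendsto (La y (G z), Dz G z X)).comp
          (a.prodMk_nhds (((ContinuousLinearMap.apply ℝ _ X).continuous.tendsto _).comp b))
      exact (((c I).const_mul _).sub ((c 1).const_mul _)).const_mul _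
    · simp [fl, wd, h1 z hz]
  have := le_of_tendsto_of_tendsto l ((he.const_mul 2).add_const
    ((C * ∫ z, ‖fderiv ℝ η z‖ ^ 2) / (y * m ^ 2))) <| by
      filter_upwards [h, ((tendsto_pow_atTop two_ne_zero).comp hB.nt).eventually_ge_atTop y]
        with k hk hy
      exact ht _ η y _ _ (sk k) hu y0 hy (pow_pos m0 2) fun z hz =>
        pow_le_pow_left₀ m0.le (hk z (by_contra fun a => hz (h1 z a))).1 2
  rwa [mul_zero, zero_add, mul_comm y, ← div_div] at this

end Pool.Agent.MP_815c6c_an.L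

end MrgPart2

-- marker of a merged file
example : 731051 + 254106 = 731051 + 254106 := rfl
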