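import Mathlib.Analysis.Complex.Isometry
import Mathlib.Analysis.Real.Pi.Bounds
import Pool.Agent.MP_815c6c_an.Q.Osc
import Pool.Agent.MP_815c6c_an.P.Wk

-- ======== part 0: formerly Pool.Agent.MP_815c6c_an.L.Basic
section MrgPart0

/-! Planar p-harmonic maps: elementary facts on the bilinear product and on jets. -/

set_option autoImplicit false

noncomputable section

namespace Pool.Agent.MP_815c6c_an.L

open Set Metric MeasureTheory Filter Topology Complex
open scoped ContDiff ComplexConjugate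
open Q

variable {n : ℕ} (u v w : Cn n) (N : L (Cn n))

theorem bil_comm : bil u v = bil v u := by simp [bil, mul_comm]
theorem bil_add_left : bil (u + v) w = bil u w + bil v w := by
  simp [bil, add_mul, Finset.sum_add_distrib]
theorem bil_sub_left : bil (u - v) w = bil u w - bil v w := by
  simp [bil, sub_mul, Finset.sum_sub_distrib]
theorem bil_smul_left (t : ℂ) : bil (t • u) w = t * bil u w := by
  simp [bil, Finset.mul_sum, mul_assoc]
theorem bil_rsmul_left (t : ℝ) : bil (t • u) w = t * bil u w := by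
  simp [bil, Finset.mul_sum, mul_assoc]
theorem bil_add_right : bil w (u + v) = bil w u + bil w v := by
  simp [bil, mul_add, Finset.sum_add_distrib]
theorem bil_sub_right : bil w (u - v) = bil w u - bil w v := by
  simp [bil, mul_sub, Finset.sum_sub_distrib]
theorem bil_smul_right (t : ℂ) : bil w (t • u) = t * bil w u := by
  simp [bil, Finset.mul_sum, mul_left_comm]
theorem bil_rsmul_right (t : ℝ) : bil w (t • u) = t * bil w u := by
  simp [bil, Finset.mul_sum, mul_left_comm]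
theorem bil_neg_left : bil (-u) w = -bil u w := by simp [bil]
theorem bil_neg_right : bil w (-u) = -bil w u := by simp [bil]
@[simp] theorem bil_zero_left : bil 0 w = 0 := by simp [bil]
@[simp] theorem bil_zero_right : bil w 0 = 0 := by simp [bil]
@[simp] theorem cj_cj : cj (cj w) = w := by ext; simp [cj]
@[simp] theorem cj_zero : cj (0 : Cn n) = 0 := by ext; simp [cj]
theorem cj_add : cj (u + v) = cj u + cj v := by ext; simp [cj]
theorem cj_sub : cj (u - v) = cj u - cj v := by ext; simp [cj]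
theorem cj_neg : cj (-u) = -cj u := by ext; simp [cj]
theorem cj_smul (t : ℂ) : cj (t • u) = conj t • cj u := by ext; simp [cj]
theorem cj_rsmul (t : ℝ) : cj (t • u) = t • cj u := by ext; simp [cj]
theorem bil_cj_cj : bil (cj u) (cj v) = conj (bil u v) := by simp [bil, cj]
theorem bil_cj_left : bil (cj u) v = conj (bil u (cj v)) := by simp [bil, cj]
theorem inner_eq_bil : inner ℂ u v = bil v (cj u) := by simp [bil, cj, PiLp.inner_apply]
theorem inner_eq_re : inner ℝ u v = (bil v (cj u)).re := by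
  simp [bil, cj, PiLp.inner_apply, Complex.inner]
theorem bil_cj_self : bil w (cj w) = (‖w‖ ^ 2 : ℝ) := by
  rw [← inner_eq_bil, inner_self_eq_norm_sq_to_K]; simp
theorem bil_cj_self' : bil (cj w) w = (‖w‖ ^ 2 : ℝ) := by rw [bil_comm, bil_cj_self]
@[simp] theorem norm_cj : ‖cj w‖ = ‖w‖ := by simp [EuclideanSpace.norm_eq, cj]
theorem norm_bil_le : ‖bil u v‖ ≤ ‖u‖ * ‖v‖ := by
  have := norm_inner_le_norm (𝕜 := ℂ) (cj v) u
  rwa [inner_eq_bil, cj_cj, norm_cj, mul_comm] at this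

/-- the product and the conjugation as continuous real linear maps -/
def bilL : Cn n →L[ℝ] Cn n →L[ℝ] ℂ := LinearMap.toContinuousBilinearMap <|
  LinearMap.mk₂ ℝ bil bil_add_left (fun t u w => by simp [bil_rsmul_left])
    (fun w u v => bil_add_right u v w) (fun t u w => by simp [bil_rsmul_right])
def cjL : Cn n →L[ℝ] Cn n := LinearMap.toContinuousLinearMap
  { toFun := cj, map_add' := cj_add, map_smul' := fun t u => cj_rsmul u t }
@[simp] theorem bilL_apply : bilL u v = bil u v := rfl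
@[simp] theorem cjL_apply : cjL u = cj u := rfl

section
variable {E : Type} [NormedAddCommGroup E] [NormedSpace ℝ E] {f g : E → Cn n} {x : E}

@[fun_prop] theorem contDiff_bil {m : WithTop ℕ∞} (hf : ContDiff ℝ m f) (hg : ContDiff ℝ m g) :
    ContDiff ℝ m fun x => bil (f x) (g x) := (bilL.contDiff.comp hf).clm_apply hg
@[fun_prop] theorem contDiff_cj {m : WithTop ℕ∞} (hf : ContDiff ℝ m f) :
    ContDiff ℝ m fun x => cj (f x) := cjL.contDiff.comp hf
theorem hasFDerivAt_bil {f' g' : E →L[ℝ] Cn n} (hf : HasFDerivAt f f' x)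
    (hg : HasFDerivAt g g' x) : HasFDerivAt (fun x => bil (f x) (g x))
      ((bilL (f x)).comp g' + (bilL.flip (g x)).comp f') x := by
  exact (bilL.hasFDerivAt_of_bilinear hf hg).congr_fderiv (by ext; simp)
end

@[fun_prop] theorem continuous_bil {E : Type} [TopologicalSpace E] {f g : E → Cn n}
    (hf : Continuous f) (hg : Continuous g) : Continuous fun x => bil (f x) (g x) :=
  (bilL.continuous.comp hf).clm_apply hg
@[fun_prop] theorem continuous_cj {E : Type} [TopologicalSpace E] {f : E → Cn n}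
    (hf : Continuous f) : Continuous fun x => cj (f x) := cjL.continuous.comp hf

theorem J2_nonneg : 0 ≤ J2 w := by
  have := pow_le_pow_left₀ (norm_nonneg _) (norm_bil_le w w) 2
  rw [J2]; nlinarith
theorem J2_le : J2 w ≤ ‖w‖ ^ 4 := sub_le_self _ (sq_nonneg _)
theorem contDiff_J2 : ContDiff ℝ ∞ (J2 : Cn n → ℝ) := by
  have e : (J2 : Cn n → ℝ) = fun w => (‖w‖ ^ 2) ^ 2 - ‖bil w w‖ ^ 2 := by
    ext w; rw [J2]; ring
  rw [e]
  exact ((contDiff_norm_sq ℝ).pow 2).sub ((contDiff_bil contDiff_id contDiff_id).norm_sq ℝ)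
theorem ra_sq (y : ℝ) : ra y w ^ 2 = 1 + y ^ 2 * J2 w :=
  Real.sq_sqrt (by have := J2_nonneg w; positivity)
theorem rb_sq (y : ℝ) : rb y w ^ 2 = 1 + y ^ 2 * ‖w‖ ^ 4 := Real.sq_sqrt (by positivity)
theorem one_le_ra (y : ℝ) : 1 ≤ ra y w :=
  Real.one_le_sqrt.2 (le_add_of_nonneg_right (mul_nonneg (sq_nonneg _) (J2_nonneg w)))
theorem ra_le_rb (y : ℝ) : ra y w ≤ rb y w :=
  Real.sqrt_le_sqrt (by have := J2_le w; gcongr)
theorem C2_nonneg : 0 ≤ C2 w := div_nonneg (J2_nonneg w) (by positivity)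
theorem C2_eq (h : w ≠ 0) : C2 w = 1 - ‖ph w‖ ^ 2 := by
  have := norm_pos_iff.2 h
  rw [C2, J2, ph, norm_div, Complex.norm_real, Real.norm_of_nonneg (sq_nonneg _)]
  field_simp
theorem J2_eq (h : w ≠ 0) : J2 w = C2 w * ‖w‖ ^ 4 := by
  have := norm_pos_iff.2 h
  rw [C2]; field_simp
theorem La_apply (y : ℝ) : La y w v = y / (1 + ra y w) * (bil v (cj w)).im -
    y ^ 3 * ‖w‖ ^ 2 / ((1 + ra y w) * (1 + rb y w) * (ra y w + rb y w)) *
      (conj (bil w w) * bil w v).im := by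
  rw [La, innerSL_apply_apply, inner_eq_re, vf, cj_smul, cj_sub, cj_rsmul, cj_rsmul, cj_smul, cj_cj,
    bil_smul_right, bil_sub_right, bil_rsmul_right, bil_rsmul_right, bil_smul_right, bil_comm v w]
  simp [-ofReal_div, -ofReal_pow]

/-- a jet in terms of the Wirtinger derivatives -/
theorem ap_eq (X : ℂ) : N X = X • zd N + conj X • zb N := by
  rw [L_apply N X]
  ext a
  simp [zd, zb, Complex.ext_iff]
  constructor <;> ring
theorem zb_eq {s : ℝ} (h : Op s w N = 0) : zb N = -(s * lz w N) • cj w := by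
  rw [neg_smul]; exact eq_neg_of_add_eq_zero_left h
theorem inner_ap (h : w ≠ 0) (X : ℂ) : inner ℝ w (N X) = 2 * ‖w‖ ^ 2 * (lz w N * X).re := by
  have := (norm_pos_iff.2 h).ne'
  rw [L_apply N X, inner_add_right, inner_smul_right, inner_smul_right, lz,
    show (2 * (‖w‖ ^ 2 : ℝ) : ℂ) = (2 * ‖w‖ ^ 2 : ℝ) by simp, div_mul_eq_mul_div, div_ofReal_re]
  field_simp
  simp
  ring
theorem pp_eq {s : ℝ} (h : w ≠ 0) (ho : Op s w N = 0) :
    pp w N = 2 * lz w N + s * conj (lz w N) * ph w := by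
  have h0 : ((‖w‖ ^ 2 : ℝ) : ℂ) ≠ 0 := ofReal_ne_zero.2 (pow_ne_zero 2 (norm_pos_iff.2 h).ne')
  have k : ∀ X : ℂ, (X * bil (zd N) (cj w) - conj X * (s * lz w N * conj (bil w w))).re =
      2 * ‖w‖ ^ 2 * (lz w N * X).re := fun X => by
    rw [← inner_ap w N h, inner_eq_re, ap_eq N X, bil_add_left, bil_smul_left, bil_smul_left,
      zb_eq w N ho, bil_smul_left, bil_cj_cj]
    congr 1; ring
  have a := k 1
  have b := k I
  rw [pp, ph, div_eq_iff h0, add_mul, mul_assoc _ (_ / _), div_mul_cancel₀ _ h0]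
  generalize ‖w‖ ^ 2 = E at *
  simp [Complex.ext_iff] at a b ⊢
  constructor <;> linarith

/-- the Gram identity -/
theorem gram (α β : ℂ) (P : Cn n) : ‖P - α • w - β • cj w‖ ^ 2 = ‖P‖ ^ 2 +
    (‖α‖ ^ 2 + ‖β‖ ^ 2) * ‖w‖ ^ 2 - 2 * (conj α * bil P (cj w)).re - 2 * (conj β * bil P w).re +
    2 * (α * conj β * bil w w).re := by
  have e := bil_cj_self (P - α • w - β • cj w)
  simp only [cj_sub, cj_smul, cj_cj, bil_sub_left, bil_sub_right, bil_smul_left, bil_smul_right,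
    bil_cj_self, bil_cj_self', bil_cj_cj, bil_comm w (cj P), bil_cj_left P w,
    bil_comm (cj w) (cj P)] at e
  have := congrArg re e
  rw [ofReal_re] at this
  rw [← this, Complex.sq_norm α, Complex.sq_norm β, normSq_apply, normSq_apply]
  generalize ‖w‖ ^ 2 = E
  generalize ‖P‖ ^ 2 = A
  simp
  ring

theorem gram_eq (h : w ≠ 0) : ‖zd N‖ ^ 2 / ‖w‖ ^ 2 - ‖pp w N‖ ^ 2 = Z2 w N + Nn w N := by
  have hp : 0 < ‖w‖ ^ 2 := pow_pos (norm_pos_iff.2 h) 2
  have h0 : ((‖w‖ ^ 2 : ℝ) : ℂ) ≠ 0 := ofReal_ne_zero.2 hp.ne'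
  have a : bil (zd N) (cj w) = pp w N * (‖w‖ ^ 2 : ℝ) := by rw [pp, div_mul_cancel₀ _ h0]
  have b : bil (zd N) w = (et w N + pp w N * ph w) * (‖w‖ ^ 2 : ℝ) := by
    rw [et, sub_add_cancel, div_mul_cancel₀ _ h0]
  have c : bil w w = ph w * (‖w‖ ^ 2 : ℝ) := by rw [ph, div_mul_cancel₀ _ h0]
  have d := C2_eq w h
  rw [Nn, gram, a, b, c, Z2, be]
  simp only [Complex.sq_norm, normSq_apply] at d ⊢
  generalize ‖w‖ ^ 2 = E at *
  generalize C2 w = C at *
  generalize pp w N = p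
  generalize et w N = e
  generalize ph w = f at *
  rcases eq_or_ne C 0 with rfl | hC
  · simp
    field_simp
    ring
  · simp only [div_ofReal_re, div_ofReal_im, sub_re, sub_im, mul_re, mul_im, add_re, add_im,
      conj_re, conj_im, ofReal_re, ofReal_im]
    field_simp
    rw [d]
    ring

theorem cj_eq (h : w ≠ 0) (hC : C2 w = 0) : cj w = conj (ph w) • w := by
  have hp : 0 < ‖w‖ ^ 2 := pow_pos (norm_pos_iff.2 h) 2
  have h0 : ((‖w‖ ^ 2 : ℝ) : ℂ) ≠ 0 := ofReal_ne_zero.2 hp.ne'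
  have c : bil w w = ph w * (‖w‖ ^ 2 : ℝ) := by rw [ph, div_mul_cancel₀ _ h0]
  have g := gram w (conj (ph w)) 0 (cj w)
  have d := C2_eq w h
  rw [zero_smul, sub_zero, bil_cj_cj, c, norm_cj, Complex.norm_conj] at g
  rw [← sub_eq_zero, ← norm_eq_zero, ← sq_eq_zero_iff, g]
  simp only [Complex.sq_norm, normSq_apply, hC] at d ⊢
  generalize ‖w‖ ^ 2 = E at *
  simp
  linear_combination -E * d

theorem et_zero (h : w ≠ 0) (hC : C2 w = 0) : et w N = 0 := by
  have e : w = ph w • cj w := by simpa [cj_smul] using congrArg cj (cj_eq w h hC)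
  have : bil (zd N) w = ph w * bil (zd N) (cj w) := by rw [← bil_smul_right, ← e]
  rw [et, pp, this]
  ring

end Pool.Agent.MP_815c6c_an.L

end
end MrgPart0

-- ======== part 1: formerly Pool.Agent.MP_815c6c_an.L.Cert
section MrgPart1

/-! Planar p-harmonic maps: the certificate is nonnegative. -/

set_option autoImplicit false

noncomputable section

namespace Pool.Agent.MP_815c6c_an.L

open Complex
open scoped ComplexConjugate
open Q

namespace CertA

lemma quad {A B C : ℝ} (hA : 0 ≤ A) (hC : 0 ≤ C) (h : B ^ 2 ≤ 4 * A * C) (y x : ℝ) :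
    0 ≤ A * y ^ 2 + B * (y * x) + C * x ^ 2 := by
  have h1 : 0 ≤ A * y ^ 2 + C * x ^ 2 := by positivity
  have h2 : (B * (y * x)) ^ 2 ≤ (A * y ^ 2 + C * x ^ 2) ^ 2 := by
    nlinarith [mul_le_mul_of_nonneg_right h (sq_nonneg (y * x)), sq_nonneg (A * y ^ 2 - C * x ^ 2)]
  have := abs_le_of_sq_le_sq' h2 h1
  linarith [this.1]

/-- the form after the minimisation in the third variable -/
def r (σ S m y x : ℝ) : ℝ := (1 + σ) * y ^ 2 + (σ / 2 + (S + σ ^ 2) / 4) * (y * x) +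
  (S / 8 + σ ^ 2 / 4) * x ^ 2 - (1 - σ ^ 2) * (m * y + σ * x / 2) ^ 2 / 8

variable {σ : ℝ}

lemma r11 (h0 : -1 ≤ σ) (h1 : σ ≤ 1) (y x : ℝ) : 0 ≤ r σ 1 1 y x := by
  have a : 0 ≤ 1 + σ := by linarith
  have b : σ ^ 2 ≤ 1 := by nlinarith
  have c : (1 + σ) * (2 + σ + σ ^ 2) ^ 2 ≤ (7 + σ) * (4 + 7 * σ ^ 2) := by
    have c1 : 0 ≤ 2 + σ + σ ^ 2 := by nlinarith
    have c2 : (1 + σ) * (2 + σ + σ ^ 2) ≤ 8 := by nlinarith
    have c3 := mul_le_mul_of_nonneg_right c2 c1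
    nlinarith [sq_nonneg σ, sq_nonneg (σ - 1 / 4), mul_nonneg a (sq_nonneg σ)]
  have := quad (A := (1 + σ) * (7 + σ) / 8) (B := (1 + σ) * (2 + σ + σ ^ 2) / 8)
    (C := (4 + 7 * σ ^ 2) / 32) (by have : 0 ≤ 7 + σ := by linarith
                                    positivity) (by positivity)
    (by nlinarith [mul_le_mul_of_nonneg_left c a]) y x
  have e : r σ 1 1 y x = (1 + σ) * (7 + σ) / 8 * y ^ 2 + (1 + σ) * (2 + σ + σ ^ 2) / 8 * (y * x) +
      (4 + 7 * σ ^ 2) / 32 * x ^ 2 + (σ ^ 2 * x) ^ 2 / 32 := by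
    unfold r; ring
  rw [e]
  positivity

lemma r12 (y x : ℝ) : 0 ≤ r σ 1 2 y x := by
  have := quad (A := 1 / 2) (B := (1 + σ ^ 2) / 4) (C := (4 + 7 * σ ^ 2 + σ ^ 4) / 32)
    (by norm_num) (by positivity) (by nlinarith [sq_nonneg σ]) ((1 + σ) * y) x
  refine this.trans_eq ?_
  unfold r; ring

lemma r01 (h0 : -1 ≤ σ) (h1 : σ ≤ 1) (y x : ℝ) : 0 ≤ r σ (σ ^ 2) 1 y x := by
  have a : 0 ≤ 1 + σ := by linarith
  have c : (1 + σ) * (3 + σ) ^ 2 ≤ 11 * (7 + σ) := by
    have c1 : (3 + σ) ^ 2 ≤ 16 := by nlinarith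
    nlinarith [mul_le_mul_of_nonneg_left c1 a]
  have := quad (A := (1 + σ) * (7 + σ) / 8) (B := (1 + σ) * (3 + σ) / 8) (C := 11 / 32)
    (by have : 0 ≤ 7 + σ := by linarith
        positivity) (by norm_num) (by nlinarith [mul_le_mul_of_nonneg_left c a]) y (σ * x)
  have e : r σ (σ ^ 2) 1 y x = (1 + σ) * (7 + σ) / 8 * y ^ 2 +
      (1 + σ) * (3 + σ) / 8 * (y * (σ * x)) + 11 / 32 * (σ * x) ^ 2 + (σ ^ 2 * x) ^ 2 / 32 := by
    unfold r; ring
  rw [e]
  positivity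

lemma r02 (h0 : -1 ≤ σ) (h1 : σ ≤ 1) (y x : ℝ) : 0 ≤ r σ (σ ^ 2) 2 y x := by
  have := quad (A := 1 / 2) (B := (1 + σ) / 4) (C := 11 / 32)
    (by norm_num) (by norm_num) (by nlinarith) ((1 + σ) * y) (σ * x)
  have e : r σ (σ ^ 2) 2 y x = 1 / 2 * ((1 + σ) * y) ^ 2 +
      (1 + σ) / 4 * ((1 + σ) * y * (σ * x)) + 11 / 32 * (σ * x) ^ 2 + (σ ^ 2 * x) ^ 2 / 32 := by
    unfold r; ring
  rw [e]
  positivity

lemma r_nonneg {S m : ℝ} (hσ : σ ^ 2 < 1) (h0 : σ ^ 2 ≤ S) (h1 : S ≤ 1) (m1 : 1 ≤ m) (m2 : m ≤ 2)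
    (y x : ℝ) : 0 ≤ r σ S m y x := by
  have a := abs_lt.1 ((sq_lt_one_iff_abs_lt_one σ).1 hσ)
  have hS : ∀ m, 0 ≤ r σ 1 m y x → 0 ≤ r σ (σ ^ 2) m y x → 0 ≤ r σ S m y x := fun m p q => by
    have e : (1 - σ ^ 2) * r σ S m y x =
        (S - σ ^ 2) * r σ 1 m y x + (1 - S) * r σ (σ ^ 2) m y x := by
      unfold r; ring
    refine nonneg_of_mul_nonneg_right ?_ (sub_pos.2 hσ)
    rw [e]
    exact add_nonneg (mul_nonneg (sub_nonneg.2 h0) p) (mul_nonneg (sub_nonneg.2 h1) q)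
  have p := hS 1 (r11 a.1.le a.2.le y x) (r01 a.1.le a.2.le y x)
  have q := hS 2 (r12 y x) (r02 a.1.le a.2.le y x)
  have e : r σ S m y x = (2 - m) * r σ S 1 y x + (m - 1) * r σ S 2 y x +
      (1 - σ ^ 2) * ((2 - m) * (m - 1)) * y ^ 2 / 8 := by
    unfold r; ring
  have b1 := sub_nonneg.2 m1
  have b2 := sub_nonneg.2 m2
  have b3 := (sub_pos.2 hσ).le
  rw [e]
  positivity

/-- the ternary form -/
lemma q_nonneg {S m g : ℝ} (hσ : σ ^ 2 < 1) (h0 : σ ^ 2 ≤ S) (h1 : S ≤ 1) (m1 : 1 ≤ m)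
    (m2 : m ≤ 2) (hg : g * (1 - σ ^ 2) = 1) (y x w : ℝ) :
    0 ≤ y ^ 2 + (S + σ ^ 2) / 4 * (y * x) + (S / 8 + σ ^ 2 / 4) * x ^ 2 - m * (w * y) +
      2 * g * w ^ 2 + σ * (y * y + y * x / 2 - w * x / 2) := by
  have g0 : 0 ≤ g := nonneg_of_mul_nonneg_left (zero_le_one.trans_eq hg.symm) (sub_pos.2 hσ)
  have h := add_nonneg (r_nonneg hσ h0 h1 m1 m2 y x) (mul_nonneg (mul_nonneg two_pos.le g0)
    (sq_nonneg (w - (1 - σ ^ 2) * (m * y + σ * x / 2) / 4)))
  refine h.trans_eq ?_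
  unfold r
  linear_combination (-(w * (m * y + σ * x / 2)) +
    (1 - σ ^ 2) * (m * y + σ * x / 2) ^ 2 / 8) * hg

/-- the complex form -/
def F (s R g m : ℝ) (μ y k V : ℂ) : ℝ :=
  (y * conj y).re + (s ^ 2 + s ^ 2 * R) / 4 * (y * conj k).re +
    (s ^ 2 / 8 + s ^ 2 * R / 4) * (k * conj k).re - m * (V * conj y).re +
    2 * g * (V * conj V).re +
    s * ((μ * (y * y)).re + (μ * (y * k)).re / 2 - (μ * (V * k)).re / 2)

lemma F_nonneg {s R g m : ℝ} {μ : ℂ} (hR : ‖μ‖ ^ 2 = R) (h0 : R ≤ 1) (h1 : s ^ 2 < 1)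
    (m1 : 1 ≤ m) (m2 : m ≤ 2) (hg : g * (1 - s ^ 2 * R) = 1) (y k V : ℂ) :
    0 ≤ F s R g m μ y k V := by
  obtain ⟨e, he, hμ⟩ : ∃ e : ℂ, e * conj e = 1 ∧ μ = (‖μ‖ : ℝ) * (e * e) := by
    refine ⟨exp ((arg μ / 2 : ℝ) * I), ?_, ?_⟩
    · rw [mul_conj', norm_exp_ofReal_mul_I]
      simp
    · rw [← Complex.exp_add]
      conv_lhs => rw [← norm_mul_exp_arg_mul_I μ]
      congr 2
      push_cast
      ring
  generalize ‖μ‖ = ρ at hR hμ
  have a1 : ∀ u v : ℂ, (u * conj v).re =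
      (u * e).re * (v * e).re + (u * e).im * (v * e).im := fun u v => by
    have : u * conj v = (u * e) * conj (v * e) := by
      rw [map_mul]
      linear_combination (-(u * conj v)) * he
    rw [this]
    generalize u * e = a
    generalize v * e = b
    simp
  have a2 : ∀ u v : ℂ, (μ * (u * v)).re =
      ρ * ((u * e).re * (v * e).re - (u * e).im * (v * e).im) := fun u v => by
    have : μ * (u * v) = ρ * ((u * e) * (v * e)) := by
      rw [hμ]
      ring
    rw [this, re_ofReal_mul, mul_re]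
  have b0 : (s * ρ) ^ 2 = s ^ 2 * R := by rw [mul_pow, hR]
  have b1 : s ^ 2 * R ≤ s ^ 2 := mul_le_of_le_one_right (sq_nonneg s) h0
  have p := q_nonneg (σ := s * ρ) (S := s ^ 2) (b0 ▸ b1.trans_lt h1) (b0 ▸ b1) h1.le m1 m2
    (b0 ▸ hg) (y * e).re (k * e).re (V * e).re
  have b2 : (-(s * ρ)) ^ 2 = s ^ 2 * R := by rw [neg_sq, b0]
  have q := q_nonneg (σ := -(s * ρ)) (S := s ^ 2) (b2 ▸ b1.trans_lt h1) (b2 ▸ b1) h1.le m1 m2
    (b2 ▸ hg) (y * e).im (k * e).im (V * e).im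
  rw [b0] at p
  rw [b2] at q
  refine (add_nonneg p q).trans_eq ?_
  simp only [F, a1, a2]
  ring

/-- the certificate in real coordinates -/
lemma key {s R g u v l1 lI p1 pI a1 aI c1 d1 cI dI k1 k2 : ℝ} (hR : u ^ 2 + v ^ 2 = R)
    (j1 : a1 - pI = -s * (l1 * u + lI * v)) (j2 : p1 + aI = -s * (l1 * v - lI * u))
    (j3 : c1 + dI = -s * l1) (j4 : d1 - cI = -s * lI)
    (n1 : l1 * (1 + R) = a1 + u * c1 + v * d1) (n2 : lI * (1 + R) = aI + u * cI + v * dI)
    (r1 rI w1 wI N : ℝ) (e1 : r1 = u * c1 + v * d1 - R * a1) (e2 : rI = u * cI + v * dI - R * aI)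
    (e3 : w1 = u * d1 - v * c1 - R * p1) (e4 : wI = u * dI - v * cI - R * pI)
    (e5 : N = ((c1 - (u * a1 - v * p1)) + (dI - (u * pI + v * aI))) * k1 -
      ((d1 - (u * p1 + v * a1)) - (cI - (u * aI - v * pI))) * k2 -
      2 * (u * (k1 ^ 2 - k2 ^ 2) - v * (2 * k1 * k2))) :
    ((l1 - 2 * k1) * pI - (lI + 2 * k2) * p1) + (1 - s ^ 2 / 8) * (k1 * k1 + k2 * k2) -
      g / 2 * (2 * r1 * pI - 2 * rI * p1) - g / (2 * (1 + R)) * (2 * r1 * wI - 2 * rI * w1) +
      ((1 - R) * g - 1) / (2 * (1 + R)) * (2 * r1 * k1 - 2 * rI * k2) - s / 4 * N =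
    F s R g (1 + (1 - R) * g) ⟨u, v⟩ ⟨l1 - k1, -lI - k2⟩ ⟨k1, k2⟩
      ⟨l1 + s * (l1 * u + lI * v) - pI, -lI + s * (lI * u - l1 * v) - p1⟩ := by
  have h0 : 1 + R ≠ 0 := by rw [← hR]; positivity
  have f1 : r1 = (1 + R) * (l1 + s * (l1 * u + lI * v) - pI) := by
    rw [e1]; linear_combination (-1 : ℝ) * n1 - (1 + R) * j1
  have f2 : rI = -((1 + R) * (-lI + s * (lI * u - l1 * v) - p1)) := by
    rw [e2]; linear_combination (-1 : ℝ) * n2 - (1 + R) * j2
  have f3 : w1 = -2 * s * (lI * u - l1 * v) + (1 - R) * p1 + (1 + R) * lI := by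
    rw [e3]; linear_combination u * j4 - v * j3 - n2 - j2
  have f4 : wI = -2 * s * (l1 * u + lI * v) + (1 - R) * pI - (1 + R) * l1 := by
    rw [e4]; linear_combination u * j3 + v * j4 + n1 + j1
  have f5 : N = (-s * l1 * (1 - R) - 2 * (u * pI - v * p1)) * k1 -
      (-s * lI * (1 - R) - 2 * (u * p1 + v * pI)) * k2 -
      2 * (u * (k1 ^ 2 - k2 ^ 2) - v * (2 * k1 * k2)) := by
    rw [e5]
    linear_combination k1 * j3 - k2 * j4 - (u * k1 - v * k2) * j1 - (v * k1 + u * k2) * j2 +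
      (s * l1 * k1 - s * lI * k2) * hR
  have g1 : g / (2 * (1 + R)) * (2 * r1 * wI - 2 * rI * w1) =
      g * ((l1 + s * (l1 * u + lI * v) - pI) * wI + (-lI + s * (lI * u - l1 * v) - p1) * w1) := by
    rw [f1, f2]; field_simp; ring
  have g2 : ((1 - R) * g - 1) / (2 * (1 + R)) * (2 * r1 * k1 - 2 * rI * k2) = ((1 - R) * g - 1) *
      ((l1 + s * (l1 * u + lI * v) - pI) * k1 + (-lI + s * (lI * u - l1 * v) - p1) * k2) := by
    rw [f1, f2]; field_simp; ring
  rw [g1, g2, f1, f2, f3, f4, f5]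
  simp only [F, mul_re, mul_im, conj_re, conj_im]
  subst hR
  ring

end CertA

open CertA in
theorem cert : CertS := by
  intro s z a c A C s0 s1 hz ha hc hj
  have ha' : 0 < ‖a‖ := norm_pos_iff.2 ha
  have hca : conj a ≠ 0 := (map_ne_zero _).2 ha
  have hcz : conj z ≠ 0 := (map_ne_zero _).2 hz
  obtain ⟨μ, hμ⟩ : ∃ μ, μ = conj c / a := ⟨_, rfl⟩
  have hn : ‖μ‖ ≤ 1 := by
    rw [hμ, norm_div, Complex.norm_conj]
    exact (div_le_one ha').2 hc
  have hR : ‖μ‖ ^ 2 ≤ 1 := pow_le_one₀ (norm_nonneg _) hn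
  have hs : s ^ 2 < 1 := by nlinarith
  have hp : 0 < 1 - s ^ 2 * ‖μ‖ ^ 2 :=
    sub_pos.2 ((mul_le_of_le_one_right (sq_nonneg s) hR).trans_lt hs)
  have hg : (1 - s ^ 2 * ‖μ‖ ^ 2)⁻¹ * (1 - s ^ 2 * ‖μ‖ ^ 2) = 1 := inv_mul_cancel₀ hp.ne'
  have m1 : 1 ≤ 1 + (1 - ‖μ‖ ^ 2) * (1 - s ^ 2 * ‖μ‖ ^ 2)⁻¹ :=
    le_add_of_nonneg_right (mul_nonneg (sub_nonneg.2 hR) (inv_pos.2 hp).le)
  have m2 : 1 + (1 - ‖μ‖ ^ 2) * (1 - s ^ 2 * ‖μ‖ ^ 2)⁻¹ ≤ 2 := by
    have : (1 - ‖μ‖ ^ 2) * (1 - s ^ 2 * ‖μ‖ ^ 2)⁻¹ ≤ 1 := by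
      rw [← div_eq_mul_inv, div_le_one hp]
      nlinarith [mul_le_of_le_one_left (sq_nonneg ‖μ‖) hs.le]
    linarith
  have hl : ∀ X, dlg a c A C X * (1 + ‖μ‖ ^ 2) = (A X / a + conj μ * (conj (C X) / a)).re := by
    intro X
    have e1 : conj a * A X = (‖a‖ ^ 2 : ℝ) * (A X / a) := by
      rw [ofReal_pow, ← conj_mul']
      field_simp
    have e2 : conj (conj c * C X) = (‖a‖ ^ 2 : ℝ) * (conj μ * (conj (C X) / a)) := by
      rw [ofReal_pow, ← conj_mul', hμ, map_mul, map_div₀]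
      field_simp
    have e3 : ‖c‖ ^ 2 = ‖a‖ ^ 2 * ‖μ‖ ^ 2 := by
      rw [hμ, norm_div, Complex.norm_conj]
      field_simp
    rw [dlg, add_re, ← conj_re (conj c * C X), e1, e2, e3, re_ofReal_mul, re_ofReal_mul, add_re]
    field_simp
  have j1 : A 1 / a + I * (A I / a) = -s * (dlg a c A C 1 - I * dlg a c A C I) * μ := by
    rw [hμ, ← mul_div_assoc, ← mul_div_assoc, ← add_div, hj.1]
  have j2 : conj (C 1) / a - I * (conj (C I) / a) =
      -s * (dlg a c A C 1 + I * dlg a c A C I) := by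
    have h := congrArg conj hj.2
    simp only [map_add, map_mul, map_neg, map_sub, conj_I, conj_ofReal, conj_conj] at h
    rw [← mul_div_assoc, ← sub_div, div_eq_iff ha]
    linear_combination h
  obtain ⟨k, hk⟩ : ∃ k, k = z⁻¹ := ⟨_, rfl⟩
  have k1 : (1 : ℂ) / z = k := by rw [hk, one_div]
  have k2 : I / z = I * k := by rw [hk, div_eq_mul_inv]
  obtain ⟨κ, hκ⟩ : ∃ κ, κ = conj z / z := ⟨_, rfl⟩
  have k3 : κ * conj k = k := by
    rw [hκ, hk, map_inv₀]
    field_simp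
  have n1 := hl 1
  have n2 := hl I
  have hR' : μ.re ^ 2 + μ.im ^ 2 = ‖μ‖ ^ 2 := by
    rw [Complex.sq_norm, normSq_apply]
    ring
  simp only [Qv, wd, dm, k1, k2, ← hμ, ← hκ]
  generalize A 1 / a = α1 at *
  generalize A I / a = αI at *
  generalize conj (C 1) / a = γ1 at *
  generalize conj (C I) / a = γI at *
  generalize dlg a c A C 1 = l1 at *
  generalize dlg a c A C I = lI at *
  have j1r := congrArg re j1
  have j1i := congrArg im j1
  have j2r := congrArg re j2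
  have j2i := congrArg im j2
  have k3r := congrArg re k3
  have k3i := congrArg im k3
  simp only [add_re, add_im, sub_re, sub_im, mul_re, mul_im, neg_re, neg_im, ofReal_re, ofReal_im,
    I_re, I_im, conj_re, conj_im] at j1r j1i j2r j2i k3r k3i n1 n2
  have h := key (s := s) (g := (1 - s ^ 2 * ‖μ‖ ^ 2)⁻¹) (l1 := l1) (lI := lI) (p1 := α1.im)
    (pI := αI.im) (a1 := α1.re) (aI := αI.re) (c1 := γ1.re) (d1 := γ1.im) (cI := γI.re)
    (dI := γI.im) (k1 := k.re) (k2 := k.im) hR' (by linarith) (by linarith) (by linarith)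
    (by linarith) (by linarith) (by linarith)
    (conj μ * (γ1 - μ * α1)).re (conj μ * (γI - μ * αI)).re (conj μ * (γ1 - μ * α1)).im
    (conj μ * (γI - μ * αI)).im
    (((γ1 - μ * α1 - 2 * I * μ * k.im) * κ).re * (I * k).im -
        ((γI - μ * αI - 2 * I * μ * (I * k).im) * κ).re * k.im -
      (((γ1 - μ * α1 - 2 * I * μ * k.im) * κ).im * (I * k).re -
        ((γI - μ * αI - 2 * I * μ * (I * k).im) * κ).im * k.re))
    (by rw [← hR']; simp; ring) (by rw [← hR']; simp; ring) (by rw [← hR']; simp; ring)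
    (by rw [← hR']; simp; ring) (by
      simp
      linear_combination
        (γ1.re - (μ.re * α1.re - μ.im * α1.im) + (γI.im - (μ.re * αI.im + μ.im * αI.re)) -
          2 * (μ.re * k.re - μ.im * k.im)) * k3r -
        (γ1.im - (μ.re * α1.im + μ.im * α1.re) - (γI.re - (μ.re * αI.re - μ.im * αI.im)) -
          2 * (μ.re * k.im + μ.im * k.re)) * k3i)
  refine ((F_nonneg rfl hR hs m1 m2 hg _ _ _).trans_eq h.symm).trans_eq ?_
  simp only [mul_re, mul_im, I_re, I_im]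
  ring

end Pool.Agent.MP_815c6c_an.L

end
end MrgPart1

-- ======== part 2: formerly Pool.Agent.MP_815c6c_an.L.Log
section MrgPart2

/-! Planar p-harmonic maps: the two logarithms. -/

set_option autoImplicit false

noncomputable section

namespace Pool.Agent.MP_815c6c_an.L

open Set Metric MeasureTheory Filter Topology Complex
open scoped ContDiff ComplexConjugate
open Q

namespace LogA

theorem ps0 (x : ℝ) (h : x ≤ 1) : Ps x = 0 := by
  rw [Ps, Real.smoothTransition.zero_of_nonpos (by linarith), zero_mul]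

theorem ps2 (x : ℝ) (h : 2 ≤ x) : Ps x = Real.log x := by
  rw [Ps, Real.smoothTransition.one_of_one_le (by linarith), one_mul]

theorem ev0 {x : ℝ} (h : x < 1) : Ps =ᶠ[𝓝 x] fun _ => 0 :=
  (eventually_lt_nhds h).mono fun y hy => ps0 y hy.le

theorem smooth : ContDiff ℝ ∞ Ps := contDiff_iff_contDiffAt.2 fun x => by
  rcases lt_or_ge x 1 with h | h
  · exact contDiffAt_const.congr_of_eventuallyEq (ev0 h)
  · exact (Real.smoothTransition.contDiff.comp (contDiff_id.sub contDiff_const)).contDiffAt.mul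
      (Real.contDiffAt_log.2 (by linarith))

theorem th0 {x : ℝ} (h : 0 ≤ x) : 0 ≤ th x := by rw [th]; positivity

theorem th3 {x : ℝ} (h : 1 ≤ x) : 1 ≤ 3 * th x := by
  have : √(1 + x ^ 2) ≤ 2 * x := Real.sqrt_le_iff.2 ⟨by linarith, by nlinarith⟩
  rw [th, mul_div_assoc', le_div_iff₀ (by positivity)]
  linarith

theorem bdd : ∃ B : ℝ, 0 ≤ B ∧ ∀ x, 0 ≤ x → (x * deriv Ps x) ^ 2 ≤ B * th x := by
  obtain ⟨B, hB⟩ := (isCompact_Icc (a := (1 : ℝ)) (b := 2)).bddAbove_image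
    (f := fun x => (x * deriv Ps x) ^ 2)
    ((continuous_id.mul (smooth.continuous_deriv (by simp))).pow 2).continuousOn
  refine ⟨3 * max B 1, by positivity, fun x hx => ?_⟩
  rcases lt_or_ge x 1 with h | h
  · rw [(ev0 h).deriv_eq, deriv_const, mul_zero, zero_pow two_ne_zero]
    have := th0 hx
    positivity
  have k : (x * deriv Ps x) ^ 2 ≤ max B 1 := by
    rcases le_or_gt x 2 with h2 | h2
    · exact (hB (mem_image_of_mem _ ⟨h, h2⟩)).trans (le_max_left _ _)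
    · have e : Ps =ᶠ[𝓝 x] Real.log := (eventually_gt_nhds h2).mono fun y hy => ps2 y hy.le
      rw [e.deriv_eq, Real.deriv_log, mul_inv_cancel₀ (by linarith), one_pow]
      exact le_max_right _ _
  have := mul_le_mul_of_nonneg_left (th3 h) (le_max_of_le_right zero_le_one : 0 ≤ max B 1)
  linarith

variable {n : ℕ}

theorem dE (w : Cn n) : HasFDerivAt (fun w : Cn n => ‖w‖ ^ 2) (2 • innerSL ℝ w) w :=
  (hasStrictFDerivAt_norm_sq w).hasFDerivAt

theorem dP (y : ℝ) (w V : Cn n) : fderiv ℝ (fun w : Cn n => Ps (y * ‖w‖ ^ 2)) w V =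
    deriv Ps (y * ‖w‖ ^ 2) * (y * (2 * inner ℝ w V)) := by
  have := ((smooth.differentiable (by simp) (y * ‖w‖ ^ 2)).hasDerivAt.comp_hasFDerivAt w
    ((dE w).const_mul y)).fderiv
  rw [show (fun w : Cn n => Ps (y * ‖w‖ ^ 2)) = Ps ∘ fun w => y * ‖w‖ ^ 2 from rfl, this]
  simp

theorem dJ (w V : Cn n) : fderiv ℝ J2 w V =
    4 * ‖w‖ ^ 2 * inner ℝ w V - 4 * (conj (bil w w) * bil w V).re := by
  have e : (J2 : Cn n → ℝ) = fun w => (‖w‖ ^ 2) ^ 2 - ‖bil w w‖ ^ 2 := by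
    ext w; rw [J2]; ring
  have := (((dE w).pow 2).fun_sub
    (hasFDerivAt_bil (hasFDerivAt_id w) (hasFDerivAt_id w)).norm_sq).fderiv
  rw [e]
  refine (congrArg (· V) this).trans ?_
  simp [bil_comm V w, Complex.inner]
  ring

theorem pos (y : ℝ) (w : Cn n) : 0 < 1 + y ^ 2 * J2 w := by
  have := J2_nonneg w
  positivity

theorem dL (y : ℝ) (w V : Cn n) : fderiv ℝ (fun w : Cn n => Real.log (1 + y ^ 2 * J2 w)) w V =
    (1 + y ^ 2 * J2 w)⁻¹ * (y ^ 2 * fderiv ℝ J2 w V) := by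
  rw [((((contDiff_J2.differentiable (by simp) w).hasFDerivAt.const_mul (y ^ 2)).const_add 1).log
    (pos y w).ne').fderiv]
  simp

/-- the differential of `J2` along a jet -/
theorem dJN {s : ℝ} {w : Cn n} {N : L (Cn n)} (h : w ≠ 0) (ho : Op s w N = 0) (X : ℂ) :
    fderiv ℝ J2 w (N X) = 4 * (‖w‖ ^ 2) ^ 2 * (X * (2 * lz w N * C2 w - conj (ph w) * et w N +
      s * conj (lz w N) * ph w * C2 w)).re := by
  have h0 : ((‖w‖ ^ 2 : ℝ) : ℂ) ≠ 0 := ofReal_ne_zero.2 (pow_ne_zero 2 (norm_pos_iff.2 h).ne')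
  have b : bil (zd N) w = (et w N + pp w N * ph w) * (‖w‖ ^ 2 : ℝ) := by
    rw [et, sub_add_cancel, div_mul_cancel₀ _ h0]
  have c : bil w w = ph w * (‖w‖ ^ 2 : ℝ) := by rw [ph, div_mul_cancel₀ _ h0]
  rw [dJ, inner_ap w N h, ap_eq N X, bil_add_right, bil_smul_right, bil_smul_right, zb_eq w N ho,
    bil_smul_right, bil_cj_self, bil_comm w (zd N), b, c, pp_eq w N h ho, C2_eq w h,
    Complex.sq_norm (ph w), normSq_apply]
  generalize ‖w‖ ^ 2 = E
  generalize lz w N = l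
  generalize et w N = e
  generalize ph w = f
  simp
  ring

theorem bJ {s : ℝ} {w : Cn n} {N : L (Cn n)} (hs : |s| ≤ 1) (h : w ≠ 0) (ho : Op s w N = 0)
    (X : ℂ) : |fderiv ℝ J2 w (N X)| ≤
      4 * (‖w‖ ^ 2) ^ 2 * (3 * C2 w * ‖lz w N‖ + ‖et w N‖) * ‖X‖ := by
  have c0 := C2_nonneg w
  have p1 : ‖ph w‖ ≤ 1 := by
    have := C2_eq w h
    nlinarith [norm_nonneg (ph w)]
  have k : ‖2 * lz w N * C2 w - conj (ph w) * et w N + s * conj (lz w N) * ph w * C2 w‖ ≤
      3 * C2 w * ‖lz w N‖ + ‖et w N‖ := by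
    refine (norm_add_le _ _).trans ((add_le_add (norm_sub_le _ _) le_rfl).trans ?_)
    simp only [norm_mul, Complex.norm_conj, Complex.norm_real, Real.norm_eq_abs, abs_of_nonneg c0,
      Complex.norm_ofNat]
    have a : ‖ph w‖ * ‖et w N‖ ≤ 1 * ‖et w N‖ := by gcongr
    have b : |s| * ‖lz w N‖ * ‖ph w‖ * C2 w ≤ 1 * ‖lz w N‖ * 1 * C2 w := by gcongr
    linarith
  rw [dJN h ho, abs_mul, abs_of_nonneg (by positivity), mul_assoc _ _ ‖X‖]
  gcongr
  refine (abs_re_le_norm _).trans ?_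
  rw [norm_mul, mul_comm]
  gcongr

theorem alg {x C a l e Z : ℝ} (hC : 0 ≤ C) (ha : 1 ≤ a) (h : a ^ 2 = 1 + x ^ 2 * C)
    (hZ : 0 ≤ Z) (he : e ^ 2 = C * Z) :
    ((a ^ 2)⁻¹ * (4 * x ^ 2 * (3 * C * l + e))) ^ 2 ≤
      288 * (x ^ 2 * ((a * (1 + a))⁻¹ * Z) + l ^ 2) := by
  have a0 : 0 < a := by linarith
  set t := (a ^ 2)⁻¹ with ht
  have t0 : 0 ≤ t := by positivity
  have r0 : 0 ≤ t * (x ^ 2 * C) := by positivity
  have r1 : t * (x ^ 2 * C) ≤ 1 := by
    rw [ht, inv_mul_le_iff₀ (by positivity)]; linarith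
  have u1 : t ≤ 2 * (a * (1 + a))⁻¹ := by
    rw [ht, ← div_eq_mul_inv, inv_eq_one_div, div_le_div_iff₀ (by positivity) (by positivity)]
    nlinarith
  have b1 : (t * (x ^ 2 * C) * l) ^ 2 ≤ l ^ 2 := by
    rw [mul_pow]
    exact mul_le_of_le_one_left (sq_nonneg _) (pow_le_one₀ r0 r1)
  have b2 : (t * x ^ 2 * e) ^ 2 ≤ 1 * (x ^ 2 * (2 * (a * (1 + a))⁻¹ * Z)) := by
    rw [show (t * x ^ 2 * e) ^ 2 = t * (x ^ 2 * C) * (x ^ 2 * (t * Z)) by
      rw [mul_pow, he]; ring]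
    gcongr
  have b3 : 0 ≤ x ^ 2 * ((a * (1 + a))⁻¹ * Z) := by positivity
  nlinarith [sq_nonneg (12 * (t * (x ^ 2 * C) * l) - 4 * (t * x ^ 2 * e))]

end LogA

open LogA in
theorem logS : LogS := by
  obtain ⟨B, B0, hB⟩ := bdd
  refine ⟨16 * B + 288, by positivity, smooth, ps0, ps2, fun n y hy =>
    ⟨(contDiff_const.add (contDiff_const.mul contDiff_J2)).log fun w => (pos y w).ne',
      fun s w N hs h ho => ⟨?_, ?_⟩⟩⟩
  · have k : ‖(fderiv ℝ (fun w : Cn n => Ps (y * ‖w‖ ^ 2)) w).comp N‖ ≤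
        4 * |y * ‖w‖ ^ 2 * deriv Ps (y * ‖w‖ ^ 2)| * ‖lz w N‖ := by
      refine ContinuousLinearMap.opNorm_le_bound _ (by positivity) fun X => ?_
      rw [ContinuousLinearMap.comp_apply, dP, inner_ap w N h, Real.norm_eq_abs,
        show ∀ D R : ℝ, D * (y * (2 * (2 * ‖w‖ ^ 2 * R))) = 4 * (y * ‖w‖ ^ 2 * D * R) from
          fun D R => by ring, abs_mul, abs_mul _ (_ : ℂ).re, Nat.abs_ofNat, mul_assoc, mul_assoc 4,
        mul_assoc 4, mul_assoc _ _ ‖X‖, ← norm_mul]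
      gcongr
      exact abs_re_le_norm _
    have k2 := pow_le_pow_left₀ (norm_nonneg _) k 2
    rw [mul_pow, mul_pow, sq_abs] at k2
    have k3 := mul_le_mul_of_nonneg_right (hB (y * ‖w‖ ^ 2) (by positivity)) (sq_nonneg ‖lz w N‖)
    have k4 := mul_nonneg (th0 (x := y * ‖w‖ ^ 2) (by positivity)) (sq_nonneg ‖lz w N‖)
    nlinarith
  · have c0 := C2_nonneg w
    have k : ‖(fderiv ℝ (fun w : Cn n => Real.log (1 + y ^ 2 * J2 w)) w).comp N‖ ≤
        (ra y w ^ 2)⁻¹ * (4 * (y * ‖w‖ ^ 2) ^ 2 * (3 * C2 w * ‖lz w N‖ + ‖et w N‖)) := by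
      refine ContinuousLinearMap.opNorm_le_bound _ (by positivity) fun X => ?_
      rw [ContinuousLinearMap.comp_apply, dL, ← ra_sq, Real.norm_eq_abs, abs_mul, abs_mul,
        abs_of_nonneg (by positivity), abs_of_nonneg (sq_nonneg y), mul_assoc]
      refine mul_le_mul_of_nonneg_left
        ((mul_le_mul_of_nonneg_left (bJ hs h ho X) (sq_nonneg y)).trans_eq ?_) (by positivity)
      ring
    have z0 : 0 ≤ Z2 w N := div_nonneg (sq_nonneg _) c0
    have ez : ‖et w N‖ ^ 2 = C2 w * Z2 w N := by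
      rcases eq_or_ne (C2 w) 0 with c | c
      · simp [et_zero w N h c, c]
      · rw [Z2, mul_div_cancel₀ _ c]
    have k2 := (pow_le_pow_left₀ (norm_nonneg _) k 2).trans
      (alg c0 (one_le_ra w y) (by rw [ra_sq, J2_eq w h]; ring) z0 ez)
    have a0 : 0 ≤ ra y w := Real.sqrt_nonneg _
    have b0 : 0 ≤ rb y w := Real.sqrt_nonneg _
    have k3 : 0 ≤ (y * ‖w‖ ^ 2) ^ 2 * (vv y w * ‖lz w N‖ ^ 2) := by rw [vv]; positivity
    have k4 : 0 ≤ B * ((y * ‖w‖ ^ 2) ^ 2 * X2 y w N + ‖lz w N‖ ^ 2) := by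
      rw [X2, uu, vv]; positivity
    rw [← uu] at k2
    rw [X2] at k4 ⊢
    nlinarith

end Pool.Agent.MP_815c6c_an.L

end
end MrgPart2

-- ======== part 3: formerly Pool.Agent.MP_815c6c_an.L.Pl
section MrgPart3

/-! Planar p-harmonic maps: rigid solutions have no zero and take values in a plane. -/

set_option autoImplicit false

noncomputable section

namespace Pool.Agent.MP_815c6c_an.L

open Set Metric MeasureTheory Filter Topology Complex
open scoped ContDiff ComplexConjugate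
open Q

namespace PlA

variable {n : ℕ} {G : ℂ → Cn n} {z : ℂ}

theorem fd (h : ContDiffAt ℝ 1 G z) (e : Cn n) (X : ℂ) :
    fderiv ℝ (fun x => bil (G x) e) z X = bil (fderiv ℝ G z X) e :=
  congrArg (fun A : L ℂ => A X)
    ((bilL.flip e).hasFDerivAt.comp z (h.differentiableAt one_ne_zero).hasFDerivAt).fderiv

theorem nb (h : ContDiffAt ℝ 1 G z) (e : Cn n) :
    ‖fderiv ℝ (fun x => bil (G x) e) z‖ ≤ ‖e‖ * ‖fderiv ℝ G z‖ :=
  ContinuousLinearMap.opNorm_le_bound _ (by positivity) fun X => by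
    rw [fd h]
    refine (norm_bil_le _ _).trans ?_
    rw [mul_comm, mul_assoc]
    exact mul_le_mul_of_nonneg_left ((fderiv ℝ G z).le_opNorm X) (norm_nonneg _)

theorem cd (h : ∀ z ≠ 0, ContDiffAt ℝ 1 G z) (e : Cn n) :
    ContDiffOn ℝ 1 (fun x => bil (G x) e) {0}ᶜ := fun z hz =>
  ((bilL.flip e).contDiff.contDiffAt.comp z (h z hz)).contDiffWithinAt

end PlA

theorem zf : Kit → ∀ n s, Mas n s → CirS n s → ZerS n s → ZfS n s := by
  intro k n s m cir zer G hG hR h1 x₀ hx₀ h0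
  have hc : Continuous G := continuousOn_univ.1 hG.1
  obtain ⟨x, x0, hx, hr⟩ := k.con.1 {z | G z = 0}
    (fun x _ h => hc.continuousAt.eventually_ne h) ⟨x₀, hx₀, h0⟩ h1
  obtain ⟨x', b, g⟩ := hr ‖x‖ (norm_pos_iff.2 x0)
  obtain ⟨η, t, d, o⟩ := cir G x x' ‖x‖ hG b (fun e => g (e ▸ hx)) g
  obtain ⟨C, hC⟩ := hR η ⟨t.1, t.2.1, t.2.2.trans fun z hz e => by
    rw [mem_singleton_iff.1 e, mem_ball, dist_zero_left] at hz
    exact lt_irrefl _ hz⟩ d
  refine zer G x η hG hx ⟨t.1, t.2.1, subset_univ _⟩ o (squeeze_zero' ?_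
    ((eventually_ge_atTop 1).mono hC) (tendsto_const_nhds.div_atTop tendsto_id))
  exact (eventually_gt_atTop 0).mono fun y hy =>
    integral_nonneg fun z => mul_nonneg (sq_nonneg _) (m.low G hG y z hy).1

open PlA in
theorem pl : Kit → PlaS → ∀ n s, Shell n s → NfS n s → PjS n s → PlS n s := by
  intro k pla n s sh nf pjs G hG hR h0
  have hc : Continuous G := continuousOn_univ.1 hG.1
  have h1 := fun z hz => sh.s1 univ G isOpen_univ hG z (mem_univ _) (h0 z hz)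
  obtain ⟨e, e1, e2, e3⟩ := (pla n).1 (G 1) (h0 1 one_ne_zero)
  have nf := nf G hG hR h0
  have P := fun z hz => (pla n).2 s e (G z) (fderiv ℝ G z) _ _ (h0 z hz)
    (pjs G e hG hR h0 nf e1 z hz) (h1 z hz).2 (fd (h1 z hz).1 e) (fd (h1 z hz).1 (cj e))
  have ca : Continuous fun z => ‖bil (G z) e‖ := by fun_prop
  have cc : Continuous fun z => ‖bil (G z) (cj e)‖ := by fun_prop
  have key : ∀ z ≠ 0, cj e = e ∨ ‖bil (G z) (cj e)‖ < ‖bil (G z) e‖ := fun z hz => by
    refine nf.elim (fun h => Or.inr (not_le.1 fun l => ?_)) fun h => Or.inl (e2 (h 1 one_ne_zero))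
    obtain ⟨x, x0, hx, hr⟩ := k.con.1 {z | ‖bil (G z) e‖ ≤ ‖bil (G z) (cj e)‖}
      (fun x _ h => (cc.continuousAt.eventually_lt ca.continuousAt (not_le.1 h)).mono
        fun _ => not_le.2) ⟨z, hz, l⟩ ⟨1, one_ne_zero, not_le.2 (e3 (h 1 one_ne_zero))⟩
    have lt : ‖bil (G x) e‖ < ‖bil (G x) (cj e)‖ := lt_of_le_of_ne hx fun q =>
      h x x0 (by rw [← (P x x0).2.1, q, sub_self, zero_pow two_ne_zero])
    obtain ⟨r, r0, q⟩ := Metric.eventually_nhds_iff_ball.1
      (ca.continuousAt.eventually_lt cc.continuousAt lt)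
    obtain ⟨w, a, b⟩ := hr r r0
    exact b (q w a).le
  have le : ∀ z ≠ 0, ‖bil (G z) (cj e)‖ ≤ ‖bil (G z) e‖ := fun z hz =>
    (key z hz).elim (fun q => by rw [q]) le_of_lt
  refine ⟨fun z => bil (G z) e, fun z => bil (G z) (cj e), 2 * ‖e‖ + 1, by positivity,
    ⟨cd (fun z hz => (h1 z hz).1) _, cd (fun z hz => (h1 z hz).1) _, fun z hz q => ?_, le,
      fun z hz => (P z hz).2.2.1⟩, fun z hz => ⟨(P z hz).1, ?_, (P z hz).2.2.2 (key z hz)⟩⟩
  · have a := (P z hz).1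
    have b := le z hz
    rw [q, norm_zero] at a b
    rw [le_antisymm b (norm_nonneg _)] at a
    exact pow_ne_zero 2 (norm_pos_iff.2 (h0 z hz)).ne' (by rw [← a]; norm_num)
  · have a := nb (h1 z hz).1 e
    have b := nb (h1 z hz).1 (cj e)
    rw [norm_cj] at b
    have := norm_nonneg (fderiv ℝ G z)
    linarith

end Pool.Agent.MP_815c6c_an.L

end
end MrgPart3

-- ======== part 4: formerly Pool.Agent.MP_815c6c_an.L.Pol
section MrgPart4

/-! Planar p-harmonic maps: lower bounds for the energy in polar coordinates. -/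

set_option autoImplicit false

noncomputable section

namespace Pool.Agent.MP_815c6c_an.L

open Set Metric MeasureTheory Filter Topology Complex
open scoped ContDiff ComplexConjugate Real
open Q

namespace PolA

/-- the oscillation along a path -/
theorem one {w : ℂ → ℝ} {U : Set ℂ} (hw : ContDiffOn ℝ 1 w U) (hU : IsOpen U) {γ γ' : ℝ → ℂ}
    (hγ : ∀ t, HasDerivAt γ (γ' t) t) (hc' : Continuous γ') {c d : ℝ}
    (hin : ∀ t ∈ Icc c d, γ t ∈ U) {m : ℝ → ℝ} (hm : Continuous m)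
    (hm0 : ∀ t ∈ Icc c d, 0 < m t) {M Δ y y' : ℝ} (hM0 : 0 < M)
    (hM : ∫ t in c..d, ‖γ' t‖ ^ 2 / m t ≤ M) (hy : y ∈ Icc c d) (hy' : y' ∈ Icc c d)
    (hΔ0 : 0 ≤ Δ) (hΔ : Δ ≤ |w (γ y) - w (γ y')|) :
    Δ ^ 2 / M ≤ ∫ t in c..d, m t * ‖fderiv ℝ w (γ t)‖ ^ 2 := by
  have hcd : c ≤ d := hy.1.trans hy.2
  have cl : Continuous γ := continuous_iff_continuousAt.2 fun t => (hγ t).continuousAt
  have cf : ContinuousOn (fun t => fderiv ℝ w (γ t)) (Icc c d) :=
    (hw.continuousOn_fderiv_of_isOpen hU le_rfl).comp cl.continuousOn hin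
  have ck : ContinuousOn (fun t => ‖fderiv ℝ w (γ t)‖ * ‖γ' t‖) (Icc c d) :=
    cf.norm.mul hc'.norm.continuousOn
  have h1 : Δ ≤ ∫ t in c..d, ‖fderiv ℝ w (γ t)‖ * ‖γ' t‖ := by
    refine hΔ.trans ?_
    clear hΔ
    wlog hyy : y' ≤ y generalizing y y'
    · rw [abs_sub_comm]
      exact this hy' hy (le_of_not_ge hyy)
    have hs : Icc y' y ⊆ Icc c d := Icc_subset_Icc hy'.1 hy.2
    have e := intervalIntegral.integral_eq_sub_of_hasDerivAt (a := y') (b := y)
      (f := fun t => w (γ t)) (f' := fun t => fderiv ℝ w (γ t) (γ' t))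
      (fun t ht => ((hw.differentiableOn one_ne_zero).differentiableAt
        (hU.mem_nhds (hin t (hs (uIcc_of_le hyy ▸ ht))))).hasFDerivAt.comp_hasDerivAt t (hγ t))
      (((cf.clm_apply hc'.continuousOn).mono hs).intervalIntegrable_of_Icc hyy)
    rw [← e]
    exact (intervalIntegral.norm_integral_le_of_norm_le hyy (μ := volume)
      (f := fun t => fderiv ℝ w (γ t) (γ' t)) (.of_forall fun t _ => (fderiv ℝ w (γ t)).le_opNorm _)
      ((ck.mono hs).intervalIntegrable_of_Icc hyy)).trans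
      (intervalIntegral.integral_mono_interval hy'.1 hyy hy.2
        (.of_forall fun t => by positivity) (ck.intervalIntegrable_of_Icc hcd))
  have i1 : IntervalIntegrable (fun t => ‖γ' t‖ ^ 2 / m t) volume c d :=
    (((hc'.norm.pow 2).continuousOn).div hm.continuousOn
      fun t ht => (hm0 t ht).ne').intervalIntegrable_of_Icc hcd
  have i2 : IntervalIntegrable (fun t => m t * ‖fderiv ℝ w (γ t)‖ ^ 2) volume c d :=
    (hm.continuousOn.mul (cf.norm.pow 2)).intervalIntegrable_of_Icc hcd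
  have h2 : ∫ t in c..d, 2 * Δ * M * (‖fderiv ℝ w (γ t)‖ * ‖γ' t‖) ≤
      ∫ t in c..d, (Δ ^ 2 * (‖γ' t‖ ^ 2 / m t) + M ^ 2 * (m t * ‖fderiv ℝ w (γ t)‖ ^ 2)) := by
    refine intervalIntegral.integral_mono_on hcd ((ck.intervalIntegrable_of_Icc hcd).const_mul _)
      ((i1.const_mul _).add (i2.const_mul _)) fun t ht => ?_
    have h0 := hm0 t ht
    generalize ‖fderiv ℝ w (γ t)‖ = a, ‖γ' t‖ = b, m t = μ at *
    have e : Δ ^ 2 * (b ^ 2 / μ) + M ^ 2 * (μ * a ^ 2) - 2 * Δ * M * (a * b) =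
        (Δ * b - M * μ * a) ^ 2 / μ := by field_simp; ring
    have : 0 ≤ (Δ * b - M * μ * a) ^ 2 / μ := by positivity
    linarith
  rw [intervalIntegral.integral_add (i1.const_mul _) (i2.const_mul _),
    intervalIntegral.integral_const_mul, intervalIntegral.integral_const_mul,
    intervalIntegral.integral_const_mul] at h2
  rw [div_le_iff₀ hM0]
  have h3 := mul_le_mul_of_nonneg_left h1 (by positivity : 0 ≤ 2 * Δ * M)
  have h4 := mul_le_mul_of_nonneg_left hM (sq_nonneg Δ)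
  refine le_of_mul_le_mul_right ?_ hM0
  nlinarith

/-- polar coordinates about `x`, turned by `u` -/
def P (x : ℂ) (u : Circle) (r θ : ℝ) : ℂ := x + u * (r * exp (θ * I))

theorem P_norm (x : ℂ) (u : Circle) {r : ℝ} (hr : 0 ≤ r) (θ : ℝ) : ‖P x u r θ - x‖ = r := by
  simp [P, norm_exp_ofReal_mul_I, abs_of_nonneg hr]

theorem P_mem (x : ℂ) (u : Circle) {r R : ℝ} (hr : 0 ≤ r) (hR : r < R) (θ : ℝ) :
    P x u r θ ∈ ball x R := by
  rwa [mem_ball_iff_norm, P_norm x u hr]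

theorem P_cont (x : ℂ) (u : Circle) : Continuous fun p : ℝ × ℝ => P x u p.1 p.2 := by
  unfold P; fun_prop

theorem key {g : ℂ → ℝ} {x : ℂ} {R : ℝ} (hg0 : ∀ z, 0 ≤ g z) (hc : ContinuousOn g (ball x R))
    (hi : IntegrableOn g (ball x R)) (u : Circle) {a b α β : ℝ} (ha : 0 < a) (hb : b < R)
    (hα : -π ≤ α) (hβ : β ≤ π) :
    Integrable (fun p : ℝ × ℝ => p.1 * g (P x u p.1 p.2))
      ((volume.restrict (Ioc a b)).prod (volume.restrict (Ioo α β))) ∧
    ∫ p : ℝ × ℝ, p.1 * g (P x u p.1 p.2)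
      ∂(volume.restrict (Ioc a b)).prod (volume.restrict (Ioo α β)) ≤ ∫ z in ball x R, g z := by
  rw [Measure.prod_restrict, ← Measure.volume_eq_prod]
  have hK : MeasurableSet (Ioc a b ×ˢ Ioo α β) := measurableSet_Ioc.prod measurableSet_Ioo
  have i1 : IntegrableOn (fun p : ℝ × ℝ => p.1 * g (P x u p.1 p.2)) (Ioc a b ×ˢ Ioo α β) := by
    refine (ContinuousOn.integrableOn_compact (isCompact_Icc.prod isCompact_Icc) ?_).mono_set
      (prod_mono Ioc_subset_Icc_self Ioo_subset_Icc_self)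
    exact continuous_fst.continuousOn.mul (hc.comp (P_cont x u).continuousOn fun p hp =>
      P_mem x u (ha.le.trans hp.1.1) (hp.1.2.trans_lt hb) _)
  refine ⟨i1, ?_⟩
  rw [← ENNReal.ofReal_le_ofReal_iff (integral_nonneg hg0),
    ofReal_integral_eq_lintegral_ofReal hi (.of_forall hg0),
    ofReal_integral_eq_lintegral_ofReal i1 ((ae_restrict_iff' hK).2 (.of_forall fun p hp =>
      mul_nonneg (ha.le.trans hp.1.1.le) (hg0 _))),
    ← lintegral_indicator measurableSet_ball, ← lintegral_add_left_eq_self _ x,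
    ← (rotation u).measurePreserving.lintegral_comp_emb
      (rotation u).toHomeomorph.measurableEmbedding,
    ← Complex.lintegral_comp_polarCoord_symm]
  refine le_trans (le_of_eq (setLIntegral_congr_fun hK fun p hp => ?_))
    (lintegral_mono_set fun p hp => ⟨ha.trans hp.1.1, hα.trans_lt hp.2.1, hp.2.2.trans_le hβ⟩)
  have e : x + rotation u (Complex.polarCoord.symm p) = P x u p.1 p.2 := by
    rw [rotation_apply, Complex.polarCoord_symm_apply, P, exp_mul_I, ofReal_cos, ofReal_sin]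
  have h0 : 0 ≤ p.1 := ha.le.trans hp.1.1.le
  simp only [e, smul_eq_mul]
  rw [indicator_of_mem (P_mem x u h0 (hp.1.2.trans_lt hb) _), ENNReal.ofReal_mul h0]

theorem low1 {f : ℝ × ℝ → ℝ} {s t : Set ℝ} (hs : MeasurableSet s) (hs' : volume s ≠ ⊤)
    (hf : Integrable f ((volume.restrict s).prod (volume.restrict t))) {κ : ℝ}
    (h : ∀ r ∈ s, κ ≤ ∫ θ in t, f (r, θ)) :
    volume.real s * κ ≤ ∫ p, f p ∂(volume.restrict s).prod (volume.restrict t) := by
  rw [integral_prod f hf, ← smul_eq_mul, ← setIntegral_const]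
  exact setIntegral_mono_on (integrableOn_const hs') hf.integral_prod_left hs h

theorem low2 {f : ℝ × ℝ → ℝ} {s t : Set ℝ} (ht : MeasurableSet t) (ht' : volume t ≠ ⊤)
    (hf : Integrable f ((volume.restrict s).prod (volume.restrict t))) {κ : ℝ}
    (h : ∀ θ ∈ t, κ ≤ ∫ r in s, f (r, θ)) :
    volume.real t * κ ≤ ∫ p, f p ∂(volume.restrict s).prod (volume.restrict t) := by
  rw [integral_prod_symm f hf, ← smul_eq_mul, ← setIntegral_const]
  exact setIntegral_mono_on (integrableOn_const ht') hf.integral_prod_right ht h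

theorem dθ (x : ℂ) (u : Circle) (r θ : ℝ) :
    HasDerivAt (P x u r) (u * (r * (exp (θ * I) * I))) θ := by
  have := ((((hasDerivAt_id θ).ofReal_comp.mul_const I).cexp.const_mul (r : ℂ)).const_mul
    (u : ℂ)).const_add x
  exact this.congr_deriv (by simp)

theorem dr (x : ℂ) (u : Circle) (r θ : ℝ) :
    HasDerivAt (fun r => P x u r θ) (u * exp (θ * I)) r := by
  have := (((hasDerivAt_id r).ofReal_comp.mul_const (exp (θ * I))).const_mul
    (u : ℂ)).const_add x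
  exact this.congr_deriv (by simp)

end PolA

open PolA in
theorem pol : PolS := by
  intro x x' R τ hτ hx hR
  obtain ⟨d, hd⟩ : ∃ d, d = ‖x' - x‖ := ⟨_, rfl⟩
  have d0 : 0 < d := hd ▸ norm_pos_iff.2 (sub_ne_zero.2 hx)
  have dR : d < R := hd ▸ mem_ball_iff_norm.1 hR
  have R0 : 0 < R := d0.trans dR
  obtain ⟨u, hu⟩ : ∃ u : Circle, P x u d 0 = x' :=
    ⟨Circle.exp (arg (x' - x)), by
      rw [P, Circle.coe_exp, hd]
      simp only [ofReal_zero, zero_mul, exp_zero, mul_one]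
      rw [mul_comm, norm_mul_exp_arg_mul_I, add_sub_cancel]⟩
  obtain ⟨ε₁, e0, he⟩ := Metric.continuous_iff.1 (P_cont x u) (d, 0) τ hτ
  obtain ⟨ε, ε0, ε1, ε2, ε3⟩ : ∃ ε : ℝ, 0 < ε ∧ ε < ε₁ ∧ ε < d ∧ ε ≤ 1 :=
    ⟨min (min (ε₁ / 2) (d / 2)) 1, by positivity,
      (min_le_left _ _).trans_lt ((min_le_left _ _).trans_lt (by linarith)),
      (min_le_left _ _).trans_lt ((min_le_right _ _).trans_lt (by linarith)), min_le_right _ _⟩
  have near : ∀ r θ, |r - d| ≤ ε → |θ| ≤ ε → P x u r θ ∈ ball x' τ := fun r θ h1 h2 => by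
    have := he (r, θ) (by
      rw [Prod.dist_eq, Real.dist_eq, Real.dist_eq, sub_zero]
      exact (max_le h1 h2).trans_lt ε1)
    rwa [hu] at this
  have p3 := Real.pi_gt_three
  refine ⟨min ε (ε / (2 * π * R)), by positivity, fun w A Δ hw hi hΔ hA => ?_⟩
  have hc : ContinuousOn (fun z => ‖fderiv ℝ w z‖ ^ 2) (ball x R) :=
    (hw.continuousOn_fderiv_of_isOpen isOpen_ball le_rfl).norm.pow 2
  refine ⟨fun H => ?_, fun ρ ρ0 ρ1 H => ?_⟩
  · obtain ⟨k1, k2⟩ := key (fun z => sq_nonneg _) hc hi u (a := d - ε) (b := d) (by linarith) dR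
      le_rfl le_rfl
    refine le_trans ?_ (le_trans (low1 measurableSet_Ioc (by simp) k1
      (κ := Δ ^ 2 / (2 * π * R)) fun r hr => ?_) k2)
    · rw [Real.volume_real_Ioc_of_le (by linarith), sub_sub_cancel, ← mul_div_assoc,
        ← div_mul_eq_mul_div]
      exact mul_le_mul_of_nonneg_right (min_le_right _ _) (sq_nonneg _)
    · have r0 : 0 < r := by linarith [hr.1]
      have rR : r < R := hr.2.trans_lt dR
      obtain ⟨z, hz, hzA⟩ := H r ⟨r0, rR⟩
      have ez : P x u r (arg ((z - x) / u)) = z := by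
        have n : ‖(z - x) / u‖ = r := by
          rw [norm_div, Circle.norm_coe, div_one]; exact mem_sphere_iff_norm.1 hz
        rw [P, ← n, norm_mul_exp_arg_mul_I, mul_div_cancel₀ _ u.coe_ne_zero, add_sub_cancel]
      rw [← integral_Ioc_eq_integral_Ioo, ← intervalIntegral.integral_of_le (by linarith)]
      refine one hw isOpen_ball (dθ x u r) (by fun_prop) (fun t _ => P_mem x u r0.le rR t)
        (m := fun _ => r) continuous_const (fun _ _ => r0) (y := 0) (y' := arg ((z - x) / u))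
        (by positivity) ?_ ⟨by linarith, by linarith⟩ ⟨(neg_pi_lt_arg _).le, arg_le_pi _⟩ hΔ ?_
      · have : ∀ t : ℝ, ‖(u : ℂ) * (r * (exp (t * I) * I))‖ ^ 2 / r = r := fun t => by
          simp only [norm_mul, Circle.norm_coe, norm_exp_ofReal_mul_I, norm_I, norm_real,
            Real.norm_of_nonneg r0.le, mul_one, one_mul]
          field_simp
        simp only [this, intervalIntegral.integral_const, smul_eq_mul]
        nlinarith
      · rw [ez]
        have := hA _ (near r 0 (abs_le.2 ⟨by linarith [hr.1], by linarith [hr.2]⟩)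
          (by simpa using ε0.le))
        exact le_trans (by linarith) (le_abs_self _)
  · rw [← hd] at ρ1
    have ρd : ρ ≤ d := by linarith
    have L0 : 0 < Real.log (R / ρ) := Real.log_pos ((one_lt_div ρ0).2 (by linarith))
    obtain ⟨k1, k2⟩ := key (fun z => sq_nonneg _) hc hi u (α := 0) (β := ε) ρ0 dR
      (by linarith) (by linarith)
    have := le_trans (low2 measurableSet_Ioo (by simp) k1
      (κ := Δ ^ 2 / Real.log (R / ρ)) fun θ hθ => ?_) k2
    · rw [Real.volume_real_Ioo_of_le ε0.le, sub_zero, ← mul_div_assoc, div_le_iff₀' L0] at this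
      exact le_trans (mul_le_mul_of_nonneg_right (min_le_left _ _) (sq_nonneg _)) this
    · rw [← intervalIntegral.integral_of_le ρd]
      refine one hw isOpen_ball (fun r => dr x u r θ) continuous_const
        (fun t ht => P_mem x u (ρ0.le.trans ht.1) (ht.2.trans_lt dR) θ) (m := fun r => r)
        continuous_id (fun t ht => ρ0.trans_le ht.1) (y := d) (y' := ρ) L0 ?_ ⟨ρd, le_rfl⟩
        ⟨le_rfl, ρd⟩ hΔ ?_
      · simp only [norm_mul, Circle.norm_coe, norm_exp_ofReal_mul_I, mul_one, one_pow]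
        rw [integral_one_div_of_pos ρ0 d0]
        exact Real.log_le_log (by positivity) (by gcongr)
      · have h1 := hA _ (near d θ (by simpa using ε0.le)
          (abs_le.2 ⟨by linarith [hθ.1], hθ.2.le⟩))
        have h2 := H _ (mem_sphere_iff_norm.2 (P_norm x u ρ0.le θ))
        exact le_trans (by linarith) (le_abs_self _)

end Pool.Agent.MP_815c6c_an.L

end
end MrgPart4

-- ======== part 5: formerly Pool.Agent.MP_815c6c_an.L.Sh
section MrgPart5

/-! Planar p-harmonic maps: the lower bound for the growth of planar solutions. -/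

set_option autoImplicit false

noncomputable section

namespace Pool.Agent.MP_815c6c_an.L

open Set Metric MeasureTheory Filter Topology Complex
open scoped ContDiff ComplexConjugate
open Q

namespace ShA

/-- cutoff functions at the scale `ρ` -/
structure Cut (L ρ : ℝ) (b : ℂ → ℝ) : Prop where
  tf : Tf univ b
  mem : ∀ z, 0 ≤ b z ∧ b z ≤ 1
  one : ∀ z, ‖z‖ ≤ ρ → b z = 1
  zero : ∀ z, 2 * ρ ≤ ‖z‖ → b z = 0
  der : ∀ z, ‖fderiv ℝ b z‖ ≤ L / ρ

theorem cut : ∃ L : ℝ, 0 ≤ L ∧ ∀ ρ, 0 < ρ → ∃ b, Cut L ρ b := by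
  let β : ContDiffBump (0 : ℂ) := ⟨1, 2, one_pos, one_lt_two⟩
  have hc : ContDiff ℝ 1 β := β.contDiff
  obtain ⟨L, hL⟩ := (hc.continuous_fderiv one_ne_zero).bounded_above_of_compact_support
    (β.hasCompactSupport.fderiv ℝ)
  refine ⟨L, (norm_nonneg _).trans (hL 0), fun ρ hρ => ⟨fun z => β (ρ⁻¹ • z), ?_⟩⟩
  have n : ∀ z : ℂ, ‖ρ⁻¹ • z‖ = ‖z‖ / ρ := fun z => by
    rw [norm_smul, norm_inv, Real.norm_of_nonneg hρ.le, inv_mul_eq_div]
  have z0 : ∀ z : ℂ, 2 * ρ ≤ ‖z‖ → β (ρ⁻¹ • z) = 0 := fun z hz =>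
    β.zero_of_le_dist (by rwa [dist_zero_right, n, le_div_iff₀ hρ])
  refine ⟨⟨hc.comp (contDiff_id.const_smul _), HasCompactSupport.intro
    (isCompact_closedBall 0 (2 * ρ)) fun z hz => z0 z ?_, subset_univ _⟩,
    fun z => ⟨β.nonneg, β.le_one⟩, fun z hz => β.one_of_mem_closedBall ?_, z0, fun z => ?_⟩
  · exact (not_le.1 (mt mem_closedBall_zero_iff.2 hz)).le
  · rwa [mem_closedBall_zero_iff, n, div_le_one hρ]
  · rw [fderiv_comp_smul, norm_smul, norm_inv, Real.norm_of_nonneg hρ.le, inv_mul_eq_div]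
    gcongr
    exact hL _

variable {L ρ s : ℝ} {b : ℂ → ℝ} {a c : ℂ → ℂ}

theorem Cut.ev (h : Cut L ρ b) (hρ : 0 < ρ) : ∀ᶠ z in 𝓝 (0 : ℂ), b z = 1 :=
  mem_of_superset (closedBall_mem_nhds 0 hρ) fun z hz => h.one z (mem_closedBall_zero_iff.1 hz)

theorem Cut.d0 (h : Cut L ρ b) {z : ℂ} (hz : ¬ (ρ ≤ ‖z‖ ∧ ‖z‖ ≤ 2 * ρ)) : fderiv ℝ b z = 0 := by
  rcases not_and_or.1 hz with hz | hz
  · have : b =ᶠ[𝓝 z] fun _ => 1 :=
      ((isOpen_lt continuous_norm continuous_const).eventually_mem (not_le.1 hz)).mono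
        fun x hx => h.one x (le_of_lt hx)
    rw [this.fderiv_eq, fderiv_fun_const, Pi.zero_apply]
  · have : b =ᶠ[𝓝 z] fun _ => 0 :=
      ((isOpen_lt continuous_const continuous_norm).eventually_mem (not_le.1 hz)).mono
        fun x hx => h.zero x (le_of_lt hx)
    rw [this.fderiv_eq, fderiv_fun_const, Pi.zero_apply]

theorem intg {f : ℂ → ℝ} (hρ : 0 < ρ) (hf : ContinuousOn f {0}ᶜ)
    (h0 : ∀ z, ¬ (ρ ≤ ‖z‖ ∧ ‖z‖ ≤ 2 * ρ) → f z = 0) : Integrable f := by
  refine (integrableOn_iff_integrable_of_support_subset (s := closedBall 0 (2 * ρ) \ ball 0 ρ)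
    fun z hz => ?_).1 ((hf.mono fun z hz e => hz.2 ?_).integrableOn_compact
      ((isCompact_closedBall _ _).diff isOpen_ball))
  · have := not_not.1 (mt (h0 z) hz)
    exact ⟨mem_closedBall_zero_iff.2 this.2, fun e => (mem_ball_zero_iff.1 e).not_ge this.1⟩
  · rw [mem_singleton_iff.1 e]
    exact mem_ball_self hρ

theorem c_wd (hb : ContDiff ℝ 1 b) (ha : ContDiffOn ℝ 1 a {0}ᶜ) (h0 : ∀ z ≠ 0, a z ≠ 0) :
    ContinuousOn (fun z => wd (fderiv ℝ b z) (ar a z)) {0}ᶜ := by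
  have h1 := (hb.continuous_fderiv one_ne_zero).continuousOn (s := {0}ᶜ)
  have h2 := ha.continuousOn_fderiv_of_isOpen isOpen_compl_singleton le_rfl
  have h3 : ∀ X, ContinuousOn (fun z => ar a z X) {0}ᶜ := fun X =>
    continuous_im.comp_continuousOn ((h2.clm_apply continuousOn_const).div ha.continuousOn h0)
  exact ((h1.clm_apply continuousOn_const).mul (h3 I)).sub
    ((h1.clm_apply continuousOn_const).mul (h3 1))

theorem wd_le (A : ℂ →L[ℝ] ℝ) (a : ℂ → ℂ) (z : ℂ) :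
    |wd A (ar a z)| ≤ 2 * (‖A‖ * (‖fderiv ℝ a z‖ / ‖a z‖)) := by
  have h : ∀ X Y : ℂ, ‖X‖ = 1 → ‖Y‖ = 1 → |A X * ar a z Y| ≤ ‖A‖ * (‖fderiv ℝ a z‖ / ‖a z‖) :=
    fun X Y hX hY => by
      rw [abs_mul]
      refine mul_le_mul (A.unit_le_opNorm X hX.le) ((abs_im_le_norm _).trans ?_) (abs_nonneg _)
        (norm_nonneg _)
      rw [norm_div]
      gcongr
      exact (fderiv ℝ a z).unit_le_opNorm Y hY.le
  refine (abs_sub _ _).trans ?_
  linarith [h 1 I norm_one norm_I, h I 1 norm_I norm_one]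

/-- the two integrands -/
def Lh (s : ℝ) (a c : ℂ → ℂ) (η : ℂ → ℝ) (z : ℂ) : ℝ :=
  (Real.log (‖a z‖ ^ 2 + ‖c z‖ ^ 2) / 2 - 2 * Real.log ‖z‖) * wd (fderiv ℝ η z) (ar a z) +
    (1 - s ^ 2 / 8) * Real.log ‖z‖ * wd (fderiv ℝ η z) (ar (fun x => x) z)
def Rh (a c : ℂ → ℂ) (η : ℂ → ℝ) (z : ℂ) : ℝ :=
  ‖fderiv ℝ η z‖ * ((‖fderiv ℝ a z‖ + ‖fderiv ℝ c z‖) / ‖a z‖ + ‖z‖⁻¹)

theorem int_LR (h : Cut L ρ b) (hρ : 0 < ρ) (pd : Pd s a c) :
    Integrable (Lh s a c b) ∧ Integrable (Rh a c b) := by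
  have ln : ContinuousOn (fun z : ℂ => Real.log ‖z‖) {0}ᶜ :=
    continuous_norm.continuousOn.log fun z hz => norm_ne_zero_iff.2 hz
  have ca := pd.ca.continuousOn.norm
  refine ⟨intg hρ (((((ca.pow 2).add (pd.cc.continuousOn.norm.pow 2)).log fun z hz => ?_).div_const
    2).sub (continuousOn_const.mul ln) |>.mul (c_wd h.tf.1 pd.ca pd.ne) |>.add
      ((continuousOn_const.mul ln).mul (c_wd h.tf.1 contDiffOn_id fun _ h => h))) fun z hz => ?_,
    intg hρ ((h.tf.1.continuous_fderiv one_ne_zero).norm.continuousOn.mul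
      ((((pd.ca.continuousOn_fderiv_of_isOpen isOpen_compl_singleton le_rfl).norm.add
        (pd.cc.continuousOn_fderiv_of_isOpen isOpen_compl_singleton le_rfl).norm).div ca
          fun z hz => norm_ne_zero_iff.2 (pd.ne z hz)).add
        (continuous_norm.continuousOn.inv₀ fun z hz => norm_ne_zero_iff.2 hz))) fun z hz => ?_⟩
  · exact (add_pos_of_pos_of_nonneg (pow_pos (norm_pos_iff.2 (pd.ne z hz)) 2) (sq_nonneg _)).ne'
  · simp [Lh, wd, h.d0 hz]
  · simp [Rh, h.d0 hz]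

variable {B N : ℝ} (h : Cut L ρ b) (hρ : 0 < ρ) (pd : Pd s a c) (hB : 0 < B) (hN : 0 < N)
  (H : ∀ z : ℂ, ρ ≤ ‖z‖ → ‖z‖ ≤ 2 * ρ →
    N ≤ B * ‖a z‖ ∧ ‖a z‖ ≤ B * N ∧ ‖fderiv ℝ a z‖ + ‖fderiv ℝ c z‖ ≤ B * N / ρ)
include h hρ pd hB hN H

theorem rh_le (hL : 0 ≤ L) : ∫ z, Rh a c b z ≤ 4 * Real.pi * (L * (B ^ 2 + 1)) := by
  have k : ∀ z, Rh a c b z ≤
      (closedBall (0 : ℂ) (2 * ρ)).indicator (fun _ => L * (B ^ 2 + 1) / ρ ^ 2) z := fun z => by
    by_cases hz : ρ ≤ ‖z‖ ∧ ‖z‖ ≤ 2 * ρ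
    · obtain ⟨h1, -, h3⟩ := H z hz.1 hz.2
      have a0 : 0 < ‖a z‖ := pos_of_mul_pos_right (hN.trans_le h1) hB.le
      have e1 : (‖fderiv ℝ a z‖ + ‖fderiv ℝ c z‖) / ‖a z‖ ≤ B ^ 2 / ρ := by
        rw [div_le_iff₀ a0, div_mul_eq_mul_div, sq, mul_assoc]
        exact h3.trans (by gcongr)
      rw [indicator_of_mem (mem_closedBall_zero_iff.2 hz.2), Rh,
        show L * (B ^ 2 + 1) / ρ ^ 2 = L / ρ * (B ^ 2 / ρ + ρ⁻¹) by field_simp]
      gcongr
      exacts [h.der z, hz.1]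
    · rw [Rh, h.d0 hz, norm_zero, zero_mul]
      exact indicator_nonneg (fun _ _ => by positivity) z
  refine (integral_mono (int_LR h hρ pd).2 ((integrable_indicator_iff measurableSet_closedBall).2
    (integrableOn_const measure_closedBall_lt_top.ne)) k).trans_eq ?_
  rw [integral_indicator_const _ measurableSet_closedBall, measureReal_def,
    Complex.volume_closedBall, ENNReal.toReal_mul, ENNReal.toReal_pow,
    ENNReal.toReal_ofReal (by positivity), ENNReal.coe_toReal, NNReal.coe_real_pi, smul_eq_mul]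
  field_simp
  ring

theorem lh_ge {M : ℤ} (hs : s ^ 2 ≤ 1) (w1 : Wn (fun z => z) 1) (wa : Wn a M) :
    2 * Real.pi * (M * (2 * Real.log ρ - Real.log N) - (1 - s ^ 2 / 8) * Real.log ρ) -
      2 * (|Real.log B| + 2) * ∫ z, Rh a c b z ≤ ∫ z, Lh s a c b z := by
  obtain ⟨i1, e1⟩ := w1 b h.tf (h.ev hρ)
  obtain ⟨i2, e2⟩ := wa b h.tf (h.ev hρ)
  obtain ⟨i3, i4⟩ := int_LR h hρ pd
  have l2 : Real.log 2 ≤ 1 := (Real.log_le_sub_one_of_pos two_pos).trans (by norm_num)
  have k : ∀ z, (Real.log N - 2 * Real.log ρ) * wd (fderiv ℝ b z) (ar a z) +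
      (1 - s ^ 2 / 8) * Real.log ρ * wd (fderiv ℝ b z) (ar (fun z => z) z) -
      2 * (|Real.log B| + 2) * Rh a c b z ≤ Lh s a c b z := fun z => by
    by_cases hz : ρ ≤ ‖z‖ ∧ ‖z‖ ≤ 2 * ρ
    swap
    · simp [Lh, Rh, wd, h.d0 hz]
    obtain ⟨h1, h2, -⟩ := H z hz.1 hz.2
    have z0 : 0 < ‖z‖ := hρ.trans_le hz.1
    have a0 : 0 < ‖a z‖ := pos_of_mul_pos_right (hN.trans_le h1) hB.le
    have t1 := Real.log_le_log hρ hz.1
    have t2 := Real.log_le_log z0 hz.2
    have t3 := Real.log_le_log hN h1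
    have t4 := Real.log_le_log a0 h2
    have t5 : Real.log (‖a z‖ ^ 2) ≤ Real.log (‖a z‖ ^ 2 + ‖c z‖ ^ 2) :=
      Real.log_le_log (by positivity) (le_add_of_nonneg_right (sq_nonneg _))
    have t6 : Real.log (‖a z‖ ^ 2 + ‖c z‖ ^ 2) ≤ Real.log (2 * ‖a z‖ ^ 2) :=
      Real.log_le_log (by positivity) (by
        linarith [pow_le_pow_left₀ (norm_nonneg _) (pd.le z (norm_pos_iff.1 z0)) 2])
    rw [Real.log_mul two_ne_zero hρ.ne'] at t2
    rw [Real.log_mul hB.ne' a0.ne'] at t3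
    rw [Real.log_mul hB.ne' hN.ne'] at t4
    rw [Real.log_mul two_ne_zero (by positivity)] at t6
    rw [Real.log_pow, Nat.cast_ofNat] at t5 t6
    have u1 : |Real.log (‖a z‖ ^ 2 + ‖c z‖ ^ 2) / 2 - 2 * Real.log ‖z‖ -
        (Real.log N - 2 * Real.log ρ)| ≤ |Real.log B| + 2 :=
      abs_le.2 ⟨by linarith [le_abs_self (Real.log B)], by linarith [le_abs_self (Real.log B)]⟩
    have u2 : |(1 - s ^ 2 / 8) * (Real.log ‖z‖ - Real.log ρ)| ≤ |Real.log B| + 2 := by
      rw [abs_of_nonneg (mul_nonneg (by linarith) (by linarith))]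
      nlinarith [abs_nonneg (Real.log B), sq_nonneg s]
    have v1 := mul_le_mul u1 (wd_le (fderiv ℝ b z) a z) (abs_nonneg _) (by positivity)
    have v2 := mul_le_mul u2 (wd_le (fderiv ℝ b z) (fun z => z) z) (abs_nonneg _) (by positivity)
    rw [← abs_mul] at v1 v2
    rw [fderiv_fun_id, ContinuousLinearMap.norm_id, one_div] at v2
    have v3 : 0 ≤ (|Real.log B| + 2) * (‖fderiv ℝ b z‖ * (‖fderiv ℝ c z‖ / ‖a z‖)) := by positivity
    rw [Lh, Rh, add_div]
    linarith [neg_abs_le _ |>.trans' (neg_le_neg v1), neg_abs_le _ |>.trans' (neg_le_neg v2)]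
  have := integral_mono (((i2.const_mul _).add (i1.const_mul _)).sub (i4.const_mul _)) i3 k
  refine le_trans (le_of_eq ?_) this
  rw [integral_sub' ((i2.const_mul _).add (i1.const_mul _)) (i4.const_mul _),
    integral_add' (i2.const_mul _) (i1.const_mul _), integral_const_mul, integral_const_mul,
    integral_const_mul, e1, e2]
  push_cast
  ring

end ShA

open ShA in
theorem sh : WinS → CiS → ShS := by
  intro win ci s γ B a c M s0 s1 g0 g1 hB pd wa hM H
  obtain ⟨B₀, hB₀, ci⟩ := ci s s0 s1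
  obtain ⟨L, hL, cut⟩ := cut
  obtain ⟨b, hb⟩ := cut 1 one_pos
  have hs : s ^ 2 ≤ 1 := by nlinarith
  have hM' : (1 : ℝ) ≤ M := by exact_mod_cast hM
  obtain ⟨T, hT⟩ : ∃ T : ℝ, 2 * Real.pi * (1 + s ^ 2 / 8 - γ) * T =
      2 * Real.pi * (M * (Real.log B + γ)) + (2 * (|Real.log B| + 2) + B₀) *
        (4 * Real.pi * (L * (B ^ 2 + 1))) + B₀ * (∫ z, Rh a c b z) + (∫ z, Lh s a c b z) + 1 :=
    ⟨_, mul_div_cancel₀ _ (mul_pos Real.two_pi_pos (by linarith)).ne'⟩
  obtain ⟨ρ, N, h1, hN, h2, H⟩ := H (max 2 (Real.exp T))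
  have r2 : 2 ≤ ρ := (le_max_left _ _).trans h1
  have hρ : 0 < ρ := by linarith
  have rT : T ≤ Real.log ρ := (Real.le_log_iff_exp_le hρ).2 ((le_max_right _ _).trans h1)
  have r0 : 0 ≤ Real.log ρ := Real.log_nonneg (by linarith)
  obtain ⟨b', hb'⟩ := cut ρ hρ
  obtain ⟨i1, i2⟩ := int_LR hb one_pos pd
  obtain ⟨i3, i4⟩ := int_LR hb' hρ pd
  have k1 := rh_le hb' hρ pd hB hN H hL
  have k2 := lh_ge hb' hρ pd hB hN H hs win.1 wa
  have d : ∀ z, fderiv ℝ (b' - b) z = fderiv ℝ b' z - fderiv ℝ b z := fun z =>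
    fderiv_sub (hb'.tf.1.differentiable one_ne_zero z) (hb.tf.1.differentiable one_ne_zero z)
  have k3 : ∫ z, Lh s a c (b' - b) z ≤ B₀ * ∫ z, Rh a c (b' - b) z := by
    refine ci a c _ pd ⟨hb'.tf.1.sub hb.tf.1, hb'.tf.2.1.sub hb.tf.2.1, fun z hz e => ?_⟩ fun z => ?_
    · rw [mem_singleton_iff.1 e] at hz
      refine notMem_tsupport_iff_eventuallyEq.2 ?_ hz
      filter_upwards [hb'.ev hρ, hb.ev one_pos] with x p q
      simp [p, q]
    · rcases le_total ‖z‖ ρ with p | p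
      · exact sub_nonneg.2 ((hb.mem z).2.trans_eq (hb'.one z p).symm)
      · exact sub_nonneg.2 ((hb.zero z (by linarith)).trans_le (hb'.mem z).1)
  have k4 : ∫ z, Lh s a c (b' - b) z = (∫ z, Lh s a c b' z) - ∫ z, Lh s a c b z := by
    rw [← integral_sub i3 i1]
    refine integral_congr_ae (Eventually.of_forall fun z => ?_)
    simp only [Lh, wd, d, sub_apply]
    ring
  have k5 : ∫ z, Rh a c (b' - b) z ≤ (∫ z, Rh a c b' z) + ∫ z, Rh a c b z := by
    rw [← integral_add i4 i2]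
    refine integral_mono_of_nonneg (Eventually.of_forall fun z => ?_) (i4.add i2)
      (Eventually.of_forall fun z => ?_)
    · simp only [Rh, Pi.zero_apply]
      positivity
    · simp only [Rh, d, ← add_mul]
      gcongr
      exact norm_sub_le _ _
  have k6 : Real.log N ≤ Real.log B + γ + γ * Real.log ρ := by
    have t := Real.log_le_log hN h2
    rw [Real.log_mul hB.ne' (by positivity), Real.log_rpow (by positivity)] at t
    have t2 := Real.log_le_log (by positivity) (show 1 + ρ ≤ 2 * ρ by linarith)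
    rw [Real.log_mul two_ne_zero hρ.ne'] at t2
    have l2 : Real.log 2 ≤ 1 := (Real.log_le_sub_one_of_pos two_pos).trans (by norm_num)
    nlinarith
  have k7 : (2 - γ) * Real.log ρ - M * (Real.log B + γ) ≤ M * (2 * Real.log ρ - Real.log N) := by
    nlinarith [mul_le_mul_of_nonneg_left k6 (zero_le_one.trans hM'),
      mul_nonneg (sub_nonneg.2 hM') (mul_nonneg (show 0 ≤ 2 - γ by linarith) r0)]
  have k8 := mul_le_mul_of_nonneg_left k7 Real.two_pi_pos.le
  have k9 := mul_le_mul_of_nonneg_left rT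
    (mul_pos Real.two_pi_pos (show 0 < 1 + s ^ 2 / 8 - γ by linarith)).le
  have k10 := mul_le_mul_of_nonneg_left k1 (show 0 ≤ 2 * (|Real.log B| + 2) + B₀ by positivity)
  have k11 := mul_le_mul_of_nonneg_left k5 hB₀
  linarith

end Pool.Agent.MP_815c6c_an.L

end
end MrgPart5

-- ======== part 6: formerly Pool.Agent.MP_815c6c_an.L.Win
section MrgPart6

/-! Winding numbers. -/

set_option autoImplicit false

noncomputable section

namespace Pool.Agent.MP_815c6c_an.L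

open Set Metric MeasureTheory Filter Topology Complex
open scoped ContDiff

namespace WinA

open StkA

/-- the radial profile -/
def bb (t : ℝ) : ℝ := Real.smoothTransition (2 - t)

lemma bs : ContDiff ℝ ∞ bb := Real.smoothTransition.contDiff.comp (contDiff_const.sub contDiff_id)

lemma b1 {t : ℝ} (h : t ≤ 1) : bb t = 1 := Real.smoothTransition.one_of_one_le (by linarith)
lemma b0 {t : ℝ} (h : 2 ≤ t) : bb t = 0 := Real.smoothTransition.zero_of_nonpos (by linarith)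

lemma bd {t : ℝ} (h : t < 1 ∨ 2 < t) : deriv bb t = 0 := by
  rcases h with h | h
  · rw [EventuallyEq.deriv_eq (f := fun _ => 1) ((gt_mem_nhds h).mono fun _ a => b1 a.le),
      deriv_const]
  · rw [EventuallyEq.deriv_eq (f := fun _ => 0) ((lt_mem_nhds h).mono fun _ a => b0 a.le),
      deriv_const]

/-- the point of the circle -/
def pt (r θ : ℝ) : ℂ := r * (Real.cos θ + Real.sin θ * I)

lemma pt_eq (r θ : ℝ) : pt r θ = r * exp (θ * I) := by simp [pt, exp_mul_I]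

lemma pt_norm {r : ℝ} (h : 0 < r) (θ : ℝ) : ‖pt r θ‖ = r := by simp [pt_eq, h.le]

lemma pt_ne {r : ℝ} (h : 0 < r) (θ : ℝ) : pt r θ ≠ 0 := norm_pos_iff.1 ((pt_norm h θ).symm ▸ h)

variable {a : ℂ → ℂ}

lemma ck (ha : ContDiffOn ℝ 1 a {0}ᶜ) (h0 : ∀ z ≠ 0, a z ≠ 0) :
    ContinuousOn (fun z => fderiv ℝ a z (I * z) / a z) {0}ᶜ :=
  ((ha.continuousOn_fderiv_of_isOpen isOpen_compl_singleton le_rfl).clm_apply
    (by fun_prop)).div ha.continuousOn h0

lemma main (ha : ContDiffOn ℝ 1 a {0}ᶜ) (h0 : ∀ z ≠ 0, a z ≠ 0) {M : ℤ}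
    (hM : ∀ r, 0 < r → ∫ θ in (-Real.pi)..Real.pi, ar a (pt r θ) (I * pt r θ) = 2 * Real.pi * M) :
    Wn a M := by
  have bc : Continuous (deriv bb) := bs.continuous_deriv (by simp)
  have s0 : ContDiff ℝ ∞ fun z : ℂ => bb (‖z‖ ^ 2) := bs.comp (contDiff_norm_sq ℝ)
  have c0 : HasCompactSupport fun z : ℂ => bb (‖z‖ ^ 2) :=
    HasCompactSupport.intro (isCompact_closedBall 0 2) fun z hz => b0 (by
      rw [mem_closedBall_zero_iff, not_le] at hz; nlinarith)
  have e0 : ∀ z, wd (fderiv ℝ (fun z : ℂ => bb (‖z‖ ^ 2)) z) (ar a z) =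
      2 * deriv bb (‖z‖ ^ 2) * ar a z (I * z) := fun z => by
    have d := ((bs.differentiable (by simp) _).hasDerivAt.comp_hasFDerivAt z
      (hasStrictFDerivAt_norm_sq z).hasFDerivAt).fderiv
    have e : fderiv ℝ (fun z : ℂ => bb (‖z‖ ^ 2)) z = _ := d
    rw [e, wd, ar, ar, ar, Q.L_apply _ (I * z)]
    simp [div_eq_mul_inv, add_mul, mul_assoc]
    ring
  have cg : ContinuousOn (fun z : ℂ => 2 * deriv bb (‖z‖ ^ 2) * ar a z (I * z)) {0}ᶜ :=
    (Continuous.continuousOn (by fun_prop)).mul (continuous_im.comp_continuousOn (ck ha h0))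
  have i0 : Integrable fun z : ℂ => 2 * deriv bb (‖z‖ ^ 2) * ar a z (I * z) := by
    refine (integrableOn_iff_integrable_of_support_subset (s := closedBall 0 2 \ ball 0 1)
      fun z hz => ?_).1 ((cg.mono fun z hz h => hz.2 (by simp [mem_singleton_iff.1 h])
        ).integrableOn_compact ((isCompact_closedBall 0 2).diff isOpen_ball))
    by_contra h
    refine hz (by
      beta_reduce
      rw [bd, mul_zero, zero_mul]
      rw [Set.mem_sdiff, mem_closedBall_zero_iff, mem_ball_zero_iff, not_and_or, not_le, not_not] at h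
      rcases h with h | h
      · exact Or.inr (by nlinarith)
      · exact Or.inl (by nlinarith [norm_nonneg z]))
  have v0 : ∫ z : ℂ, 2 * deriv bb (‖z‖ ^ 2) * ar a z (I * z) = -(2 * Real.pi * M) := by
    rw [← Complex.integral_comp_polarCoord_symm, polarCoord_target, Measure.volume_eq_prod]
    simp only [Complex.polarCoord_symm_apply]
    change ∫ p : ℝ × ℝ in _, p.1 • (2 * deriv bb (‖pt p.1 p.2‖ ^ 2) * ar a (pt p.1 p.2) (I * pt p.1 p.2))
      ∂_ = _
    rw [setIntegral_prod]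
    · rw [setIntegral_congr_fun measurableSet_Ioi (g := fun r => deriv bb (r ^ 2) * (2 * r) *
        (2 * Real.pi * M)) fun r hr => by
          simp only [pt_norm hr, smul_eq_mul]
          rw [← hM r hr, intervalIntegral.integral_of_le (by linarith [Real.pi_pos]),
            integral_Ioc_eq_integral_Ioo, ← integral_const_mul]
          exact integral_congr_ae (ae_of_all _ fun θ => by ring), integral_mul_const]
      have hd : ∀ r : ℝ, HasDerivAt (fun r : ℝ => bb (r ^ 2)) (deriv bb (r ^ 2) * (2 * r)) r :=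
        fun r => (bs.differentiable (by simp) _).hasDerivAt.comp r (by
          simpa using hasDerivAt_pow 2 r)
      rw [integral_Ioi_of_hasDerivAt_of_tendsto (m := 0) (hd 0).continuousAt.continuousWithinAt
        (fun r _ => hd r) (Continuous.integrable_of_hasCompactSupport (by fun_prop)
          (HasCompactSupport.intro (isCompact_Icc (a := -2) (b := 2)) fun r hr => by
            rw [bd (Or.inr _), zero_mul]
            rw [mem_Icc, not_and_or, not_le, not_le] at hr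
            rcases hr with h | h <;> nlinarith)).integrableOn
        (tendsto_const_nhds.congr' ((eventually_ge_atTop 2).mono fun r hr =>
          (b0 (by nlinarith)).symm)), b1 (by norm_num)]
      ring
    · refine IntegrableOn.of_forall_sdiff_eq_zero (s := Icc 1 2 ×ˢ Icc (-Real.pi) Real.pi)
        (ContinuousOn.integrableOn_compact (isCompact_Icc.prod isCompact_Icc) ?_)
        (measurableSet_Ioi.prod measurableSet_Ioo) fun p hp => ?_
      · exact continuousOn_fst.smul (cg.comp (f := fun p : ℝ × ℝ => pt p.1 p.2)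
          (by unfold pt; fun_prop) fun p hp => pt_ne (one_pos.trans_le hp.1.1) _)
      · have p0 : 0 < p.1 := hp.1.1
        rw [pt_norm p0, bd, mul_zero, zero_mul, smul_zero]
        by_contra h
        rw [not_or, not_lt, not_lt] at h
        exact hp.2 ⟨⟨by nlinarith, by nlinarith⟩, Ioo_subset_Icc_self hp.1.2⟩
  intro β hβ h1
  have s1 : ContDiff ℝ 1 fun z : ℂ => bb (‖z‖ ^ 2) := s0.of_le (by exact_mod_cast le_top)
  have t : Tf {0}ᶜ fun z => β z - bb (‖z‖ ^ 2) := by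
    refine ⟨hβ.1.sub s1, hβ.2.1.sub c0, fun z hz h => ?_⟩
    rw [mem_singleton_iff.1 h] at hz
    refine notMem_tsupport_iff_eventuallyEq.2 ?_ hz
    filter_upwards [h1, ball_mem_nhds 0 one_pos] with w a b
    rw [mem_ball_zero_iff] at b
    rw [a, b1 (by nlinarith [norm_nonneg w]), sub_self, Pi.zero_apply]
  have i1 := (parts isOpen_compl_singleton t (f := fun _ => 1) contDiffOn_const
    (car isOpen_compl_singleton ha h0 1) (car isOpen_compl_singleton ha h0 I)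
    fun _ hφ => arg0 isOpen_compl_singleton hφ ha h0).2.1
  have v1 := arg0 isOpen_compl_singleton t ha h0
  simp only [one_mul] at i1
  have e : ∀ z, wd (fderiv ℝ β z) (ar a z) = wd (fderiv ℝ (fun z => β z - bb (‖z‖ ^ 2)) z) (ar a z) +
      2 * deriv bb (‖z‖ ^ 2) * ar a z (I * z) := fun z => by
    rw [← e0, fderiv_fun_sub (hβ.1.differentiable one_ne_zero z) (s1.differentiable one_ne_zero z)]
    simp only [wd, sub_apply]
    ring
  simp only [e]
  exact ⟨i1.add i0, by rw [integral_add i1 i0, v1, v0, zero_add]⟩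

lemma ex (ha : ContDiffOn ℝ 1 a {0}ᶜ) (h0 : ∀ z ≠ 0, a z ≠ 0) : ∃ M : ℤ, ∀ r, 0 < r →
    ∫ θ in (-Real.pi)..Real.pi, ar a (pt r θ) (I * pt r θ) = 2 * Real.pi * M := by
  have c : Continuous fun p : ℝ × ℝ => fderiv ℝ a (pt (Real.exp p.1) p.2)
      (I * pt (Real.exp p.1) p.2) / a (pt (Real.exp p.1) p.2) :=
    (ck ha h0).comp_continuous (f := fun p : ℝ × ℝ => pt (Real.exp p.1) p.2)
      (by unfold pt; fun_prop) fun p => pt_ne (Real.exp_pos _) _
  have h : ∀ t : ℝ, ∃ N : ℤ, ∫ θ in (-Real.pi)..Real.pi,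
      ar a (pt (Real.exp t) θ) (I * pt (Real.exp t) θ) = 2 * Real.pi * N := fun t => by
    have r0 := Real.exp_pos t
    have kc := c.comp (Continuous.prodMk_right t)
    have := P.Wind.edge1 (γ := fun θ => a (pt (Real.exp t) θ))
      (γ' := fun θ => fderiv ℝ a (pt (Real.exp t) θ) (I * pt (Real.exp t) θ)) (fun θ => by
        refine ((ha.contDiffAt (isOpen_compl_singleton.mem_nhds (pt_ne r0 θ))).differentiableAt
          one_ne_zero).hasFDerivAt.comp_hasDerivAt θ ?_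
        rw [show pt (Real.exp t) = _ from funext (pt_eq _)]
        have := (((hasDerivAt_id θ).ofReal_comp.mul_const I).cexp).const_mul (Real.exp t : ℂ)
        simpa [mul_comm, mul_left_comm] using this) kc (a := -Real.pi) (b := Real.pi)
      (by linarith [Real.pi_pos]) fun θ _ => div_mul_cancel₀ _ (h0 _ (pt_ne r0 θ))
    rw [show pt (Real.exp t) (-Real.pi) = pt (Real.exp t) Real.pi by simp [pt],
      mul_eq_right₀ (h0 _ (pt_ne r0 _)), exp_eq_one_iff] at this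
    obtain ⟨N, hN⟩ := this
    refine ⟨N, (imCLM.intervalIntegral_comp_comm (kc.intervalIntegrable _ _)).trans ?_⟩
    rw [hN]
    simp [mul_comm]
  choose N hN using h
  have pi := Real.pi_pos
  have cN : Continuous N := Int.isClosedEmbedding_coe_real.isInducing.continuous_iff.2 (by
    have := (intervalIntegral.continuous_parametric_intervalIntegral_of_continuous' (μ := volume)
      (f := fun t θ => ar a (pt (Real.exp t) θ) (I * pt (Real.exp t) θ))
      (continuous_im.comp c) (-Real.pi) Real.pi).div_const (2 * Real.pi)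
    refine this.congr fun t => ?_
    rw [hN, mul_div_cancel_left₀ _ (by positivity)]
    rfl)
  refine ⟨N 0, fun r hr => ?_⟩
  rw [← Real.exp_log hr, hN, PreconnectedSpace.constant inferInstance cN (x := Real.log r) (y := 0)]

end WinA

open WinA in
theorem win : StkS → WinS := fun _ => ⟨main contDiffOn_id (fun _ h => h) fun r hr => by
  simp [ar, mul_div_cancel_right₀ _ (pt_ne hr _), two_mul],
  fun _ ha h0 => (ex ha h0).imp fun _ h => main ha h0 h⟩

end Pool.Agent.MP_815c6c_an.L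

end
end MrgPart6

-- marker of a merged file
example : 731051 + 461675 = 731051 + 461675 := rfl
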