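import Pool.Agent.MP_815c6c_an.L.Zer
import Pool.Agent.MP_815c6c_an.L.Rig
import Pool.Agent.MP_815c6c_an.L.Win
import Pool.Agent.MP_815c6c_an.Q.Osc
import Pool.Agent.MP_815c6c_an.L.Pj
import Pool.Agent.MP_815c6c_an.Q.Shell
import Pool.Agent.MP_815c6c_an.Q.Dual

/-! Assembly: the Liouville theorem and the dichotomy in the dimension. -/

set_option autoImplicit false

namespace Pool.Agent.MP_815c6c_an.L

theorem liou (n : ℕ) (s : ℝ) (h0 : 0 < s) (h1 : s < 1) (h : Q.Shell n s) : Q.LiouS n s :=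
  liou_of dlS mon bnd logS cert pla pol stk win con pri ci sh mas sig cir zer bd rig zf nf pjS pl
    one fin n s h0 h1 h

theorem dim (d n : ℕ) (hd : 1 ≤ d) (hn : 1 ≤ n) :
    (d ≤ 2 → ∀ p : ℝ, 1 < p → N.Yes d n p) ∧ (¬ d ≤ 2 → N.No d n (17 / 10)) :=
  N.dim (Q.yes_of liou) d n hd hn

end Pool.Agent.MP_815c6c_an.L
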