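import Mathlib.Analysis.Asymptotics.SpecificAsymptotics
import Mathlib.Analysis.Normed.Module.Connected
import Mathlib.Analysis.SpecialFunctions.Complex.Analytic
import Mathlib.Analysis.Complex.ExponentialBounds
import Mathlib.Analysis.ODE.Gronwall
import Mathlib.MeasureTheory.Function.SpecialFunctions.Inner
import Pool.Agent.MP_815c6c_an.L.Win

-- ======== part 0: formerly Pool.Agent.MP_815c6c_an.L.Bd
section MrgPart0

/-! Row BD: blow downs exist. -/

set_option autoImplicit false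

namespace Pool.Agent.MP_815c6c_an.L

open Set Metric MeasureTheory Filter Topology Complex
open Q

namespace BdA

variable {n : ℕ} {s : ℝ} {F : ℂ → Cn n}

theorem unb (S : Shell n s) (hF : Sol s univ F) (h : ∃ z, F z ≠ F 0) (M : ℝ) : ∃ z, M < ‖F z‖ := by
  by_contra hM
  simp only [not_exists, not_lt] at hM
  obtain ⟨a, C, a0, -, h3⟩ := S.s3
  obtain ⟨z, hz⟩ := h
  have t1 : Tendsto (fun r : ℝ => ‖z - 0‖ / r) atTop (𝓝 0) := tendsto_const_nhds.div_atTop tendsto_id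
  have t2 : Tendsto (fun r : ℝ => C * M * (‖z - 0‖ / r) ^ a) atTop (𝓝 0) := by
    simpa [a0.ne'] using (t1.rpow_const (Or.inr a0.le)).const_mul (C * M)
  refine hz (sub_eq_zero.1 (norm_le_zero_iff.1 (ge_of_tendsto t2 ?_)))
  filter_upwards [eventually_gt_atTop ‖z‖] with r hr
  exact h3 F 0 r M ((norm_nonneg _).trans_lt hr) (hF.mono (subset_univ _)) (fun y _ => hM y) z
    (by simpa using hr)

theorem pick (hc : Continuous F) {C γ γ' t : ℝ} (h0 : 0 < γ) (h1 : γ < γ')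
    (hb : ∀ z, ‖F z‖ ≤ C * (1 + ‖z‖) ^ γ) {z₀ : ℂ} (hz : F z₀ ≠ 0) (ht : 1 ≤ t) :
    ∃ (R : ℝ) (w : ℂ), t ≤ R ∧ ‖w‖ ≤ R ∧ (∀ z, ‖z‖ ≤ t → ‖F z‖ ≤ ‖F w‖) ∧
      ∀ z : ℂ, ‖F (R * z)‖ ≤ ‖F w‖ * (1 + ‖z‖) ^ γ' := by
  have C0 : 0 ≤ C := by simpa using (norm_nonneg _).trans (hb 0)
  have m0 : ∀ z : ℂ, 0 < max ‖z‖ t := fun z => lt_max_of_lt_right (by linarith)
  have p0 : ∀ z : ℂ, 0 < max ‖z‖ t ^ γ' := fun z => Real.rpow_pos_of_pos (m0 z) _
  have c : Continuous fun z => ‖F z‖ / max ‖z‖ t ^ γ' :=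
    hc.norm.div ((continuous_norm.max continuous_const).rpow_const fun z => Or.inl (m0 z).ne')
      fun z => (p0 z).ne'
  have t1 : Tendsto (fun z : ℂ => max ‖z‖ t) (cocompact ℂ) atTop :=
    tendsto_atTop_mono (fun z => le_max_left _ _) tendsto_norm_cocompact_atTop
  have t2 : Tendsto (fun z : ℂ => C * 2 ^ γ * max ‖z‖ t ^ (-(γ' - γ))) (cocompact ℂ) (𝓝 0) := by
    simpa using ((tendsto_rpow_neg_atTop (sub_pos.2 h1)).comp t1).const_mul (C * 2 ^ γ)
  obtain ⟨w, hw⟩ := c.exists_forall_ge' z₀ (by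
    filter_upwards [t2.eventually (ge_mem_nhds (div_pos (norm_pos_iff.2 hz) (p0 z₀)))] with z h
    refine le_trans ?_ h
    rw [div_le_iff₀ (p0 z), mul_assoc, ← Real.rpow_add (m0 z), mul_assoc,
      show -(γ' - γ) + γ' = γ by ring, ← Real.mul_rpow zero_le_two (m0 z).le]
    refine (hb z).trans (mul_le_mul_of_nonneg_left (Real.rpow_le_rpow (by positivity) ?_ h0.le) C0)
    linarith [le_max_left ‖z‖ t, le_max_right ‖z‖ t])
  have k : ∀ (z : ℂ) (u : ℝ), 0 ≤ u → max ‖z‖ t ≤ u * max ‖w‖ t → ‖F z‖ ≤ ‖F w‖ * u ^ γ' :=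
    fun z u u0 hu => by
      have h := hw z
      rw [div_le_iff₀ (p0 z)] at h
      refine h.trans ((mul_le_mul_of_nonneg_left (Real.rpow_le_rpow (m0 z).le hu (by linarith))
        (div_nonneg (norm_nonneg _) (p0 w).le)).trans_eq ?_)
      rw [Real.mul_rpow u0 (m0 w).le]
      field_simp [(p0 w).ne']
  refine ⟨max ‖w‖ t, w, le_max_right _ _, le_max_left _ _, fun z h => ?_, fun z => ?_⟩
  · simpa using k z 1 zero_le_one (by rw [one_mul, max_eq_right h]; exact le_max_right _ _)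
  · refine k _ _ (by positivity) (max_le ?_ ?_)
    · rw [norm_mul, Complex.norm_real, Real.norm_of_nonneg (m0 w).le]; nlinarith [m0 w]
    · nlinarith [m0 w, norm_nonneg z, le_max_right ‖w‖ t]

end BdA

open BdA in
theorem bd : ∀ n s, Shell n s → BdS n s := by
  intro n s S F C γ γ' hF hn h0 h1 hb
  have hc : Continuous F := continuousOn_univ.1 hF.1
  have C0 : 0 ≤ C := by simpa using (norm_nonneg _).trans (hb 0)
  obtain ⟨z₀, hz⟩ := unb S hF hn 0
  have t1 : ∀ k : ℕ, 1 ≤ k + (1 + ‖z₀‖) := fun k => by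
    linarith [norm_nonneg z₀, (k.cast_nonneg : (0 : ℝ) ≤ k)]
  choose R w hR hw hN hs using fun k : ℕ => pick hc h0 h1 hb (norm_pos_iff.1 hz) (t1 k)
  have r0 : ∀ k, 0 < R k := fun k => by linarith [t1 k, hR k]
  have n0 : ∀ k, 0 < ‖F (w k)‖ := fun k =>
    hz.trans_le (hN k _ (by linarith [(k.cast_nonneg : (0 : ℝ) ≤ k)]))
  have tt : Tendsto (fun k : ℕ => k + (1 + ‖z₀‖)) atTop atTop :=
    tendsto_atTop_add_const_right _ _ tendsto_natCast_atTop_atTop
  have nt : Tendsto (fun k => ‖F (w k)‖) atTop atTop := tendsto_atTop.2 fun M => by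
    obtain ⟨z, h⟩ := unb S hF hn M
    filter_upwards [tt.eventually_ge_atTop ‖z‖] with k hk using h.le.trans (hN k z hk)
  have nr : ∀ k z, ‖sc (R k) ‖F (w k)‖ F z‖ = ‖F (w k)‖⁻¹ * ‖F (R k * z)‖ := fun k z => by
    rw [sc, norm_smul, norm_inv, norm_norm]
  have b : ∀ k z, ‖sc (R k) ‖F (w k)‖ F z‖ ≤ (1 + ‖z‖) ^ γ' := fun k z => by
    rw [nr, inv_mul_le_iff₀ (n0 k)]; exact hs k z
  obtain ⟨φ, G, hφ, hG, c0, c1⟩ := S.s4 (fun k => sc (R k) ‖F (w k)‖ F) (fun k => by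
    have := S.s5 univ univ F 0 (R k) _ (r0 k) (inv_pos.2 (n0 k)) (fun _ _ => trivial) hF
    simp only [zero_add] at this
    exact this)
    fun ρ => ⟨(1 + ρ) ^ γ', fun k z h => (b k z).trans (Real.rpow_le_rpow (by positivity)
      (by linarith [mem_ball_zero_iff.1 h]) (by linarith))⟩
  have c0' := tendstoLocallyUniformly_iff_forall_isCompact.1 c0
  have pt := fun z => (c0' {z} isCompact_singleton).tendsto_at (mem_singleton z)
  refine ⟨fun k => R (φ k), fun k => ‖F (w (φ k))‖, G, ⟨fun k => r0 _, fun k => n0 _,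
    (tendsto_atTop_mono hR tt).comp hφ.tendsto_atTop, nt.comp hφ.tendsto_atTop, hG, ?_, ?_, c0', c1⟩,
    fun z => le_of_tendsto' (pt z).norm fun k => b _ z, fun k => (hb _).trans
      (mul_le_mul_of_nonneg_left (Real.rpow_le_rpow (by positivity) (by linarith [hw (φ k)]) h0.le)
        C0)⟩
  · refine tendsto_nhds_unique (pt 0) ?_
    simpa [sc] using (nt.comp hφ.tendsto_atTop).inv_tendsto_atTop.smul_const (F 0)
  · by_contra h
    simp only [not_exists, not_not] at h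
    obtain ⟨k, hk⟩ := (Metric.tendstoUniformlyOn_iff.1 (c0' _ (isCompact_closedBall 0 1)) 1
      one_pos).exists
    have e : (R (φ k) : ℂ) ≠ 0 := ofReal_ne_zero.2 (r0 _).ne'
    have := hk (w (φ k) / R (φ k)) (by
      rw [mem_closedBall_zero_iff, norm_div, Complex.norm_real, Real.norm_of_nonneg (r0 _).le]
      exact (div_le_one (r0 _)).2 (hw _))
    rw [h, dist_zero_left, nr, mul_div_cancel₀ _ e, inv_mul_cancel₀ (n0 _).ne'] at this
    exact lt_irrefl _ this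

end Pool.Agent.MP_815c6c_an.L

end MrgPart0

-- ======== part 1: formerly Pool.Agent.MP_815c6c_an.L.Cir
section MrgPart1

/-! Planar p-harmonic maps: a circle without zeros. -/

set_option autoImplicit false

noncomputable section

namespace Pool.Agent.MP_815c6c_an.L

open Set Metric MeasureTheory Filter Topology Complex
open scoped ContDiff ComplexConjugate
open Q

namespace CirA

variable {n : ℕ}

/-- from a circle without zeros to the test function -/
theorem pack (F : ℂ → Cn n) (hF : Continuous F) (x : ℂ) (R r : ℝ) (hr : r ∈ Ioo 0 R)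
    (h : ∀ z ∈ sphere x r, F z ≠ 0) : ∃ η, Tf (ball x R) η ∧ Gd F η ∧ On F x η := by
  have h1 : ∀ᶠ t : ℝ in 𝓝 r, ∀ u ∈ sphere (0 : ℂ) 1, F (x + t * u) ≠ 0 := by
    refine (isCompact_sphere 0 1).eventually_forall_of_forall_eventually fun u hu => ?_
    have c : Continuous fun q : ℝ × ℂ => F (x + q.1 * q.2) := by fun_prop
    refine c.continuousAt.eventually_ne (h _ ?_)
    rw [mem_sphere_zero_iff_norm] at hu
    simp [hu, abs_of_pos hr.1]
  obtain ⟨δ, hδ, h2⟩ := Metric.eventually_nhds_iff.1 (h1.and (gt_mem_nhds hr.2))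
  have r0 := hr.1
  have a1 : r + δ / 2 < R := (h2 (y := r + δ / 2) (by
    rw [Real.dist_eq, add_sub_cancel_left, abs_of_pos (by positivity)]; linarith)).2
  let β : ContDiffBump x := ⟨r + δ / 4, r + δ / 2, by positivity, by linarith⟩
  refine ⟨β, ⟨β.contDiff, β.hasCompactSupport, ?_⟩,
    ⟨closedBall x (r + δ / 2) \ ball x (r + δ / 4), (isCompact_closedBall _ _).diff isOpen_ball,
      fun z hz => ?_, fun z hz => ?_⟩, r + δ / 4, x + r, ?_, ?_, h _ ?_, fun z hz => ?_⟩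
  · rw [β.tsupport_eq]
    exact closedBall_subset_ball a1
  · have b1 : ‖z - x‖ ≤ r + δ / 2 := mem_closedBall_iff_norm.1 hz.1
    have b2 : r + δ / 4 ≤ ‖z - x‖ := not_lt.1 fun c => hz.2 (mem_ball_iff_norm.2 c)
    have b3 : 0 < ‖z - x‖ := by linarith
    have b4 : ((‖z - x‖ : ℝ) : ℂ) ≠ 0 := ofReal_ne_zero.2 b3.ne'
    have := (h2 (y := ‖z - x‖) (by
      rw [Real.dist_eq, abs_of_pos (by linarith)]; linarith)).1 ((z - x) / (‖z - x‖ : ℝ)) (by
      rw [mem_sphere_zero_iff_norm, norm_div, Complex.norm_real, norm_norm, div_self b3.ne'])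
    rwa [mul_div_cancel₀ _ b4, add_sub_cancel] at this
  · by_cases c : z ∈ ball x (r + δ / 4)
    · rw [(β.eventuallyEq_one_of_mem_ball c).fderiv_eq]
      exact fderiv_const_apply 1
    · refine fderiv_of_notMem_tsupport ℝ ?_
      rw [β.tsupport_eq]
      exact fun d => hz ⟨d, c⟩
  · rw [mem_ball_iff_norm, add_sub_cancel_left, Complex.norm_real, Real.norm_of_nonneg r0.le]
    linarith
  · simpa using r0.ne'
  · simp [abs_of_pos r0]
  · exact β.one_of_mem_closedBall (ball_subset_closedBall hz)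

theorem young (a b l : ℝ) (hl : 0 < l) : 40 * a * b ≤ l * a ^ 2 + 400 / l * b ^ 2 := by
  have h : l * a ^ 2 + 400 / l * b ^ 2 - 40 * a * b = (l * a - 20 * b) ^ 2 / l := by
    field_simp
    ring
  have : 0 ≤ (l * a - 20 * b) ^ 2 / l := by positivity
  linarith

/-- the set where the map is small but not zero -/
def sm (F : ℂ → Cn n) (τ : ℝ) : Set ℂ := {z | 0 < ‖F z‖ ^ 2 ∧ ‖F z‖ ^ 2 < τ}

theorem sm_meas {F : ℂ → Cn n} (hF : Continuous F) (τ : ℝ) : MeasurableSet (sm F τ) :=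
  ((isOpen_lt continuous_const (hF.norm.pow 2)).inter
    (isOpen_lt (hF.norm.pow 2) continuous_const)).measurableSet

theorem small {F : ℂ → Cn n} (hF : Continuous F) {g : ℂ → ℝ} (hg : Integrable g) (ε : ℝ)
    (hε : 0 < ε) : ∃ τ, 0 < τ ∧ ∫ z, (sm F τ).indicator g z ≤ ε := by
  have h := tendsto_integral_of_dominated_convergence (μ := volume)
    (F := fun (m : ℕ) z => (sm F (1 / ((m : ℝ) + 1))).indicator g z) (f := fun _ => 0)
    (fun z => ‖g z‖) (fun m => (hg.indicator (sm_meas hF _)).aestronglyMeasurable) hg.norm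
    (fun m => Eventually.of_forall fun z => norm_indicator_le_norm_self _ _)
    (Eventually.of_forall fun z => by
      refine tendsto_const_nhds.congr' ?_
      by_cases c : 0 < ‖F z‖ ^ 2
      · filter_upwards [(tendsto_one_div_add_atTop_nhds_zero_nat (𝕜 := ℝ)).eventually
          (gt_mem_nhds c)] with m hm
        exact (indicator_of_notMem (fun d => lt_asymm hm d.2) _).symm
      · exact Eventually.of_forall fun m => (indicator_of_notMem (fun d => c d.1) _).symm)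
  rw [integral_zero] at h
  obtain ⟨m, hm⟩ := (h.eventually (ge_mem_nhds hε)).exists
  exact ⟨_, by positivity, hm⟩

/-- the bound for the mass -/
theorem mass {s : ℝ} (b : Bnd n) (m : Mas n s) {F : ℂ → Cn n} (hF : Sol s univ F) {η : ℂ → ℝ}
    (hη : Tf univ η)
    (hi : ∀ y, 0 < y → Integrable fun z => η z ^ 2 * (th (y * ‖F z‖ ^ 2) * Y2 (F z) (Dz F z)))
    (hd : Integrable fun z => ‖fderiv ℝ η z‖ ^ 2) (y τ l : ℝ) (hy : 0 < y) (hτ : 0 < τ)
    (hl : 0 < l) :
    ms y F η ≤ Sg 1 F η / th τ + 400 * (∫ z, ‖fderiv ℝ η z‖ ^ 2) + l * Sg y F η +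
      400 / l * ∫ z, (sm F τ).indicator (fun z => ‖fderiv ℝ η z‖ ^ 2) z := by
  have hc : Continuous F := continuousOn_univ.1 hF.1
  obtain ⟨-, i1, e⟩ := m.sto F hF y η hη
  have t0 : 0 < th τ := by unfold th; positivity
  have i2 := (hi 1 one_pos).div_const (th τ)
  have i3 := hd.const_mul 400
  have i4 := (hi y hy).const_mul l
  have i5 := (hd.indicator (sm_meas hc τ)).const_mul (400 / l)
  rw [e, Sg, Sg, ← integral_neg, ← integral_div, ← integral_const_mul, ← integral_const_mul,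
    ← integral_const_mul, ← integral_add' i2 i3, ← integral_add' (i2.add i3) i4,
    ← integral_add' ((i2.add i3).add i4) i5]
  refine integral_mono i1.neg (((i2.add i3).add i4).add i5) fun z => ?_
  refine ((neg_le_abs _).trans (m.fl F hF y η z hy)).trans ?_
  simp only [Pi.add_apply]
  have Y0 : 0 ≤ Y2 (F z) (Dz F z) := add_nonneg (b.xy 1 _ _).1 (sq_nonneg _)
  obtain ⟨a1, a2, -⟩ := b.th0 (y * ‖F z‖ ^ 2) (by positivity)
  obtain ⟨a3, -⟩ := b.th0 (1 * ‖F z‖ ^ 2) (by positivity)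
  have a4 : 0 ≤ (sm F τ).indicator (fun z => ‖fderiv ℝ η z‖ ^ 2) z :=
    indicator_nonneg (fun _ _ => sq_nonneg _) _
  have a5 : ∀ l : ℝ, 0 < l → 40 * |η z| * ‖fderiv ℝ η z‖ *
      (th (y * ‖F z‖ ^ 2) * √(Y2 (F z) (Dz F z))) ≤
      l * (η z ^ 2 * (th (y * ‖F z‖ ^ 2) * Y2 (F z) (Dz F z))) +
        400 / l * ‖fderiv ℝ η z‖ ^ 2 := by
    intro l hl
    have c1 := mul_le_mul_of_nonneg_left
      (young (|η z| * √(Y2 (F z) (Dz F z))) ‖fderiv ℝ η z‖ l hl) a1
    rw [mul_pow, sq_abs, Real.sq_sqrt Y0] at c1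
    have c2 : th (y * ‖F z‖ ^ 2) * (400 / l * ‖fderiv ℝ η z‖ ^ 2) ≤
        400 / l * ‖fderiv ℝ η z‖ ^ 2 := mul_le_of_le_one_left (by positivity) a2
    linarith
  have p1 : 0 ≤ η z ^ 2 * (th (1 * ‖F z‖ ^ 2) * Y2 (F z) (Dz F z)) / th τ := by positivity
  have p2 : 0 ≤ 400 * ‖fderiv ℝ η z‖ ^ 2 := by positivity
  have p3 : 0 ≤ l * (η z ^ 2 * (th (y * ‖F z‖ ^ 2) * Y2 (F z) (Dz F z))) := by positivity
  have p4 : 0 ≤ 400 / l * (sm F τ).indicator (fun z => ‖fderiv ℝ η z‖ ^ 2) z := by positivity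
  by_cases c : z ∈ sm F τ
  · rw [indicator_of_mem c]
    linarith [a5 l hl]
  rcases (sq_nonneg ‖F z‖).eq_or_lt with c0 | c0
  · have : th (y * ‖F z‖ ^ 2) = 0 := by rw [← c0]; simp [th]
    rw [this, zero_mul, mul_zero] at *
    linarith
  · have c1 : τ ≤ 1 * ‖F z‖ ^ 2 := by
      rw [one_mul]
      exact not_lt.1 fun d => c ⟨c0, d⟩
    have c2 : th (y * ‖F z‖ ^ 2) ≤ th (1 * ‖F z‖ ^ 2) / th τ :=
      a2.trans ((one_le_div t0).2 (b.th1.1 c1))
    have c3 : η z ^ 2 * (th (y * ‖F z‖ ^ 2) * Y2 (F z) (Dz F z)) ≤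
        η z ^ 2 * (th (1 * ‖F z‖ ^ 2) * Y2 (F z) (Dz F z)) / th τ := by
      rw [mul_div_assoc, mul_div_right_comm]
      gcongr
    have c4 := a5 1 one_pos
    rw [one_mul, div_one] at c4
    linarith

end CirA

open CirA

theorem cir : Kit → ∀ n s, 0 < s → s < 1 → Shell n s → Mas n s → SigS n s → CirS n s := by
  intro k n s _ _ _ m sg F x x' R hF hx hx' h0
  have hc : Continuous F := continuousOn_univ.1 hF.1
  by_contra hcon
  have hz : ∀ r ∈ Ioo 0 R, ∃ z ∈ sphere x r, F z = 0 := fun r hr => by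
    by_contra c
    exact hcon (pack F hc x R r hr fun z hz e => c ⟨z, hz, e⟩)
  have R0 : 0 < R := pos_of_mem_ball hx
  let β : ContDiffBump x := ⟨R, 2 * R, R0, by linarith⟩
  have hβ : Tf univ β := ⟨β.contDiff, β.hasCompactSupport, subset_univ _⟩
  obtain ⟨C, hC, sg⟩ := sg
  obtain ⟨s1, s2, s3, s4⟩ := sg F β hF hβ
  obtain ⟨-, -, -, l1, l2, -⟩ := k.log
  have b := k.bnd n
  have hd : Integrable fun z => ‖fderiv ℝ β z‖ ^ 2 := by
    have c1 : Continuous (fderiv ℝ β) := hβ.1.continuous_fderiv one_ne_zero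
    have c2 : HasCompactSupport fun z => ‖fderiv ℝ β z‖ ^ 2 :=
      (hβ.2.1.fderiv ℝ).mono fun z hz e => hz (by simp [e])
    exact (c1.norm.pow 2).integrable_of_hasCompactSupport c2
  have n0 : 0 < ‖F x'‖ ^ 2 := pow_pos (norm_pos_iff.2 h0) 2
  obtain ⟨j0, hj0⟩ : ∃ j0 : ℕ, (1 / 4 : ℝ) ^ j0 < ‖F x'‖ ^ 2 / 2 :=
    exists_pow_lt_of_lt_one (by positivity) (by norm_num)
  obtain ⟨ρ, hρ, h1⟩ := Metric.eventually_nhds_iff_ball.1
    ((by fun_prop : Continuous fun z => ‖F z‖ ^ 2 / 2).continuousAt.eventually (lt_mem_nhds hj0))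
  obtain ⟨c, c0, hp⟩ := k.pol x x' R ρ hρ hx' hx
  obtain ⟨τ, hτ, hκ⟩ := small hc hd (c / (2 * (6400 * C ^ 2 * (C + 1) + 1))) (by positivity)
  set κ := ∫ z, (sm F τ).indicator (fun z => ‖fderiv ℝ β z‖ ^ 2) z with hκd
  have κ0 : 0 ≤ κ := integral_nonneg fun z => indicator_nonneg (fun _ _ => sq_nonneg _) _
  have S0 : ∀ y, 0 < y → 0 ≤ Sg y F β := fun y hy => integral_nonneg fun z =>
    mul_nonneg (sq_nonneg _) (mul_nonneg (b.th0 _ (by positivity)).1
      (add_nonneg (b.xy 1 _ _).1 (sq_nonneg _)))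
  set B := Sg 1 F β / th τ + 400 * ∫ z, ‖fderiv ℝ β z‖ ^ 2 with hB
  obtain ⟨j1, hj1⟩ := exists_nat_gt ((2 * C * Sg 1 F β + 4 * C ^ 2 * B) / (c / 2))
  set j : ℕ := j0 + j1 + 1 with hj
  have j1' : (1 : ℝ) ≤ j := by exact_mod_cast (by omega : 1 ≤ j)
  have j2 : (j1 : ℝ) ≤ j := by exact_mod_cast (by omega : j1 ≤ j)
  have y0 : (0 : ℝ) < 4 ^ (2 * j) := by positivity
  set S := Sg (4 ^ (2 * j)) F β with hS
  have S1 : 0 ≤ S := S0 _ y0
  have up : S ≤ 2 * Sg 1 F β + 4 * C * j * B + 6400 * C * (C + 1) * j ^ 2 * κ := by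
    have l0 : (0 : ℝ) < 1 / (4 * (C + 1) * j) := by positivity
    have a1 : ∀ i ∈ Finset.range (2 * j), ms (4 ^ i) F β ≤
        B + 1 / (4 * (C + 1) * j) * S + 400 / (1 / (4 * (C + 1) * j)) * κ := fun i hi => by
      refine (mass b m hF hβ s1 hd (4 ^ i) τ _ (by positivity) hτ l0).trans ?_
      have := s2 (4 ^ i) (4 ^ (2 * j)) (by positivity)
        (pow_le_pow_right₀ (by norm_num) (Finset.mem_range.1 hi).le)
      gcongr
    have a2 := Finset.sum_le_card_nsmul _ _ _ a1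
    rw [Finset.card_range, nsmul_eq_mul] at a2
    have a3 := (s3 (2 * j)).trans (add_le_add le_rfl (mul_le_mul_of_nonneg_left a2 hC))
    have a4 : C * (((2 * j : ℕ) : ℝ) * (B + 1 / (4 * (C + 1) * j) * S +
        400 / (1 / (4 * (C + 1) * j)) * κ)) = 2 * C * j * B + C / (C + 1) * (S / 2) +
        3200 * C * (C + 1) * j ^ 2 * κ := by
      push_cast
      field_simp
      ring
    have a5 : C / (C + 1) * (S / 2) ≤ S / 2 :=
      mul_le_of_le_one_left (by positivity) ((div_le_one (by positivity)).2 (by linarith))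
    rw [a4] at a3
    linarith
  obtain ⟨w1, w2⟩ := s4 _ y0
  have lo : c * (j : ℝ) ^ 2 ≤ C * S := by
    refine le_trans ((hp _ 0 j w1.contDiffOn ?_ (by positivity) fun z hz => ?_).1 fun r hr => ?_)
      (w2 x R fun z hz => β.one_of_mem_closedBall (ball_subset_closedBall hz))
    · exact (((w1.continuous_fderiv one_ne_zero).norm.pow 2).continuousOn.integrableOn_compact
        (isCompact_closedBall x R)).mono_set ball_subset_closedBall
    · have a1 := h1 z hz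
      have a2 : (4 : ℝ) ^ j * 1 ≤ 4 ^ j * (4 ^ j * (1 / 4) ^ j0) := by
        refine mul_le_mul_of_nonneg_left ?_ (by positivity)
        rw [one_div, inv_pow, ← div_eq_mul_inv, one_le_div (by positivity)]
        exact pow_le_pow_right₀ (by norm_num) (by omega)
      have a3 : 2 * (4 : ℝ) ^ j ≤ 4 ^ (2 * j) * ‖F z‖ ^ 2 := by
        have a4 := mul_le_mul_of_nonneg_left a1.le y0.le
        have a7 : (4 : ℝ) ^ (2 * j) = 4 ^ j * 4 ^ j := by rw [two_mul, pow_add]
        rw [a7] at a4 ⊢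
        linarith
      have a5 : (1 : ℝ) ≤ 4 ^ j := one_le_pow₀ (by norm_num)
      have a6 : 1 ≤ Real.log 4 := by
        rw [show (4 : ℝ) = 2 ^ 2 by norm_num, Real.log_pow]
        have := Real.log_two_gt_d9
        push_cast
        linarith
      rw [zero_add, l2 _ (by linarith)]
      calc (j : ℝ) ≤ j * Real.log 4 := le_mul_of_one_le_right (by positivity) a6
        _ = Real.log (4 ^ j) := (Real.log_pow _ _).symm
        _ ≤ _ := Real.log_le_log (by positivity) (by linarith)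
    · obtain ⟨z, a1, a2⟩ := hz r hr
      exact ⟨z, a1, le_of_eq (l1 _ (by simp [a2]))⟩
  have f1 : 6400 * C ^ 2 * (C + 1) * κ ≤ c / 2 := by
    rw [le_div_iff₀ (by positivity)] at hκ
    nlinarith
  rw [div_lt_iff₀ (by positivity)] at hj1
  have f2 := mul_le_mul_of_nonneg_left up hC
  have f3 := mul_le_mul_of_nonneg_left f1 (sq_nonneg (j : ℝ))
  have f4 : 2 * C * Sg 1 F β ≤ 2 * C * Sg 1 F β * j :=
    le_mul_of_one_le_right (by have := S0 1 one_pos; positivity) j1'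
  have f5 : (2 * C * Sg 1 F β + 4 * C ^ 2 * B) * j < j * (c / 2) * j :=
    mul_lt_mul_of_pos_right (hj1.trans_le (by gcongr)) (by linarith)
  nlinarith

end Pool.Agent.MP_815c6c_an.L

end
end MrgPart1

-- ======== part 2: formerly Pool.Agent.MP_815c6c_an.L.Cnn
section MrgPart2

/-! Connectedness of the punctured plane, unique continuation, primitives. -/

set_option autoImplicit false

noncomputable section

namespace Pool.Agent.MP_815c6c_an.L

open Set Metric MeasureTheory Filter Topology Complex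
open Q

namespace ConA

theorem edge (Z : Set ℂ) (h1 : ∀ x ≠ (0 : ℂ), x ∉ Z → ∀ᶠ z in 𝓝 x, z ∉ Z)
    (h2 : ∃ x ≠ (0 : ℂ), x ∈ Z) (h3 : ∃ x ≠ (0 : ℂ), x ∉ Z) :
    ∃ x ≠ (0 : ℂ), x ∈ Z ∧ ∀ r, 0 < r → ∃ z ∈ ball x r, z ∉ Z := by
  by_contra hc
  push Not at hc
  have hcon : IsPreconnected ({0}ᶜ : Set ℂ) :=
    (isConnected_compl_singleton_of_one_lt_rank (by rw [Complex.rank_real_complex]; norm_num)
      (0 : ℂ)).isPreconnected
  obtain ⟨x, hx0, hxZ⟩ := h2
  obtain ⟨y, hy0, hyZ⟩ := h3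
  obtain ⟨w, -, hw1, hw2⟩ := hcon (interior Z) (interior Zᶜ) isOpen_interior isOpen_interior
    (fun z hz => by
      by_cases hZ : z ∈ Z
      · obtain ⟨r, hr, h⟩ := hc z hz hZ
        exact Or.inl (mem_interior_iff_mem_nhds.2 (mem_of_superset (ball_mem_nhds z hr) h))
      · exact Or.inr (mem_interior_iff_mem_nhds.2 (h1 z hz hZ)))
    (by
      obtain ⟨r, hr, h⟩ := hc x hx0 hxZ
      exact ⟨x, hx0, mem_interior_iff_mem_nhds.2 (mem_of_superset (ball_mem_nhds x hr) h)⟩)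
    ⟨y, hy0, mem_interior_iff_mem_nhds.2 (h1 y hy0 hyZ)⟩
  exact interior_subset hw2 (interior_subset hw1)

theorem uniq (n : ℕ) (f : ℂ → Cn n) (k : ℂ → ℝ) (hf : DifferentiableOn ℝ f {0}ᶜ)
    (hk : ContinuousOn k {0}ᶜ) (hb : ∀ z ≠ 0, ‖fderiv ℝ f z‖ ≤ k z * ‖f z‖) (h1 : f 1 = 0) :
    ∀ z ≠ 0, f z = 0 := by
  by_contra hc
  push Not at hc
  have hfa : ∀ z ≠ (0 : ℂ), DifferentiableAt ℝ f z := fun z hz =>
    hf.differentiableAt (isOpen_compl_singleton.mem_nhds hz)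
  obtain ⟨x, hx0, hxZ, hx⟩ := edge {z | f z = 0}
    (fun x hx hZ => (hfa x hx).continuousAt.eventually_ne hZ) ⟨1, one_ne_zero, h1⟩ hc
  have hr : 0 < ‖x‖ / 2 := half_pos (norm_pos_iff.2 hx0)
  have hsub : closedBall x (‖x‖ / 2) ⊆ {0}ᶜ := by
    intro z hz h0
    rw [mem_singleton_iff.1 h0, mem_closedBall, dist_zero_left] at hz
    linarith
  obtain ⟨K, hK⟩ := (isCompact_closedBall x (‖x‖ / 2)).exists_bound_of_continuousOn (hk.mono hsub)
  obtain ⟨z, hz, hzZ⟩ := hx _ hr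
  have hm : ∀ t ∈ Icc (0 : ℝ) 1, x + t • (z - x) ∈ closedBall x (‖x‖ / 2) := by
    intro t ht
    rw [mem_closedBall, dist_self_add_left, norm_smul, Real.norm_of_nonneg ht.1]
    have := mem_ball_iff_norm.1 hz
    nlinarith [ht.1, ht.2, norm_nonneg (z - x)]
  have hd : ∀ t ∈ Icc (0 : ℝ) 1, HasDerivAt (fun t : ℝ => f (x + t • (z - x)))
      (fderiv ℝ f (x + t • (z - x)) (z - x)) t := by
    intro t ht
    have a1 : HasDerivAt (fun t : ℝ => x + t • (z - x)) (z - x) t := by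
      simpa using ((hasDerivAt_id t).smul_const (z - x)).const_add x
    exact (hfa _ (hsub (hm t ht))).hasFDerivAt.comp_hasDerivAt t a1
  have := eq_zero_of_abs_deriv_le_mul_abs_self_of_eq_zero_right (K := K * ‖z - x‖) (a := 0) (b := 1)
    (fun t ht => (hd t ht).continuousAt.continuousWithinAt)
    (fun t ht => (hd t (Ico_subset_Icc_self ht)).hasDerivWithinAt) (by simpa using hxZ)
    (fun t ht => by
      have a1 := hm t (Ico_subset_Icc_self ht)
      have a2 := hb _ (hsub a1)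
      have a3 := (le_abs_self _).trans (hK _ a1)
      calc _ ≤ ‖fderiv ℝ f (x + t • (z - x))‖ * ‖z - x‖ := ContinuousLinearMap.le_opNorm _ _
        _ ≤ K * ‖f (x + t • (z - x))‖ * ‖z - x‖ :=
          mul_le_mul_of_nonneg_right (a2.trans (mul_le_mul_of_nonneg_right a3 (norm_nonneg _)))
            (norm_nonneg _)
        _ = _ := by ring) 1 ⟨zero_le_one, le_rfl⟩
  exact hzZ (by simpa using this)

/-- the common primitive -/
def H (s R : ℝ) : ℝ :=
  (-Real.log (1 - s ^ 2 * R) / s ^ 2 - Real.log (1 + R)) / (2 * (1 + s ^ 2))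

theorem pos {s R : ℝ} (h0 : 0 < s) (h1 : s < 1) (hR : R ∈ Icc (0 : ℝ) 1) : 0 < 1 - s ^ 2 * R := by
  have : s ^ 2 < 1 := by nlinarith
  nlinarith [hR.1, hR.2, sq_nonneg s]

theorem an1 {s R : ℝ} (h0 : 0 < s) (h1 : s < 1) (hR : R ∈ Icc (0 : ℝ) 1) :
    AnalyticAt ℝ (fun R => Real.log (1 - s ^ 2 * R)) R :=
  AnalyticAt.log (by fun_prop) (pos h0 h1 hR)

theorem anH {s R : ℝ} (h0 : 0 < s) (h1 : s < 1) (hR : R ∈ Icc (0 : ℝ) 1) :
    AnalyticAt ℝ (H s) R := by
  have a1 := an1 h0 h1 hR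
  have a2 : AnalyticAt ℝ (fun R => Real.log (1 + R)) R :=
    AnalyticAt.log (by fun_prop) (by linarith [hR.1])
  exact ((a1.neg.div_const).sub a2).div_const

theorem d1 {s R : ℝ} (h0 : 0 < s) (h1 : s < 1) (hR : R ∈ Icc (0 : ℝ) 1) :
    HasDerivAt (fun R => Real.log (1 - s ^ 2 * R)) (-s ^ 2 / (1 - s ^ 2 * R)) R := by
  have a1 : HasDerivAt (fun R => 1 - s ^ 2 * R) (-s ^ 2) R := by
    simpa using ((hasDerivAt_id R).const_mul (s ^ 2)).const_sub 1
  exact a1.log (pos h0 h1 hR).ne'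

theorem dH {s R : ℝ} (h0 : 0 < s) (h1 : s < 1) (hR : R ∈ Icc (0 : ℝ) 1) :
    HasDerivAt (H s) (R * ((1 - s ^ 2 * R)⁻¹ / (2 * (1 + R)))) R := by
  have hp := pos h0 h1 hR
  have hq : 0 < 1 + R := by linarith [hR.1]
  have a2 : HasDerivAt (fun R => Real.log (1 + R)) (1 / (1 + R)) R :=
    ((hasDerivAt_id R).const_add 1).log hq.ne'
  have a3 := (((d1 h0 h1 hR).neg.div_const (s ^ 2)).sub a2).div_const (2 * (1 + s ^ 2))
  refine a3.congr_deriv ?_
  field_simp
  ring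

theorem anD {s R : ℝ} (h0 : 0 < s) (h1 : s < 1) (hR : R ∈ Icc (0 : ℝ) 1) :
    AnalyticAt ℝ (dslope (H s) 0) R := by
  by_cases h : R = 0
  · subst h
    obtain ⟨p, hp⟩ := anH h0 h1 hR
    exact ⟨_, hp.has_fpower_series_dslope_fslope⟩
  · refine AnalyticAt.congr ?_ (dslope_eventuallyEq_slope_of_ne (H s) h).symm
    have e : slope (H s) 0 = fun R => (H s R - H s 0) / R := by
      funext R; rw [slope_def_field, sub_zero]
    rw [e]
    exact ((anH h0 h1 hR).sub analyticAt_const).div analyticAt_id h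

end ConA

theorem con : ConS := ⟨ConA.edge, ConA.uniq⟩

open ConA in
theorem pri : PriS := by
  intro s h0 h1
  have a1 : ∀ R ∈ Icc (0 : ℝ) 1,
      AnalyticAt ℝ (fun R => -Real.log (1 - s ^ 2 * R) / (2 * s ^ 2)) R :=
    fun R hR => (an1 h0 h1 hR).neg.div_const
  have a3 : ∀ R ∈ Icc (0 : ℝ) 1, AnalyticAt ℝ (fun R => -(1 - s ^ 2) * H s R) R :=
    fun R hR => analyticAt_const.mul (anH h0 h1 hR)
  obtain ⟨B1, b1⟩ := isCompact_Icc.exists_bound_of_continuousOn
    fun R hR => (a1 R hR).continuousAt.continuousWithinAt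
  obtain ⟨B2, b2⟩ := isCompact_Icc.exists_bound_of_continuousOn
    fun R hR => (anD h0 h1 hR).continuousAt.continuousWithinAt
  obtain ⟨B3, b3⟩ := isCompact_Icc.exists_bound_of_continuousOn
    fun R hR => (a3 R hR).continuousAt.continuousWithinAt
  refine ⟨_, _, _, max B1 (max B2 B3), fun R hR => ⟨⟨(a1 R hR).contDiffAt, (anD h0 h1 hR).contDiffAt,
    (a3 R hR).contDiffAt⟩, ⟨(b1 R hR).trans (le_max_left _ _),
    (b2 R hR).trans ((le_max_left _ _).trans (le_max_right _ _)),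
    (b3 R hR).trans ((le_max_right _ _).trans (le_max_right _ _))⟩, ?_, ?_, ?_⟩⟩
  · have hp := pos h0 h1 hR
    rw [((d1 h0 h1 hR).fun_neg.div_const (2 * s ^ 2)).deriv]
    field_simp
  · have e : (fun R => R * dslope (H s) 0 R) = fun R => H s R - H s 0 := by
      funext R
      simpa using sub_smul_dslope (H s) 0 R
    have c1 := (hasDerivAt_id R).mul (anD h0 h1 hR).differentiableAt.hasDerivAt
    have c2 : HasDerivAt (fun R => R * dslope (H s) 0 R)
        (R * ((1 - s ^ 2 * R)⁻¹ / (2 * (1 + R)))) R := by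
      rw [e]; exact (dH h0 h1 hR).sub_const _
    simpa using c1.unique c2
  · have hp := pos h0 h1 hR
    have hq : 0 < 1 + R := by linarith [hR.1]
    rw [((dH h0 h1 hR).const_mul (-(1 - s ^ 2))).deriv]
    field_simp
    ring

end Pool.Agent.MP_815c6c_an.L

end
end MrgPart2

-- ======== part 3: formerly Pool.Agent.MP_815c6c_an.L.Fin
section MrgPart3

/-! Planar p-harmonic maps: the end of the proof of the Liouville theorem. -/

set_option autoImplicit false

namespace Pool.Agent.MP_815c6c_an.L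

open Set Metric MeasureTheory Filter Topology Complex
open Q

namespace FinA

variable {n : ℕ} {s : ℝ}

theorem free (rig : RigS n s) (zf : ZfS n s) {F G : ℂ → Cn n} {R N : ℕ → ℝ} (hF : Sol s univ F)
    (b : Bl s F R N G) : ∀ z ≠ 0, G z ≠ 0 := by
  obtain ⟨z, hz⟩ := b.g1
  exact zf G b.sol (rig F G R N hF b) ⟨z, fun e => hz (e ▸ b.g0), hz⟩

/-- two sided bounds on the annuli of a blow down without zeros -/
theorem ann (h : Shell n s) (m : Mas n s) {G H : ℂ → Cn n} {R N : ℕ → ℝ} (hG : Sol s univ G)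
    (b : Bl s G R N H) (h0 : ∀ z ≠ 0, H z ≠ 0) : ∃ A : ℝ, 0 < A ∧ ∀ᶠ k in atTop, ∀ z : ℂ,
      R k ≤ ‖z‖ → ‖z‖ ≤ 2 * R k →
      N k ≤ A * ‖G z‖ ∧ ‖G z‖ ≤ A * N k ∧ ‖fderiv ℝ G z‖ ≤ A * N k / R k := by
  let K : Set ℂ := closedBall 0 2 \ ball 0 1
  have kc : IsCompact K := (isCompact_closedBall 0 2).diff isOpen_ball
  have k0 : ∀ z ∈ K, H z ≠ 0 := fun z hz => h0 z fun e => hz.2 (by simp [e])
  have hc : Continuous H := continuousOn_univ.1 b.sol.1
  obtain ⟨a, a0, ha⟩ := kc.exists_forall_le' hc.norm.continuousOn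
    fun z hz => norm_pos_iff.2 (k0 z hz)
  obtain ⟨a1, ha1⟩ := kc.exists_bound_of_continuousOn hc.continuousOn
  obtain ⟨a2, ha2⟩ := kc.exists_bound_of_continuousOn (f := fderiv ℝ H) fun z hz =>
    ((h.s1 univ H isOpen_univ b.sol z trivial (k0 z hz)).1.continuousAt_fderiv
      one_ne_zero).continuousWithinAt
  refine ⟨2 / a + (|a1| + a / 2) + (|a2| + 1), by positivity, ?_⟩
  filter_upwards [Metric.tendstoUniformlyOn_iff.1 (b.c0 K kc) _ (half_pos a0),
    Metric.tendstoUniformlyOn_iff.1 (b.c1 K kc k0) _ one_pos] with k e0 e1 z z1 z2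
  have r0 := b.r0 k
  have n0 := b.n0 k
  obtain ⟨w, rfl⟩ : ∃ w : ℂ, z = R k * w :=
    ⟨z / R k, by rw [mul_div_cancel₀ _ (ofReal_ne_zero.2 r0.ne')]⟩
  rw [norm_mul, norm_real, Real.norm_of_nonneg r0.le] at z1 z2
  have wK : w ∈ K := ⟨mem_closedBall_zero_iff.2 (le_of_mul_le_mul_left (by linarith) r0),
    fun e => absurd (mul_lt_of_lt_one_right r0 (mem_ball_zero_iff.1 e)) z1.not_gt⟩
  have c0 := e0 w wK
  have c1 := e1 w wK
  rw [dist_eq_norm] at c0 c1
  have d1 : a / 2 ≤ ‖sc (R k) (N k) G w‖ := by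
    linarith [norm_sub_norm_le (H w) (sc (R k) (N k) G w), ha w wK]
  have d2 : ‖sc (R k) (N k) G w‖ ≤ |a1| + a / 2 := by
    linarith [norm_sub_norm_le (sc (R k) (N k) G w) (H w), ha1 w wK, le_abs_self a1,
      norm_sub_rev (sc (R k) (N k) G w) (H w)]
  have d3 : ‖fderiv ℝ (sc (R k) (N k) G) w‖ ≤ |a2| + 1 := by
    linarith [norm_sub_norm_le (fderiv ℝ (sc (R k) (N k) G) w) (fderiv ℝ H w), ha2 w wK,
      le_abs_self a2, norm_sub_rev (fderiv ℝ (sc (R k) (N k) G) w) (fderiv ℝ H w)]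
  have d4 : ‖G (R k * w)‖ = N k * ‖sc (R k) (N k) G w‖ := by
    rw [sc, norm_smul, norm_inv, Real.norm_of_nonneg n0.le, mul_inv_cancel_left₀ n0.ne']
  have s0 : 0 < ‖sc (R k) (N k) G w‖ := (half_pos a0).trans_le d1
  have d5 := (m.sca G (R k) (N k) 1 w hG r0 n0).2.1
  rw [Dz, Dz, if_neg (norm_pos_iff.1 s0), if_neg (norm_pos_iff.1 (d4 ▸ mul_pos n0 s0))] at d5
  rw [d5, norm_smul, Real.norm_of_nonneg (div_pos r0 n0).le, div_mul_eq_mul_div,
    div_le_iff₀ n0] at d3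
  have p1 : 0 < 2 / a := by positivity
  have p2 : 0 < |a1| + a / 2 := by positivity
  have p3 : 0 < |a2| + 1 := by positivity
  refine ⟨?_, ?_, ?_⟩
  · have c2 : N k = 2 / a * (N k * (a / 2)) := by field_simp
    rw [d4]
    exact c2.trans_le (mul_le_mul (by linarith) (mul_le_mul_of_nonneg_left d1 n0.le)
      (by positivity) (by positivity))
  · rw [d4, mul_comm]
    exact mul_le_mul_of_nonneg_right (by linarith) n0.le
  · rw [le_div_iff₀' r0]
    exact d3.trans (mul_le_mul_of_nonneg_right (by linarith) n0.le)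

end FinA

open FinA

theorem fin (win : WinS) (sh : ShS) (n : ℕ) (s : ℝ) (s0 : 0 < s) (s1 : s < 1) (h : Shell n s)
    (m : Mas n s) (bd : BdS n s) (rig : RigS n s) (zf : ZfS n s) (pl : PlS n s)
    (one : OneS n s) : LiouS n s := by
  have e0 : 0 < s ^ 2 := by positivity
  refine ⟨s ^ 2 / 32, by positivity, fun F C hF hC => by_contra fun hc => ?_⟩
  obtain ⟨R, N, G, b, g1, -⟩ := bd F C _ (1 + s ^ 2 / 16) hF (not_forall.1 hc) (by positivity)
    (by linarith) hC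
  have g0 := free rig zf hF b
  obtain ⟨a, c, B, B0, pd, hp⟩ := pl G b.sol (rig F G R N hF b) g0
  obtain ⟨M, hM⟩ := win.2 a pd.ca pd.ne
  have M1 := one G a M b.sol b.g0 g0 (fun z hz => (hp z hz).2.2) hM
  obtain ⟨R', N', H, b', -, g2⟩ := bd G 1 (1 + s ^ 2 / 16) (1 + s ^ 2 / 8) b.sol
    ⟨1, b.g0 ▸ g0 1 one_ne_zero⟩ (by positivity) (by linarith) fun z => by rw [one_mul]; exact g1 z
  obtain ⟨A, A0, hA⟩ := ann h m b.sol b' (free rig zf b.sol b')
  have BA : 0 < B * A := mul_pos B0 A0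
  refine sh s (1 + s ^ 2 / 16) (1 + 2 * A + B * A) a c M s0 s1 (by positivity) (by linarith)
    (by positivity) pd hM M1 fun ρ₀ => ?_
  obtain ⟨k, k1, k2⟩ := (hA.and (b'.rt.eventually_ge_atTop ρ₀)).exists
  have r0 := b'.r0 k
  have n0 := b'.n0 k
  refine ⟨R' k, N' k, k2, n0, (g2 k).trans (mul_le_mul_of_nonneg_right (by linarith)
    (by positivity)), fun z z1 z2 => ?_⟩
  have z0 : z ≠ 0 := norm_pos_iff.1 (r0.trans_le z1)
  obtain ⟨c1, c2, c3⟩ := k1 z z1 z2
  obtain ⟨d1, d2, -⟩ := hp z z0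
  have d3 : ‖a z‖ ≤ ‖G z‖ :=
    (abs_le_of_sq_le_sq' (by linarith [sq_nonneg ‖c z‖]) (norm_nonneg _)).2
  have d4 : ‖G z‖ ≤ 2 * ‖a z‖ := And.right <| abs_le_of_sq_le_sq' (by
    linarith [pow_le_pow_left₀ (norm_nonneg _) (pd.le z z0) 2, sq_nonneg ‖a z‖]) (by positivity)
  refine ⟨c1.trans ?_, (d3.trans c2).trans (mul_le_mul_of_nonneg_right (by linarith) n0.le),
    d2.trans ((mul_le_mul_of_nonneg_left c3 B0.le).trans ?_)⟩
  · refine (mul_le_mul_of_nonneg_left d4 A0.le).trans ?_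
    rw [← mul_assoc]
    exact mul_le_mul_of_nonneg_right (by linarith) (norm_nonneg _)
  · rw [← mul_div_assoc, ← mul_assoc]
    exact div_le_div_of_nonneg_right (mul_le_mul_of_nonneg_right (by linarith) n0.le) r0.le

end Pool.Agent.MP_815c6c_an.L

end MrgPart3

-- ======== part 4: formerly Pool.Agent.MP_815c6c_an.L.Mas
section MrgPart4

/-! Planar p-harmonic maps: the mass of an entire solution. -/

set_option autoImplicit false

noncomputable section

namespace Pool.Agent.MP_815c6c_an.L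

open Set Metric MeasureTheory Filter Topology Complex
open scoped ContDiff ComplexConjugate
open Q

namespace MasA

variable {n : ℕ} {s : ℝ} {F : ℂ → Cn n}

theorem Dz_zero {z : ℂ} (h : F z = 0) : Dz F z = 0 := by rw [Dz, if_pos h]
theorem Dz_ne {z : ℂ} (h : F z ≠ 0) : Dz F z = fderiv ℝ F z := by rw [Dz, if_neg h]

theorem op (h : Shell n s) (hF : Sol s univ F) (z : ℂ) (hz : F z ≠ 0) :
    Op s (F z) (Dz F z) = 0 := by
  rw [Dz_ne hz]; exact (h.s1 univ F isOpen_univ hF z trivial hz).2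

theorem X2_nonneg (k : Kit) (y : ℝ) (w : Cn n) (N : L (Cn n)) : 0 ≤ X2 y w N := by
  obtain ⟨a, b, c, -⟩ := (k.bnd n).xy y w N
  have := b.le.trans c
  rw [X2]; positivity

theorem low (k : Kit) (h0 : 0 < s) (h1 : s < 1) (h : Shell n s) (hF : Sol s univ F) (y : ℝ)
    (z : ℂ) (hy : 0 < y) : 0 ≤ dn y F z ∧
    2 * (y / (1 + ra y (F z))) * ‖F z‖ ^ 2 * Nn (F z) (Dz F z) ≤ dn y F z ∧
    (1 - s) * (y * ‖F z‖ ^ 2) * X2 y (F z) (Dz F z) ≤ dn y F z := by
  by_cases hz : F z = 0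
  · simp [dn, dl, Dz_zero hz, hz]
  · have m := k.mon n s y (F z) (Dz F z) h0 h1 hy hz
    rw [← (k.dl n).2.2 s y _ _ hz (op h hF z hz)] at m
    have a : 0 ≤ 2 * (y / (1 + ra y (F z))) * ‖F z‖ ^ 2 * Nn (F z) (Dz F z) := by
      have := (one_le_ra (F z) y).trans' zero_le_one
      rw [Nn]; positivity
    have b : 0 ≤ (1 - s) * (y * ‖F z‖ ^ 2) * X2 y (F z) (Dz F z) :=
      mul_nonneg (mul_nonneg (by linarith) (by positivity)) (X2_nonneg k _ _ _)
    rw [dn]
    exact ⟨by linarith, by linarith, by linarith⟩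

theorem sto (k : Kit) (h : Shell n s) (hF : Sol s univ F) (y : ℝ) (η : ℂ → ℝ) (hη : Tf univ η) :
    Integrable (fun z => η z ^ 2 * dn y F z) ∧ Integrable (fl y F η) ∧
      ms y F η = -∫ z, fl y F η z := by
  have hs : HasCompactSupport fun z => η z ^ 2 :=
    hη.2.1.comp_left (g := fun t : ℝ => t ^ 2) (by simp)
  obtain ⟨a, b, c⟩ := (h.s2 univ F isOpen_univ hF).2 (La y) (fun z => η z ^ 2)
    (((k.dl n).1 y).of_le (by simp)) (hη.1.pow 2) hs (subset_univ _)
  have e : (fun z => fderiv ℝ (fun z => η z ^ 2) z 1 * La y (F z) (Dz F z I) -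
      fderiv ℝ (fun z => η z ^ 2) z I * La y (F z) (Dz F z 1)) = fl y F η := by
    ext z
    have d := ((hη.1.differentiable one_ne_zero z).hasFDerivAt.pow 2).fderiv
    rw [d, fl, wd]
    simp
    ring
  rw [e] at b c
  exact ⟨a, b, c⟩

theorem wd_le (α : L ℝ) (β : ℂ → ℝ) (B : ℝ) (h1 : |β 1| ≤ B) (h2 : |β I| ≤ B) :
    |wd α β| ≤ 2 * ‖α‖ * B := by
  obtain ⟨a, b, -⟩ := L_norm α
  rw [Real.norm_eq_abs] at a b
  have c := mul_le_mul a h2 (abs_nonneg _) (norm_nonneg _)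
  have d := mul_le_mul b h1 (abs_nonneg _) (norm_nonneg _)
  rw [wd]
  refine (abs_sub _ _).trans ?_
  rw [abs_mul, abs_mul]
  linarith

theorem fl_le (k : Kit) (h0 : 0 < s) (h1 : s < 1) (h : Shell n s) (hF : Sol s univ F) (y : ℝ)
    (η : ℂ → ℝ) (z : ℂ) (hy : 0 < y) : |fl y F η z| ≤
      40 * |η z| * ‖fderiv ℝ η z‖ * (th (y * ‖F z‖ ^ 2) * √(Y2 (F z) (Dz F z))) := by
  by_cases hz : F z = 0
  · have := ((k.bnd n).th0 (y * ‖F z‖ ^ 2) (by positivity)).1
    have e : fl y F η z = 0 := by simp [fl, wd, Dz_zero hz]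
    rw [e, abs_zero]
    positivity
  · have a := fun X => ((k.bnd n).la s y (F z) (Dz F z) X (abs_le.2 ⟨by linarith, h1.le⟩) hy hz
      (op h hF z hz)).1
    have b := wd_le (fderiv ℝ η z) (fun X => La y (F z) (Dz F z X))
      (10 * th (y * ‖F z‖ ^ 2) * √(Y2 (F z) (Dz F z))) (by simpa using a 1) (by simpa using a I)
    rw [fl, abs_mul, abs_mul, abs_two]
    refine (mul_le_mul_of_nonneg_left b (by positivity)).trans_eq ?_
    ring

theorem m_bil {f g : ℂ → Cn n} (hf : Measurable f) (hg : Measurable g) :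
    Measurable fun z => bil (f z) (g z) :=
  (continuous_bil continuous_fst continuous_snd).measurable.comp (hf.prodMk hg)

theorem m_cj {f : ℂ → Cn n} (hf : Measurable f) : Measurable fun z => cj (f z) :=
  (continuous_cj continuous_id).measurable.comp hf

theorem mea (hF : Sol s univ F) : Measurable (fun z => Y2 (F z) (Dz F z)) ∧
    ∀ y, Measurable fun z => X2 y (F z) (Dz F z) := by
  classical
  have c : Continuous F := continuousOn_univ.1 hF.1
  have f : Measurable F := c.measurable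
  have d : ∀ X, Measurable fun z => Dz F z X := fun X => by
    have e : (fun z => Dz F z X) = fun z => if F z = 0 then 0 else fderiv ℝ F z X := by
      ext1 z
      by_cases hz : F z = 0
      · rw [Dz_zero hz, if_pos hz]; rfl
      · rw [Dz_ne hz, if_neg hz]
    rw [e]
    exact Measurable.ite (f (measurableSet_singleton 0)) measurable_const
      (measurable_fderiv_apply_const ℝ F X)
  have z1 : Measurable fun z => zd (Dz F z) :=
    ((d 1).sub ((d I).const_smul I)).const_smul (1 / 2 : ℂ)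
  have e2 : Measurable fun z => ((‖F z‖ ^ 2 : ℝ) : ℂ) :=
    measurable_ofReal.comp (f.norm.pow_const 2)
  have j : Measurable fun z => J2 (F z) := (contDiff_J2.continuous.comp c).measurable
  have p : Measurable fun z => et (F z) (Dz F z) :=
    ((m_bil z1 f).div e2).sub (((m_bil z1 (m_cj f)).div e2).mul ((m_bil f f).div e2))
  have q : Measurable fun z => Z2 (F z) (Dz F z) :=
    (p.norm.pow_const 2).div (j.div (f.norm.pow_const 4))
  have l : Measurable fun z => lz (F z) (Dz F z) :=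
    ((measurable_ofReal.comp (f.inner (d 1))).sub
      ((measurable_ofReal.comp (f.inner (d I))).const_mul I)).div (e2.const_mul 2)
  refine ⟨q.add (l.norm.pow_const 2), fun y => ?_⟩
  have a : Measurable fun z => ra y (F z) := ((j.const_mul _).const_add _).sqrt
  have b : Measurable fun z => rb y (F z) :=
    (((f.norm.pow_const 4).const_mul _).const_add _).sqrt
  exact ((a.mul (a.const_add 1)).inv.mul q).add
    ((b.mul (b.const_add 1)).inv.mul (l.norm.pow_const 2))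

theorem sca (k : Kit) (h : Shell n s) (R N y : ℝ) (z : ℂ) (hF : Sol s univ F) (hR : 0 < R)
    (hN : 0 < N) : Sol s univ (sc R N F) ∧ Dz (sc R N F) z = (R / N) • Dz F (R * z) ∧
    dn (y * N ^ 2) (sc R N F) z = R ^ 2 * dn y F (R * z) := by
  have a : Dz (sc R N F) z = (R / N) • Dz F (R * z) := by
    by_cases hz : F (R * z) = 0
    · rw [Dz_zero hz, Dz_zero (by simp [sc, hz]), smul_zero]
    · have hz' : sc R N F z ≠ 0 := smul_ne_zero (inv_pos.2 hN).ne' hz
      rw [Dz_ne hz, Dz_ne hz']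
      have d := ((h.s1 univ F isOpen_univ hF _ trivial hz).1.differentiableAt
        one_ne_zero).hasFDerivAt
      have e : HasFDerivAt (fun z : ℂ => (R : ℂ) * z) (R • ContinuousLinearMap.id ℝ ℂ) z :=
        (hasFDerivAt_id (𝕜 := ℝ) z).const_smul R
      have g : HasFDerivAt (sc R N F) _ z := (d.comp z e).const_smul N⁻¹
      rw [g.fderiv, ContinuousLinearMap.comp_smul, ContinuousLinearMap.comp_id, smul_smul,
        div_eq_inv_mul]
  refine ⟨?_, a, ?_⟩
  · have := h.s5 univ univ F 0 R N⁻¹ hR (inv_pos.2 hN) (fun _ _ => trivial) hF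
    simp only [zero_add] at this
    exact this
  · rw [dn, a, sc, (k.dl n).2.1 _ _ _ _ _ (inv_pos.2 hN), dn]
    have e1 : y * N ^ 2 * N⁻¹ ^ 2 = y := by field_simp
    have e2 : R / N / N⁻¹ = R := by field_simp
    rw [e1, e2]

theorem young {a b κ : ℝ} (hκ : 0 < κ) : 160 * a * b ≤ κ * a ^ 2 / 2 + 12800 * b ^ 2 / κ := by
  have e : κ * a ^ 2 / 2 + 12800 * b ^ 2 / κ - 160 * a * b = (κ * a - 160 * b) ^ 2 / (2 * κ) := by
    field_simp; ring
  have : 0 ≤ (κ * a - 160 * b) ^ 2 / (2 * κ) := by positivity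
  linarith

theorem diff_le (k : Kit) (h0 : 0 < s) (h1 : s < 1) (h : Shell n s) (hF : Sol s univ F)
    (η : ℂ → ℝ) (y y' c : ℝ) (hy : 0 < y) (hy' : y ≤ y') (hc : 0 < c) (z : ℂ)
    (hz : fderiv ℝ η z ≠ 0 → c ≤ ‖F z‖ ^ 2) : fl y' F η z - fl y F η z ≤
      η z ^ 2 * dn y F z / 2 + 12800 / ((1 - s) * (y * c)) * ‖fderiv ℝ η z‖ ^ 2 := by
  obtain ⟨l0, -, l2⟩ := low k h0 h1 h hF y z hy
  have hs : 0 < 1 - s := by linarith
  by_cases hd : fderiv ℝ η z = 0
  · have e : ∀ t, fl t F η z = 0 := fun t => by simp [fl, wd, hd]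
    rw [e, e, sub_self]
    positivity
  have hc' := hz hd
  have hw : F z ≠ 0 := by
    intro e
    rw [e, norm_zero] at hc'
    linarith
  have ho := op h hF z hw
  have hs1 : |s| ≤ 1 := abs_le.2 ⟨by linarith, h1.le⟩
  have hX := X2_nonneg k y (F z) (Dz F z)
  have a : ∀ X : ℂ, ‖X‖ = 1 → |La y' (F z) (Dz F z X) - La y (F z) (Dz F z X)| ≤
      40 * √(X2 y (F z) (Dz F z)) := fun X hX1 => by
    have b1 := ((k.bnd n).la s y (F z) (Dz F z) X hs1 hy hw ho).2
    have b2 := ((k.bnd n).la s y' (F z) (Dz F z) X hs1 (hy.trans_le hy') hw ho).2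
    have b3 := Real.sqrt_le_sqrt ((k.bnd n).anti y y' (F z) (Dz F z) hy hy').1
    rw [hX1] at b1 b2
    rw [abs_le] at b1 b2 ⊢
    constructor <;> linarith [b1.1, b1.2, b2.1, b2.2]
  have b := wd_le (fderiv ℝ η z) (fun X => La y' (F z) (Dz F z X) - La y (F z) (Dz F z X)) _
    (a 1 norm_one) (a I norm_I)
  have e : fl y' F η z - fl y F η z = 2 * η z * wd (fderiv ℝ η z)
      (fun X => La y' (F z) (Dz F z X) - La y (F z) (Dz F z X)) := by
    simp only [fl, wd]; ring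
  have g : fl y' F η z - fl y F η z ≤
      160 * (|η z| * √(X2 y (F z) (Dz F z))) * ‖fderiv ℝ η z‖ := by
    refine (le_abs_self _).trans ?_
    rw [e, abs_mul, abs_mul, abs_two]
    refine (mul_le_mul_of_nonneg_left b (by positivity)).trans_eq ?_
    ring
  refine g.trans ((young (κ := (1 - s) * (y * c)) (by positivity)).trans ?_)
  rw [mul_pow, sq_abs, Real.sq_sqrt hX]
  have m : (1 - s) * (y * c) * X2 y (F z) (Dz F z) ≤ dn y F z :=
    le_trans (by gcongr) l2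
  have m' := mul_le_mul_of_nonneg_left m (sq_nonneg (η z))
  have e' : 12800 * ‖fderiv ℝ η z‖ ^ 2 / ((1 - s) * (y * c)) =
      12800 / ((1 - s) * (y * c)) * ‖fderiv ℝ η z‖ ^ 2 := by ring
  rw [e']
  nlinarith

theorem absorb {f g u v : ℂ → ℝ} {K : ℝ} (hf : Integrable f) (hg : Integrable g)
    (hu : Integrable u) (hv : Integrable v) (h : ∀ z, g z - f z ≤ u z / 2 + K * v z) :
    (∫ z, g z) - ∫ z, f z ≤ (∫ z, u z) / 2 + K * ∫ z, v z := by
  rw [← integral_sub hg hf, ← integral_div, ← integral_const_mul,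
    ← integral_add (hu.div_const 2) (hv.const_mul K)]
  exact integral_mono (hg.sub hf) ((hu.div_const 2).add (hv.const_mul K)) h

theorem int_sq {η : ℂ → ℝ} (hη : Tf univ η) : Integrable fun z => ‖fderiv ℝ η z‖ ^ 2 := by
  have a : Continuous fun z => ‖fderiv ℝ η z‖ ^ 2 :=
    (hη.1.continuous_fderiv one_ne_zero).norm.pow 2
  have b : HasCompactSupport fun z => ‖fderiv ℝ η z‖ ^ 2 :=
    (hη.2.1.fderiv ℝ).comp_left (g := fun t : L ℝ => ‖t‖ ^ 2) (by simp)
  exact a.integrable_of_hasCompactSupport b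

theorem tra (k : Kit) (h0 : 0 < s) (h1 : s < 1) (h : Shell n s) (η : ℂ → ℝ) (y y' c : ℝ)
    (hF : Sol s univ F) (hη : Tf univ η) (hy : 0 < y) (hy' : y ≤ y') (hc : 0 < c)
    (hz : ∀ z, fderiv ℝ η z ≠ 0 → c ≤ ‖F z‖ ^ 2) :
    ms y F η ≤ 2 * ms y' F η + 25600 / (1 - s) * (∫ z, ‖fderiv ℝ η z‖ ^ 2) / (y * c) := by
  obtain ⟨a, b, e⟩ := sto k h hF y η hη
  obtain ⟨-, b', e'⟩ := sto k h hF y' η hη
  have i := int_sq hη
  have m := absorb b b' a i fun z => diff_le k h0 h1 h hF η y y' c hy hy' hc z (hz z)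
  have r : (∫ z, η z ^ 2 * dn y F z) = ms y F η := rfl
  rw [r] at m
  have hs : 0 < 1 - s := by linarith
  generalize (∫ z, ‖fderiv ℝ η z‖ ^ 2) = A at m ⊢
  have q : 25600 / (1 - s) * A / (y * c) = 2 * (12800 / ((1 - s) * (y * c)) * A) := by
    field_simp; ring
  rw [q]
  generalize ms y F η = u at *
  generalize ms y' F η = u' at *
  generalize (∫ z, fl y F η z) = v at *
  generalize (∫ z, fl y' F η z) = v' at *
  linarith

end MasA

theorem mas (k : Kit) (n : ℕ) (s : ℝ) (h0 : 0 < s) (h1 : s < 1) (h : Shell n s) : Mas n s where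
  op _ hF := MasA.op h hF
  low _ hF := MasA.low k h0 h1 h hF
  sto _ hF := MasA.sto k h hF
  fl _ hF := MasA.fl_le k h0 h1 h hF
  mea _ hF := MasA.mea hF
  sca _ := MasA.sca k h
  tra := ⟨25600 / (1 - s), div_nonneg (by norm_num) (by linarith),
    fun _ => MasA.tra k h0 h1 h⟩

end Pool.Agent.MP_815c6c_an.L

end
end MrgPart4

-- ======== part 5: formerly Pool.Agent.MP_815c6c_an.L.Mon
section MrgPart5

/-! The lower bound for the density. -/

set_option autoImplicit false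

noncomputable section

namespace Pool.Agent.MP_815c6c_an.L

open Complex
open scoped ComplexConjugate
open Q

namespace MonA

theorem sq_bd (s κ T : ℝ) (s0 : 0 < s) (s1 : s < 1) (k0 : 0 ≤ κ) (k1 : κ ≤ 1) (t0 : 0 ≤ T)
    (t1 : T ≤ 1) : (1 - T ^ 2) * (s - κ * T) ^ 2 ≤ 2 * (1 - κ * T ^ 2) * (1 - s * T) := by
  have a0 : 0 ≤ κ * T := mul_nonneg k0 t0
  have a1 : κ * T ≤ 1 := mul_le_one₀ k1 t0 t1
  have a2 : s * T ≤ s := mul_le_of_le_one_right s0.le t1
  have a3 : s * T ≤ T := mul_le_of_le_one_left t0 s1.le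
  have a4 : κ * T ^ 2 ≤ κ * T := by nlinarith
  have a5 : κ * T ^ 2 ≤ T ^ 2 := mul_le_of_le_one_left (sq_nonneg _) k1
  have a6 : T ^ 2 ≤ 1 := pow_le_one₀ t0 t1
  rcases le_total (κ * T) s with h | h
  · have b1 : (s - κ * T) ^ 2 ≤ 1 - κ * T ^ 2 := by nlinarith
    have b2 : 1 - T ^ 2 ≤ 2 * (1 - s * T) := by nlinarith [sq_nonneg (1 - T)]
    calc _ ≤ 2 * (1 - s * T) * (1 - κ * T ^ 2) :=
          mul_le_mul b2 b1 (sq_nonneg _) (by linarith)
      _ = _ := by ring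
  · have b1 : (s - κ * T) ^ 2 ≤ 1 - s * T := by nlinarith
    have b2 : 1 - T ^ 2 ≤ 2 * (1 - κ * T ^ 2) := by linarith
    exact mul_le_mul b2 b1 (sq_nonneg _) (by linarith)

theorem core (s κ T C l e Z ρ σ r : ℝ) (s0 : 0 < s) (s1 : s < 1) (k0 : 0 ≤ κ) (k1 : κ ≤ 1)
    (t0 : 0 ≤ T) (hC : C = 1 - T ^ 2) (c0 : 0 ≤ C) (hr : r = 1 - κ * T ^ 2) (z0 : 0 ≤ Z)
    (he : e ^ 2 = C * Z) (hσ : σ ≤ l * T * e) (hρ : -(l ^ 2 * T) ≤ ρ) :
    (1 - s) / 2 * (Z + r * l ^ 2) ≤
      -2 * κ * (σ + s * C * ρ) + Z - s ^ 2 * C * l ^ 2 + 4 * r * (l ^ 2 + s * ρ) := by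
  have t1 : T ≤ 1 := by nlinarith
  have a1 : κ * T ≤ 1 := mul_le_one₀ k1 t0 t1
  have a5 : κ * T ^ 2 ≤ T ^ 2 := mul_le_of_le_one_left (sq_nonneg _) k1
  have cr : C ≤ r := by linarith
  have kc : κ * C ≤ C := mul_le_of_le_one_left c0 k1
  have l0 := sq_nonneg l
  have h1 : (1 - s) * r ≤ r * (1 - s * T) := by
    have : s * T ≤ s := mul_le_of_le_one_right s0.le t1
    nlinarith
  have h2 := sq_bd s κ T s0 s1 k0 k1 t0 t1
  rw [← hC, ← hr] at h2
  have h3 : (κ * T) ^ 2 * C ≤ r :=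
    (mul_le_of_le_one_left c0 (pow_le_one₀ (mul_nonneg k0 t0) a1)).trans cr
  have h4 : 2 * (κ * (l * T * e)) ≤ (1 + s) / 2 * Z + (2 - s) * ((κ * T) ^ 2 * C * l ^ 2) := by
    have p0 : 0 ≤ (κ * T) ^ 2 * C * l ^ 2 := by positivity
    have p1 : 0 ≤ (1 + s) / 2 * Z := by positivity
    have p2 : 0 ≤ (2 - s) * ((κ * T) ^ 2 * C * l ^ 2) := mul_nonneg (by linarith) p0
    refine (abs_le_of_sq_le_sq' ?_ (add_nonneg p1 p2)).2
    have e1 : (2 * (κ * (l * T * e))) ^ 2 = 4 * (Z * ((κ * T) ^ 2 * C * l ^ 2)) := by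
      linear_combination (4 * κ ^ 2 * l ^ 2 * T ^ 2) * he
    have e2 : 0 ≤ s * (1 - s) * (Z * ((κ * T) ^ 2 * C * l ^ 2)) :=
      mul_nonneg (mul_nonneg s0.le (by linarith)) (mul_nonneg z0 p0)
    rw [e1]
    nlinarith [sq_nonneg ((1 + s) / 2 * Z - (2 - s) * ((κ * T) ^ 2 * C * l ^ 2))]
  have h5 := mul_le_mul_of_nonneg_left hσ k0
  have h6 := mul_le_mul_of_nonneg_left hρ
    (mul_nonneg s0.le (show 0 ≤ 4 * r - 2 * (κ * C) by linarith))
  have h7 : 0 ≤ l ^ 2 * (4 * r * (1 - s * T) - C * (s - κ * T) ^ 2 -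
      (1 - s) * ((κ * T) ^ 2 * C) - (1 - s) / 2 * r) := by
    refine mul_nonneg l0 ?_
    have := mul_le_mul_of_nonneg_left h3 (show 0 ≤ 1 - s by linarith)
    have : 0 ≤ (1 - s) * r := mul_nonneg (by linarith) (by linarith)
    linarith
  linarith

end MonA

theorem mon : MonS := by
  intro n s y w N s0 s1 y0 hw
  have hE : 0 < ‖w‖ ^ 2 := pow_pos (norm_pos_iff.2 hw) 2
  have a1 := one_le_ra w y
  have ab := ra_le_rb w y
  have c0 := C2_nonneg w
  have hC := C2_eq w hw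
  have ha : ra y w ^ 2 = 1 + (y * ‖w‖ ^ 2) ^ 2 * C2 w := by rw [ra_sq, J2_eq w hw]; ring
  have hb : rb y w ^ 2 = 1 + (y * ‖w‖ ^ 2) ^ 2 := by rw [rb_sq]; ring
  have he : ‖et w N‖ ^ 2 = C2 w * Z2 w N := by
    rcases eq_or_ne (C2 w) 0 with h | h
    · rw [et_zero w N hw h, h]; simp
    · rw [Z2]; field_simp
  have z0 : 0 ≤ Z2 w N := div_nonneg (sq_nonneg _) c0
  have hσ : (lz w N * ph w * conj (et w N)).re ≤ ‖lz w N‖ * ‖ph w‖ * ‖et w N‖ :=
    (re_le_norm _).trans (by rw [norm_mul, norm_mul, Complex.norm_conj])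
  have hρ : -(‖lz w N‖ ^ 2 * ‖ph w‖) ≤ (lz w N ^ 2 * conj (ph w)).re := by
    have := (abs_le.1 (abs_re_le_norm (lz w N ^ 2 * conj (ph w)))).1
    rwa [norm_mul, norm_pow, Complex.norm_conj] at this
  have e0 : 2 * (y / (1 + ra y w)) * ‖w‖ ^ 2 = 2 * (y * ‖w‖ ^ 2) * (1 + ra y w)⁻¹ := by ring
  have x0 : 0 < y * ‖w‖ ^ 2 := mul_pos y0 hE
  rw [mu, X2, gram_eq w N hw, add_re, re_ofReal_mul, e0, he, uu, vv]
  generalize y * ‖w‖ ^ 2 = x at *
  generalize ra y w = a at *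
  generalize rb y w = b at *
  have a0 : 0 < a := by linarith
  have b0 : 0 < b := by linarith
  have hx : x ^ 2 = b ^ 2 - 1 := by linarith
  have hT : x ^ 2 * ‖ph w‖ ^ 2 = b ^ 2 - a ^ 2 := by rw [ha, hb, hC]; ring
  have k1 : x ^ 2 * (b * (1 + b))⁻¹ * (1 + (a + b)⁻¹) ≤ 1 := by
    rw [hx, show (b ^ 2 - 1) * (b * (1 + b))⁻¹ * (1 + (a + b)⁻¹)
      = (b - 1) * (a + b + 1) / (b * (a + b)) by field_simp; ring, div_le_one (by positivity)]
    nlinarith
  have hr : a * (1 + a) * (b * (1 + b))⁻¹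
      = 1 - x ^ 2 * (b * (1 + b))⁻¹ * (1 + (a + b)⁻¹) * ‖ph w‖ ^ 2 := by
    rw [show x ^ 2 * (b * (1 + b))⁻¹ * (1 + (a + b)⁻¹) * ‖ph w‖ ^ 2
      = x ^ 2 * ‖ph w‖ ^ 2 * ((b * (1 + b))⁻¹ * (1 + (a + b)⁻¹)) by ring, hT]
    field_simp
    ring
  have key := mul_le_mul_of_nonneg_left (MonA.core s _ _ _ _ _ _ _ _ _ s0 s1 (by positivity) k1
    (norm_nonneg _) hC c0 hr z0 he hσ hρ) (show 0 ≤ 2 * x * (a * (1 + a))⁻¹ by positivity)
  have e1 : x ^ 2 * (C2 w * Z2 w N) / (a * (1 + a) ^ 2)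
      = ((1 + a)⁻¹ - (a * (1 + a))⁻¹) * Z2 w N := by
    rw [← mul_assoc, show x ^ 2 * C2 w = a ^ 2 - 1 by linarith]
    field_simp
    ring
  have e2 : (a * (1 + a))⁻¹ * (a * (1 + a)) = 1 := inv_mul_cancel₀ (by positivity)
  rw [e1]
  generalize (a * (1 + a))⁻¹ = u at *
  generalize (b * (1 + b))⁻¹ = v at *
  generalize a * (1 + a) = A at *
  generalize (lz w N * ph w * conj (et w N)).re = σ at *
  generalize (lz w N ^ 2 * conj (ph w)).re = ρ at *
  linear_combination key + (x * v * (8 * (‖lz w N‖ ^ 2 + s * ρ) - (1 - s) * ‖lz w N‖ ^ 2)) * e2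

end Pool.Agent.MP_815c6c_an.L

end
end MrgPart5

-- ======== part 6: formerly Pool.Agent.MP_815c6c_an.L.Nf
section MrgPart6

/-! Planar p-harmonic maps: the invariant `J2` of a rigid solution has no zero or vanishes. -/

set_option autoImplicit false

noncomputable section

namespace Pool.Agent.MP_815c6c_an.L

open Set Metric MeasureTheory Filter Topology Complex
open scoped ContDiff ComplexConjugate
open Q

namespace NfA

lemma grow {c : ℝ} (hc : 0 < c) (a b K : ℝ) :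
    ∀ᶠ t in atTop, 0 ≤ 2 * t + a ∧ (2 * t + b) * K < c * (2 * t + a) ^ 2 := by
  filter_upwards [eventually_ge_atTop ((max 1 (((1 + |b - a|) * |K| + 1) / c) - a) / 2)] with t ht
  have h0 : max 1 (((1 + |b - a|) * |K| + 1) / c) ≤ 2 * t + a := by linarith
  have h1 := (le_max_left _ _).trans h0
  have h2 := (div_le_iff₀ hc).1 ((le_max_right _ _).trans h0)
  have e : 2 * t + b = (2 * t + a) + (b - a) := by ring
  rw [e]
  generalize 2 * t + a = u at *
  refine ⟨by linarith, ?_⟩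
  have h3 : (u + (b - a)) * K ≤ (u + |b - a|) * |K| := by
    refine (le_abs_self _).trans ?_
    rw [abs_mul]
    refine mul_le_mul_of_nonneg_right ((abs_add_le _ _).trans ?_) (abs_nonneg _)
    rw [abs_of_nonneg (by linarith : 0 ≤ u)]
  have h4 : (u + |b - a|) * |K| ≤ u * ((1 + |b - a|) * |K|) := by
    rw [← mul_assoc]
    refine mul_le_mul_of_nonneg_right ?_ (abs_nonneg _)
    nlinarith [abs_nonneg (b - a)]
  nlinarith [mul_le_mul_of_nonneg_left h2 (by linarith : 0 ≤ u)]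

variable {n : ℕ} {s : ℝ}

/-- the energy of the logarithm is bounded -/
lemma energy (k : Kit) (s0 : 0 < s) (s1 : s < 1) (sh : Shell n s) (m : Mas n s) {G : ℂ → Cn n}
    (hG : Sol s univ G) (hr : Rg G) (h0 : ∀ z ≠ 0, G z ≠ 0) {x : ℂ} (hx : x ≠ 0) :
    ∃ K : ℝ, ∀ y, 1 ≤ y →
      ContDiffOn ℝ 1 (fun z => Real.log (1 + y ^ 2 * J2 (G z))) (ball x (‖x‖ / 4)) ∧
      IntegrableOn (fun z => ‖fderiv ℝ (fun z => Real.log (1 + y ^ 2 * J2 (G z))) z‖ ^ 2)
        (ball x (‖x‖ / 4)) ∧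
      en (ball x (‖x‖ / 4)) (fderiv ℝ fun z => Real.log (1 + y ^ 2 * J2 (G z))) ≤ K := by
  have hd := norm_pos_iff.2 hx
  obtain ⟨C, hC, -, -, -, hlog⟩ := k.log
  let β : ContDiffBump x := ⟨‖x‖ / 4, ‖x‖ / 2, by positivity, by linarith⟩
  have hsub : closedBall x (‖x‖ / 2) ⊆ {0}ᶜ := fun z hz hz0 => by
    rw [mem_singleton_iff.1 hz0, mem_closedBall, dist_comm, dist_zero_right] at hz
    linarith
  have hbs : ball x (‖x‖ / 4) ⊆ closedBall x (‖x‖ / 2) :=
    ball_subset_closedBall.trans (closedBall_subset_closedBall (by linarith))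
  have hη : Tf {0}ᶜ β := ⟨β.contDiff, β.hasCompactSupport, β.tsupport_eq ▸ hsub⟩
  have hη' : Tf univ β := ⟨hη.1, hη.2.1, subset_univ _⟩
  obtain ⟨C1, hC1⟩ := hr β hη ⟨tsupport β, β.hasCompactSupport,
    fun z hz => h0 z (hη.2.2 hz), fun z hz => fderiv_of_notMem_tsupport ℝ hz⟩
  have c1 : ContDiffOn ℝ 1 G {0}ᶜ := fun z hz =>
    (sh.s1 univ G isOpen_univ hG z trivial (h0 z hz)).1.contDiffWithinAt
  have cf : ContinuousOn (fderiv ℝ G) {0}ᶜ :=
    c1.continuousOn_fderiv_of_isOpen isOpen_compl_singleton le_rfl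
  have cG : Continuous G := continuousOn_univ.1 hG.1
  obtain ⟨E, hE⟩ := (isCompact_closedBall x (‖x‖ / 2)).exists_bound_of_continuousOn
    (f := fun z => ‖G z‖ ^ 2) (cG.norm.pow 2).continuousOn
  obtain ⟨B, hB⟩ := (isCompact_closedBall x (‖x‖ / 2)).exists_bound_of_continuousOn
    (f := fun z => 2 * ‖fderiv ℝ G z‖ ^ 2 / ‖G z‖ ^ 2)
    ((((cf.mono hsub).norm.pow 2).const_mul 2).div (cG.norm.pow 2).continuousOn fun z hz =>
      pow_ne_zero 2 (norm_ne_zero_iff.2 (h0 z (hsub hz))))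
  have E0 : 0 ≤ E := (norm_nonneg _).trans (hE x (mem_closedBall_self (by positivity)))
  have hs : 0 < 1 - s := sub_pos.2 s1
  refine ⟨C * E / (1 - s) * C1 + ∫ _ in ball x (‖x‖ / 4), C * B, fun y hy => ?_⟩
  have y0 : 0 < y := one_pos.trans_le hy
  obtain ⟨hsm, hb⟩ := hlog n y y0
  have cw : ContDiffOn ℝ 1 (fun z => Real.log (1 + y ^ 2 * J2 (G z))) {0}ᶜ :=
    (hsm.of_le (by simp)).comp_contDiffOn c1
  have iw : IntegrableOn (fun z => ‖fderiv ℝ (fun z => Real.log (1 + y ^ 2 * J2 (G z))) z‖ ^ 2)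
      (ball x (‖x‖ / 4)) :=
    (((((cw.continuousOn_fderiv_of_isOpen isOpen_compl_singleton le_rfl).mono hsub).norm.pow
      2).integrableOn_compact (isCompact_closedBall _ _))).mono_set hbs
  refine ⟨cw.mono (hbs.trans hsub), iw, ?_⟩
  have i1 := (m.sto G hG y β hη').1
  have i2 : IntegrableOn (fun _ : ℂ => C * B) (ball x (‖x‖ / 4)) :=
    integrableOn_const measure_ball_lt_top.ne
  have pt : ∀ z ∈ ball x (‖x‖ / 4),
      ‖fderiv ℝ (fun z => Real.log (1 + y ^ 2 * J2 (G z))) z‖ ^ 2 ≤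
        C * E / (1 - s) * y * (β z ^ 2 * dn y G z) + C * B := fun z hz => by
    have z0 : z ≠ 0 := hsub (hbs hz)
    have g0 := h0 z z0
    obtain ⟨a1, a2⟩ := sh.s1 univ G isOpen_univ hG z trivial g0
    have eD : Dz G z = fderiv ℝ G z := if_neg g0
    have e : fderiv ℝ (fun z => Real.log (1 + y ^ 2 * J2 (G z))) z =
        (fderiv ℝ (fun w : Cn n => Real.log (1 + y ^ 2 * J2 w)) (G z)).comp (fderiv ℝ G z) :=
      fderiv_comp z (hsm.differentiable (by simp) (G z)) (a1.differentiableAt one_ne_zero)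
    have b1 := (hb s (G z) (fderiv ℝ G z) (abs_le.2 ⟨by linarith, s1.le⟩) g0 a2).2
    have b2 := (m.low G hG y z y0).2.2
    obtain ⟨x1, x2, x3, -, x5, -, x7⟩ := (k.bnd n).xy y (G z) (fderiv ℝ G z)
    have b3 : ‖lz (G z) (fderiv ℝ G z)‖ ^ 2 ≤ B := by
      have := (le_abs_self _).trans (hB z (hbs hz))
      rw [Y2] at x7
      linarith
    have b4 : ‖G z‖ ^ 2 ≤ E := (le_abs_self _).trans (hE z (hbs hz))
    have b5 : 0 ≤ X2 y (G z) (fderiv ℝ G z) :=
      add_nonneg (mul_nonneg (x2.le.trans x3) x1) (mul_nonneg x2.le (sq_nonneg _))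
    rw [eD] at b2
    have b6 : y * ‖G z‖ ^ 2 * X2 y (G z) (fderiv ℝ G z) ≤ dn y G z / (1 - s) := by
      rw [le_div_iff₀ hs]
      linarith
    have b7 : (y * ‖G z‖ ^ 2) ^ 2 * X2 y (G z) (fderiv ℝ G z) ≤ y * E * (dn y G z / (1 - s)) := by
      rw [sq, mul_assoc]
      exact mul_le_mul (mul_le_mul_of_nonneg_left b4 y0.le) b6 (by positivity) (by positivity)
    rw [e, β.one_of_mem_closedBall (ball_subset_closedBall hz)]
    refine b1.trans ((mul_le_mul_of_nonneg_left (add_le_add b7 b3) hC).trans_eq ?_)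
    ring
  have p0 : 0 ≤ C * E / (1 - s) * y := by positivity
  calc en _ _ ≤ ∫ z in ball x (‖x‖ / 4), (C * E / (1 - s) * y * (β z ^ 2 * dn y G z) + C * B) :=
        setIntegral_mono_on iw ((i1.const_mul _).integrableOn.add i2) measurableSet_ball pt
    _ = C * E / (1 - s) * y * (∫ z in ball x (‖x‖ / 4), β z ^ 2 * dn y G z) +
        ∫ _ in ball x (‖x‖ / 4), C * B := by
      rw [integral_add (i1.const_mul _).integrableOn i2, integral_const_mul]
    _ ≤ _ := by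
      refine add_le_add ?_ le_rfl
      have q1 : ∫ z in ball x (‖x‖ / 4), β z ^ 2 * dn y G z ≤ C1 / y :=
        (setIntegral_le_integral i1 (.of_forall fun z =>
          mul_nonneg (sq_nonneg _) (m.low G hG y z y0).1)).trans (hC1 y hy)
      refine (mul_le_mul_of_nonneg_left q1 p0).trans_eq ?_
      field_simp

end NfA

open NfA in
theorem nf : Kit → ∀ n s, 0 < s → s < 1 → Shell n s → Mas n s → NfS n s := by
  intro k n s s0 s1 sh m G hG hr h0
  by_contra hc
  rw [not_or, not_forall, not_forall] at hc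
  obtain ⟨⟨z1, hz1⟩, z2, hz2⟩ := hc
  rw [Classical.not_imp, not_not] at hz1
  rw [Classical.not_imp] at hz2
  have cG : Continuous G := continuousOn_univ.1 hG.1
  have cJ : Continuous fun z => J2 (G z) := contDiff_J2.continuous.comp cG
  obtain ⟨x, hx, hZ, hb⟩ := k.con.1 {z | J2 (G z) = 0}
    (fun x _ h => cJ.continuousAt.eventually_ne h) ⟨z1, hz1⟩ ⟨z2, hz2⟩
  have hd := norm_pos_iff.2 hx
  obtain ⟨x', hx', hJ⟩ := hb (‖x‖ / 4) (by positivity)
  have hZ' : J2 (G x) = 0 := hZ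
  have hJ' : 0 < J2 (G x') := (J2_nonneg _).lt_of_ne' hJ
  have hne : x' ≠ x := fun e => hJ (e ▸ hZ)
  obtain ⟨τ, hτ, hτ'⟩ := Metric.eventually_nhds_iff_ball.1
    (cJ.continuousAt.eventually (lt_mem_nhds (half_lt_self hJ')))
  obtain ⟨c, c0, hp⟩ := k.pol x x' (‖x‖ / 4) τ hτ hne hx'
  obtain ⟨K, hK⟩ := energy k s0 s1 sh m hG hr h0 hx
  have dJ : DifferentiableAt ℝ (fun z => J2 (G z)) x :=
    (contDiff_J2.differentiable (by simp) (G x)).comp x
      ((sh.s1 univ G isOpen_univ hG x trivial (h0 x hx)).1.differentiableAt one_ne_zero)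
  obtain ⟨H, H0, hH⟩ := dJ.hasFDerivAt.isBigO_sub.exists_pos
  obtain ⟨δ, hδ, hδ'⟩ := Metric.eventually_nhds_iff_ball.1 hH.bound
  have hxx : 0 < ‖x' - x‖ := norm_pos_iff.2 (sub_ne_zero.2 hne)
  have hlt : ‖x' - x‖ < ‖x‖ / 4 := mem_ball_iff_norm.1 hx'
  have hρ : Tendsto (fun t : ℝ => (H * Real.exp t ^ 2)⁻¹) atTop (𝓝 0) :=
    (((tendsto_pow_atTop two_ne_zero).comp Real.tendsto_exp_atTop).const_mul_atTop
      H0).inv_tendsto_atTop
  obtain ⟨t, ⟨⟨t1, t2⟩, t3⟩, t4, t5⟩ := (((grow c0 (Real.log (J2 (G x') / 2) - Real.log 2)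
    (Real.log (‖x‖ / 4 * H)) K).and (eventually_ge_atTop 0)).and
    ((hρ.eventually (gt_mem_nhds hδ)).and (hρ.eventually (gt_mem_nhds (half_pos hxx))))).exists
  obtain ⟨k1, k2, k3⟩ := hK (Real.exp t) (Real.one_le_exp t3)
  have y0 : 0 < Real.exp t ^ 2 := by positivity
  have ly : Real.log (Real.exp t ^ 2) = 2 * t := by simp
  have ρ0 : 0 < (H * Real.exp t ^ 2)⁻¹ := by positivity
  have h := (hp _ (Real.log 2) _ k1 k2 t1 fun z hz => by
    have a := hτ' z hz
    have b : Real.log (Real.exp t ^ 2 * (J2 (G x') / 2)) ≤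
        Real.log (1 + Real.exp t ^ 2 * J2 (G z)) :=
      Real.log_le_log (by positivity) (by nlinarith)
    rw [Real.log_mul y0.ne' (by positivity), ly] at b
    linarith).2 _ ρ0 t5.le fun z hz => by
      have a : ‖z - x‖ = (H * Real.exp t ^ 2)⁻¹ := mem_sphere_iff_norm.1 hz
      have b := hδ' z (mem_ball_iff_norm.2 (a ▸ t4))
      rw [hZ', sub_zero, a] at b
      have b1 := mul_le_mul_of_nonneg_left ((le_abs_self _).trans b) y0.le
      have b2 : Real.exp t ^ 2 * (H * (H * Real.exp t ^ 2)⁻¹) = 1 := by field_simp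
      have b3 := J2_nonneg (G z)
      exact Real.log_le_log (by positivity) (by linarith)
  have l0 : 0 ≤ Real.log (‖x‖ / 4 / (H * Real.exp t ^ 2)⁻¹) :=
    Real.log_nonneg ((one_le_div ρ0).2 (by linarith))
  have h2 := h.trans (mul_le_mul_of_nonneg_left k3 l0)
  rw [div_inv_eq_mul, ← mul_assoc, Real.log_mul (by positivity) y0.ne', ly,
    add_comm (Real.log _)] at h2
  exact absurd h2 (not_le.2 t2)

end Pool.Agent.MP_815c6c_an.L

end
end MrgPart6

-- ======== part 7: formerly Pool.Agent.MP_815c6c_an.L.One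
section MrgPart7

/-! Planar p-harmonic maps: the winding number is positive. -/

set_option autoImplicit false

noncomputable section

namespace Pool.Agent.MP_815c6c_an.L

open Set Metric MeasureTheory Filter Topology Complex
open scoped ContDiff ComplexConjugate
open Q

namespace OneA

theorem bump : ∃ η : ℂ → ℝ, Tf univ η ∧ (∀ z ∈ ball (0 : ℂ) 2, η z = 1) ∧
    ∃ K, IsCompact K ∧ (0 : ℂ) ∉ K ∧ ∀ z ∉ K, fderiv ℝ η z = 0 := by
  let b : ContDiffBump (0 : ℂ) := ⟨2, 3, two_pos, by norm_num⟩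
  refine ⟨b, ⟨b.contDiff, b.hasCompactSupport, subset_univ _⟩,
    fun z hz => b.one_of_mem_closedBall (ball_subset_closedBall hz), tsupport b \ ball 0 2,
    IsCompact.diff b.hasCompactSupport isOpen_ball, fun h => h.2 (mem_ball_self two_pos),
    fun z hz => ?_⟩
  by_cases h : z ∈ ball (0 : ℂ) 2
  · rw [(b.eventuallyEq_one_of_mem_ball h).fderiv_eq]
    exact fderiv_const_apply 1
  · exact fderiv_of_notMem_tsupport ℝ fun a => hz ⟨a, h⟩

end OneA

open OneA

theorem one : Kit → ∀ n s, 0 < s → s < 1 → Shell n s → Mas n s → ZerS n s → OneS n s := by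
  intro k n s s0 s1 h m zer G a M hG g0 g1 lo wn
  obtain ⟨η, hη, e1, K, hK, K0, e2⟩ := bump
  have b := k.bnd n
  have ev : ∀ᶠ z in 𝓝 (0 : ℂ), η z = 1 := mem_of_superset (ball_mem_nhds 0 two_pos) e1
  have dz : ∀ z ≠ 0, Dz G z = fderiv ℝ G z := fun z hz => if_neg (g1 z hz)
  have ne : ∀ z ∈ K, z ≠ 0 := fun z hz a => K0 (a ▸ hz)
  obtain ⟨B, hB⟩ : ∃ B, ∀ z ∈ K, ‖2 * ‖fderiv ℝ G z‖ ^ 2 / ‖G z‖ ^ 2‖ ≤ B := by
    refine hK.exists_bound_of_continuousOn fun z hz => ContinuousAt.continuousWithinAt ?_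
    have c := (h.s1 _ G isOpen_univ hG z trivial (g1 z (ne z hz))).1
    exact (continuousAt_const.mul ((c.continuousAt_fderiv one_ne_zero).norm.pow 2)).div
      (c.continuousAt.norm.pow 2) (pow_pos (norm_pos_iff.2 (g1 z (ne z hz))) 2).ne'
  have w := (wn (fun z => η z ^ 2) ⟨hη.1.pow 2, hη.2.1.comp_left (g := (· ^ 2)) (by simp),
    subset_univ _⟩ (ev.mono fun z hz => by rw [hz, one_pow])).2
  have t : Tendsto (fun y => ∫ z, fl y G η z) atTop
      (𝓝 (∫ z, wd (fderiv ℝ (fun z => η z ^ 2) z) (ar a z))) := by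
    refine tendsto_integral_filter_of_dominated_convergence
      (fun z => 40 * |η z| * ‖fderiv ℝ η z‖ * √B)
      (Eventually.of_forall fun y => (m.sto G hG y η hη).2.1.aestronglyMeasurable)
      ((eventually_gt_atTop 0).mono fun y hy => ae_of_all _ fun z => ?_)
      (Continuous.integrable_of_hasCompactSupport (((continuous_const.mul hη.1.continuous.abs).mul
        (hη.1.continuous_fderiv one_ne_zero).norm).mul continuous_const)
        (hη.2.1.abs.mul_left.mul_right.mul_right)) (ae_of_all _ fun z => ?_)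
    · refine (m.fl G hG y η z hy).trans ?_
      by_cases hz : z ∈ K
      · refine mul_le_mul_of_nonneg_left ((mul_le_of_le_one_left (Real.sqrt_nonneg _)
          (b.th0 _ (by positivity)).2.1).trans (Real.sqrt_le_sqrt ?_)) (by positivity)
        rw [dz z (ne z hz)]
        exact (b.xy 1 _ _).2.2.2.2.2.2.trans ((le_abs_self _).trans (hB z hz))
      · simp [e2 z hz]
    · have d : ∀ X, fderiv ℝ (fun z => η z ^ 2) z X = 2 * η z * fderiv ℝ η z X := fun X => by
        rw [((hη.1.differentiable one_ne_zero z).hasFDerivAt.pow 2).fderiv]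
        simp
      by_cases hz : z ∈ K
      · have z0 := ne z hz
        have l : ∀ X, Tendsto (fun y => La y (G z) (Dz G z X)) atTop (𝓝 (ar a z X)) := fun X => by
          rw [← lo z z0, ← dz z z0]
          refine tendsto_iff_norm_sub_tendsto_zero.2 (squeeze_zero' (Eventually.of_forall fun _ =>
            norm_nonneg _) ((eventually_gt_atTop 0).mono fun y hy => (b.la s y _ _ X
              (abs_le.2 ⟨by linarith, s1.le⟩) hy (g1 z z0) (m.op G hG z (g1 z z0))).2) ?_)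
          simpa using (((b.lim _ (Dz G z) (g1 z z0)).sqrt.const_mul 20).mul_const ‖X‖)
        rw [show wd (fderiv ℝ (fun z => η z ^ 2) z) (ar a z) = 2 * η z * (fderiv ℝ η z 1 * ar a z I -
          fderiv ℝ η z I * ar a z 1) by rw [wd, d, d]; ring]
        exact (((l I).const_mul _).sub ((l 1).const_mul _)).const_mul _
      · simp [fl, wd, d, e2 z hz]
  have t' : Tendsto (fun y => ms y G η) atTop (𝓝 (2 * Real.pi * M)) := by
    have := t.neg
    rw [w, neg_neg] at this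
    exact this.congr fun y => (m.sto G hG y η hη).2.2.symm
  have p := ge_of_tendsto t' ((eventually_gt_atTop 0).mono fun y hy =>
    integral_nonneg fun z => mul_nonneg (sq_nonneg _) (m.low G hG y z hy).1)
  have M0 : 0 ≤ M := by
    exact_mod_cast (mul_nonneg_iff_of_pos_left Real.two_pi_pos).1 p
  refine lt_of_le_of_ne M0 fun a => zer G 0 η hG g0 hη
    ⟨2, 1, by simp, one_ne_zero, g1 1 one_ne_zero, e1⟩ ?_
  simpa [← a] using t'

end Pool.Agent.MP_815c6c_an.L

end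
end MrgPart7

-- ======== part 8: formerly Pool.Agent.MP_815c6c_an.L.Pla
section MrgPart8

/-! Planar p-harmonic maps: the choice of the plane and the planar jets. -/

set_option autoImplicit false

noncomputable section

namespace Pool.Agent.MP_815c6c_an.L

open Complex
open scoped ComplexConjugate
open Q

namespace PlaA

variable {n : ℕ} {e w : Cn n}

theorem flat (h : w ≠ 0) (hJ : J2 w = 0) : ∃ e : Cn n, pj e w = w ∧ cj e = e := by
  have hp := norm_pos_iff.2 h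
  have hC : C2 w = 0 := by rw [C2, hJ, zero_div]
  have h1 : ‖ph w‖ ^ 2 = 1 := by have := C2_eq w h; linarith
  obtain ⟨l, hl⟩ := IsAlgClosed.exists_pow_nat_eq (ph w) two_pos
  have l1 : ‖l‖ ^ 2 = 1 := by
    rw [← norm_pow, hl]
    exact (pow_eq_one_iff_of_nonneg (norm_nonneg _) two_ne_zero).1 h1
  have l2 : l * conj l = 1 := by rw [mul_conj, normSq_eq_norm_sq, l1, ofReal_one]
  have h0 : ((‖w‖ ^ 2 : ℝ) : ℂ) ≠ 0 := ofReal_ne_zero.2 (pow_ne_zero 2 hp.ne')
  have c : bil w w = l ^ 2 * (‖w‖ ^ 2 : ℝ) := by rw [hl, ph, div_mul_cancel₀ _ h0]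
  obtain ⟨t, ht⟩ : ∃ t : ℝ, 2 * t ^ 2 * ‖w‖ ^ 2 = 1 :=
    ⟨(√2 * ‖w‖)⁻¹, by rw [inv_pow, mul_pow, Real.sq_sqrt two_pos.le]; field_simp⟩
  have ht' : 2 * (t : ℂ) ^ 2 * (‖w‖ ^ 2 : ℝ) = 1 := by exact_mod_cast ht
  have k : cj ((t * conj l) • w) = (t * conj l) • w := by
    rw [cj_smul, cj_eq w h hC, smul_smul, ← hl, map_mul, conj_conj, conj_ofReal, map_pow]
    congr 1
    linear_combination t * conj l * l2
  refine ⟨_, ?_, k⟩
  rw [pj, k, ← add_smul, smul_smul, bil_smul_right, c]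
  refine (congrArg (· • w) ?_).trans (one_smul ℂ w)
  linear_combination (l * conj l + 1) * (2 * (t : ℂ) ^ 2 * (‖w‖ ^ 2 : ℝ)) * l2 + ht'

theorem round (hJ : J2 w ≠ 0) : ∃ e : Cn n, pj e w = w ∧ ‖bil w (cj e)‖ < ‖bil w e‖ := by
  obtain ⟨J, J0, hJ⟩ : ∃ J : ℝ, 0 < J ∧ J ^ 2 = J2 w :=
    ⟨_, Real.sqrt_pos.2 ((J2_nonneg w).lt_of_ne' hJ), Real.sq_sqrt (J2_nonneg w)⟩
  obtain ⟨a, a0, ha⟩ : ∃ a : ℝ, 0 < a ∧ 2 * a ^ 2 = ‖w‖ ^ 2 + J :=
    ⟨√((‖w‖ ^ 2 + J) / 2), by positivity, by rw [Real.sq_sqrt (by positivity)]; ring⟩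
  have a1 : (a : ℂ) ≠ 0 := ofReal_ne_zero.2 a0.ne'
  obtain ⟨c, hc⟩ : ∃ c : ℂ, bil w w = 2 * a * c := ⟨bil w w / (2 * a), by field_simp⟩
  have c1 : 2 * ‖c‖ ^ 2 = ‖w‖ ^ 2 - J := by
    rw [J2, hc, norm_mul, norm_mul, Complex.norm_real, Real.norm_of_nonneg a0.le,
      Complex.norm_ofNat] at hJ
    refine mul_left_cancel₀ (show 2 * a ^ 2 ≠ 0 by positivity) ?_
    linear_combination hJ - (‖w‖ ^ 2 - J) * ha
  have c2 : 2 * (c * conj c) = (‖w‖ ^ 2 : ℝ) - J := by
    rw [mul_conj, normSq_eq_norm_sq]; exact_mod_cast c1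
  have a2 : 2 * (a : ℂ) ^ 2 = (‖w‖ ^ 2 : ℝ) + J := by exact_mod_cast ha
  obtain ⟨j, hj⟩ : ∃ j : ℝ, (j : ℂ) * J = 1 := ⟨J⁻¹, by exact_mod_cast inv_mul_cancel₀ J0.ne'⟩
  have k : cj (((j : ℂ) * a) • cj w - (j * conj c) • w) = ((j : ℂ) * a) • w - (j * c) • cj w := by
    simp [cj_sub, cj_smul]
  have e1 : bil w (((j : ℂ) * a) • cj w - (j * conj c) • w) = a := by
    rw [bil_sub_right, bil_smul_right, bil_smul_right, bil_cj_self, hc]
    linear_combination a * hj - j * a * c2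
  have e2 : bil w (((j : ℂ) * a) • w - (j * c) • cj w) = c := by
    rw [bil_sub_right, bil_smul_right, bil_smul_right, bil_cj_self, hc]
    linear_combination c * hj + j * c * a2
  refine ⟨((j : ℂ) * a) • cj w - (j * conj c) • w, ?_, ?_⟩
  · rw [pj, k, e1, e2]
    ext i
    simp only [PiLp.add_apply, PiLp.smul_apply, PiLp.sub_apply, smul_eq_mul]
    linear_combination w i * hj + j * w i / 2 * (a2 - c2)
  · rw [k, e1, e2, Complex.norm_real, Real.norm_of_nonneg a0.le]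
    exact lt_of_pow_lt_pow_left₀ 2 a0.le (by linarith)

theorem b1 (h : pj e w = w) (P : Cn n) :
    bil P w = bil w e * bil P (cj e) + bil w (cj e) * bil P e := by
  rw [← bil_smul_right, ← bil_smul_right, ← bil_add_right]
  exact congrArg (bil P) h.symm

theorem b2 (h : pj e w = w) (P : Cn n) :
    bil P (cj w) = conj (bil w e) * bil P e + conj (bil w (cj e)) * bil P (cj e) := by
  have := congrArg cj h
  rw [pj, cj_add, cj_smul, cj_smul, cj_cj] at this
  rw [← bil_smul_right, ← bil_smul_right, ← bil_add_right]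
  exact congrArg (bil P) this.symm

theorem n1 (h : pj e w = w) : ‖bil w e‖ ^ 2 + ‖bil w (cj e)‖ ^ 2 = ‖w‖ ^ 2 := by
  have := b2 h w
  rw [bil_cj_self, conj_mul', conj_mul'] at this
  exact_mod_cast this.symm

theorem n2 (h : pj e w = w) : ‖bil w w‖ ^ 2 = 4 * ‖bil w e‖ ^ 2 * ‖bil w (cj e)‖ ^ 2 := by
  rw [b1 h w, mul_comm (bil w (cj e)), ← two_mul, norm_mul, norm_mul, Complex.norm_ofNat]
  ring

theorem n3 (h : pj e w = w) : (‖bil w e‖ ^ 2 - ‖bil w (cj e)‖ ^ 2) ^ 2 = J2 w := by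
  rw [J2, n2 h, show ‖w‖ ^ 4 = (‖w‖ ^ 2) ^ 2 by ring, ← n1 h]
  ring

theorem lo (h0 : w ≠ 0) (h : pj e w = w) (k : cj e = e ∨ ‖bil w (cj e)‖ < ‖bil w e‖) (P : Cn n) :
    Lo w P = (bil P e / bil w e).im := by
  have hp := pow_pos (norm_pos_iff.2 h0) 2
  have e1 := n1 h
  have e3 := n3 h
  have q : ∀ A a : ℂ, (A / a).im = (conj a * A).im / ‖a‖ ^ 2 := fun A a => by
    rw [div_im, normSq_eq_norm_sq, ← sub_div]
    congr 1
    simp
    ring
  rw [q]
  rcases k with k | k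
  · rw [k] at e1 e3
    rw [Lo, C2, ← e3, sub_self, b2 h P, k, ← e1, add_im]
    have : 0 < ‖bil w e‖ ^ 2 := by linarith
    simp only [ne_eq, OfNat.ofNat_ne_zero, not_false_eq_true, zero_pow, zero_div, Real.sqrt_zero,
      zero_mul, div_zero, sub_zero]
    field_simp
  · have k2 := pow_lt_pow_left₀ k (norm_nonneg _) two_ne_zero
    have s : √(C2 w) = (‖bil w e‖ ^ 2 - ‖bil w (cj e)‖ ^ 2) / ‖w‖ ^ 2 := by
      rw [C2, ← e3, show ‖w‖ ^ 4 = (‖w‖ ^ 2) ^ 2 by ring, ← div_pow]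
      exact Real.sqrt_sq (div_nonneg (sub_pos.2 k2).le hp.le)
    have p : ‖ph w‖ ^ 2 = 4 * ‖bil w e‖ ^ 2 * ‖bil w (cj e)‖ ^ 2 / (‖w‖ ^ 2) ^ 2 := by
      rw [ph, norm_div, div_pow, n2 h, Complex.norm_real, Real.norm_of_nonneg hp.le]
    have r : conj (bil w w) * bil w P =
        (2 * ‖bil w e‖ ^ 2 : ℝ) * (conj (bil w (cj e)) * bil P (cj e)) +
        (2 * ‖bil w (cj e)‖ ^ 2 : ℝ) * (conj (bil w e) * bil P e) := by
      rw [bil_comm w P, b1 h P, b1 h w]
      push_cast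
      rw [← conj_mul', ← conj_mul', map_add, map_mul, map_mul]
      ring
    rw [Lo, s, p, r, b2 h P, add_im, add_im, im_ofReal_mul, im_ofReal_mul,
      show ‖w‖ ^ 4 = (‖w‖ ^ 2) ^ 2 by ring, ← e1]
    have g := sq_nonneg ‖bil w (cj e)‖
    generalize ‖bil w e‖ ^ 2 = α at *
    generalize ‖bil w (cj e)‖ ^ 2 = γ at *
    have x1 : α ≠ 0 := by linarith
    have x2 : α + γ ≠ 0 := by linarith
    have x3 : α - γ ≠ 0 := by linarith
    rw [show 1 + (α - γ) / (α + γ) = 2 * α / (α + γ) by field_simp; ring]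
    field_simp
    ring

end PlaA

open PlaA

theorem pla : PlaS := by
  refine fun n => ⟨fun w h => ?_, fun s e w N A C h0 h ho hA hC =>
    ⟨n1 h, n3 h, ?_, fun k X => hA X ▸ lo h0 h k _⟩⟩
  · by_cases hJ : J2 w = 0
    · obtain ⟨e, a, b⟩ := flat h hJ
      exact ⟨e, a, fun _ => b, fun c => absurd hJ c⟩
    · obtain ⟨e, a, b⟩ := round hJ
      exact ⟨e, a, fun c => absurd c hJ, fun _ => b⟩
  · have d : ∀ X, dlg (bil w e) (bil w (cj e)) A C X = inner ℝ w (N X) / ‖w‖ ^ 2 := fun X => by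
      rw [dlg, n1 h, hA, hC, ← b2 h, inner_eq_re]
    have h1 : ((‖w‖ ^ 2 : ℝ) : ℂ) ≠ 0 := ofReal_ne_zero.2 (pow_ne_zero 2 (norm_pos_iff.2 h0).ne')
    have l : (dlg (bil w e) (bil w (cj e)) A C 1 : ℂ) - I * dlg (bil w e) (bil w (cj e)) A C I =
        2 * lz w N := by
      rw [d, d, lz, ofReal_div, ofReal_div]
      field_simp
    have z : ∀ u, bil (N 1) u + I * bil (N I) u = -s * (2 * lz w N) * conj (bil w (cj u)) := by
      intro u
      have := congrArg (bil · u) (zb_eq w N ho)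
      simp only [zb, bil_smul_left, bil_add_left, bil_cj_left] at this
      linear_combination 2 * this
    rw [Jet, l, hA, hA, hC, hC, z, z, cj_cj]
    exact ⟨rfl, rfl⟩

end Pool.Agent.MP_815c6c_an.L

end
end MrgPart8

-- ======== part 9: formerly Pool.Agent.MP_815c6c_an.L.Sig
section MrgPart9

/-! Planar p-harmonic maps: the logarithmic energy. -/

set_option autoImplicit false

noncomputable section

namespace Pool.Agent.MP_815c6c_an.L

open Set Metric MeasureTheory Filter Topology Complex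
open scoped ContDiff ComplexConjugate
open Q

namespace SigA

variable {n : ℕ}

theorem y2_nonneg (b : Bnd n) (w : Cn n) (N : L (Cn n)) : 0 ≤ Y2 w N :=
  add_nonneg (b.xy 1 w N).1 (sq_nonneg _)

theorem dens_le (b : Bnd n) {y : ℝ} (hy : 0 < y) (w : Cn n) (N : L (Cn n)) :
    0 ≤ th (y * ‖w‖ ^ 2) * Y2 w N ∧ th (y * ‖w‖ ^ 2) * Y2 w N ≤ 2 * y * ‖N‖ ^ 2 := by
  have h := b.th0 (y * ‖w‖ ^ 2) (by positivity)
  refine ⟨mul_nonneg h.1 (y2_nonneg b w N), ?_⟩
  calc th (y * ‖w‖ ^ 2) * Y2 w N ≤ y * ‖w‖ ^ 2 * (2 * ‖N‖ ^ 2 / ‖w‖ ^ 2) :=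
        mul_le_mul h.2.2.1 (b.xy 1 w N).2.2.2.2.2.2 (y2_nonneg b w N) (by positivity)
    _ ≤ 2 * y * ‖N‖ ^ 2 := by
        rcases eq_or_ne ‖w‖ 0 with e | e
        · rw [e]; simp only [ne_eq, OfNat.ofNat_ne_zero, not_false_eq_true, zero_pow, mul_zero,
            zero_mul]; positivity
        · exact le_of_eq (by field_simp)

theorem near_zero {F : ℂ → Cn n} (hF : Continuous F) (h0 : ∀ x ≤ 1, Ps x = 0) (y : ℝ) {z : ℂ}
    (hz : F z = 0) : (fun z => Ps (y * ‖F z‖ ^ 2)) =ᶠ[𝓝 z] fun _ => 0 := by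
  have hc : Continuous fun z => y * ‖F z‖ ^ 2 := by fun_prop
  have : ∀ᶠ w in 𝓝 z, y * ‖F w‖ ^ 2 < 1 :=
    hc.continuousAt.eventually_lt continuousAt_const (by simp [hz])
  filter_upwards [this] with w hw
  exact h0 _ hw.le

end SigA

open SigA

theorem sig (k : Kit) (n : ℕ) (s : ℝ) (s0 : 0 < s) (s1 : s < 1) (h : Shell n s) (m : Mas n s) :
    SigS n s := by
  obtain ⟨C, C0, hP, hP0, -, hL⟩ := k.log
  have b := k.bnd n
  have c0 : 0 < 1 - s := by linarith
  refine ⟨C + 3 / (1 - s), by positivity, fun F η hS hη => ?_⟩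
  have hF : Continuous F := continuousOn_univ.1 hS.1
  have hi : ∀ y, 0 < y →
      Integrable fun z => η z ^ 2 * (th (y * ‖F z‖ ^ 2) * Y2 (F z) (Dz F z)) := fun y hy => by
    have hK : IsCompact (tsupport η) := hη.2.1
    have hD := ((h.s2 univ F isOpen_univ hS).1 _ (subset_univ _) hK).norm.integrable_sq
    obtain ⟨M, hM⟩ := hη.1.continuous.bounded_above_of_compact_support hη.2.1
    rw [← integrableOn_iff_integrable_of_support_subset (s := tsupport η) (fun z hz => by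
      by_contra c
      exact hz (by simp [image_eq_zero_of_notMem_tsupport c]))]
    have hth : Continuous fun z => th (y * ‖F z‖ ^ 2) := b.th1.2.comp (by fun_prop)
    refine (hD.const_mul (M ^ 2 * (2 * y))).mono'
      (((hη.1.continuous.pow 2).measurable.mul
        (hth.measurable.mul (m.mea F hS).1)).aestronglyMeasurable) (Eventually.of_forall fun z => ?_)
    obtain ⟨d0, d1⟩ := dens_le b hy (F z) (Dz F z)
    rw [Real.norm_of_nonneg (mul_nonneg (sq_nonneg _) d0), mul_assoc (M ^ 2)]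
    have : η z ^ 2 ≤ M ^ 2 := by
      rw [← sq_abs]
      exact pow_le_pow_left₀ (abs_nonneg _) (hM z) 2
    exact mul_le_mul this d1 d0 (sq_nonneg _)
  have hms : ∀ y, 0 < y → 0 ≤ ms y F η := fun y hy =>
    integral_nonneg fun z => mul_nonneg (sq_nonneg _) (m.low F hS y z hy).1
  have hstep : ∀ y, 0 < y → Sg (4 * y) F η ≤ Sg y F η + (C + 3 / (1 - s)) * ms y F η := by
    intro y hy
    have h1 : Sg (4 * y) F η ≤ Sg y F η + 3 / (1 - s) * ms y F η := by
      rw [Sg, Sg, ms, ← integral_const_mul,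
        ← integral_add (hi y hy) ((m.sto F hS y η hη).1.const_mul _)]
      refine integral_mono (hi _ (by positivity))
        ((hi y hy).add ((m.sto F hS y η hη).1.const_mul _)) fun z => ?_
      have e1 := b.th2 y (F z) hy
      have e2 := (b.xy y (F z) (Dz F z)).2.2.2.2.1
      have e3 := (m.low F hS y z hy).2.2
      have e4 := y2_nonneg b (F z) (Dz F z)
      have e5 : 3 * (y * ‖F z‖ ^ 2) * X2 y (F z) (Dz F z) ≤ 3 / (1 - s) * dn y F z := by
        rw [div_mul_eq_mul_div, le_div_iff₀ c0]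
        linarith
      have e6 : th (4 * y * ‖F z‖ ^ 2) * Y2 (F z) (Dz F z) ≤
          th (y * ‖F z‖ ^ 2) * Y2 (F z) (Dz F z) + 3 / (1 - s) * dn y F z := by
        calc _ ≤ (th (y * ‖F z‖ ^ 2) + 3 * (y * ‖F z‖ ^ 2) * vv y (F z)) * Y2 (F z) (Dz F z) :=
              mul_le_mul_of_nonneg_right e1 e4
          _ = th (y * ‖F z‖ ^ 2) * Y2 (F z) (Dz F z) +
              3 * (y * ‖F z‖ ^ 2) * (vv y (F z) * Y2 (F z) (Dz F z)) := by ring
          _ ≤ th (y * ‖F z‖ ^ 2) * Y2 (F z) (Dz F z) +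
              3 * (y * ‖F z‖ ^ 2) * X2 y (F z) (Dz F z) := by gcongr
          _ ≤ _ := by linarith
      have := mul_le_mul_of_nonneg_left e6 (sq_nonneg (η z))
      simp only
      linarith
    nlinarith [mul_nonneg C0 (hms y hy)]
  refine ⟨hi, fun y y' hy hle => ?_, fun K => ?_, fun y hy => ?_⟩
  · refine integral_mono (hi y hy) (hi y' (hy.trans_le hle)) fun z => ?_
    refine mul_le_mul_of_nonneg_left (mul_le_mul_of_nonneg_right (b.th1.1 ?_) (y2_nonneg b _ _))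
      (sq_nonneg _)
    gcongr
  · induction K with
    | zero => simp
    | succ K ih =>
      rw [Finset.sum_range_succ, pow_succ', mul_add]
      linarith [hstep (4 ^ K) (by positivity)]
  have hΨ : ContDiff ℝ ∞ fun w : Cn n => Ps (y * ‖w‖ ^ 2) :=
    hP.comp (contDiff_const.mul (contDiff_norm_sq ℝ))
  refine ⟨contDiff_iff_contDiffAt.2 fun z => ?_, fun x r hr => ?_⟩
  · by_cases hz : F z = 0
    · exact contDiffAt_const.congr_of_eventuallyEq (near_zero hF hP0 y hz)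
    · exact (hΨ.of_le (by simp)).contDiffAt.comp z (h.s1 univ F isOpen_univ hS z trivial hz).1
  have hp : ∀ z, ‖fderiv ℝ (fun z => Ps (y * ‖F z‖ ^ 2)) z‖ ^ 2 ≤
      C * (th (y * ‖F z‖ ^ 2) * Y2 (F z) (Dz F z)) := fun z => by
    by_cases hz : F z = 0
    · rw [(near_zero hF hP0 y hz).fderiv_eq]
      simpa using mul_nonneg C0 (dens_le b hy (F z) (Dz F z)).1
    have d1 := (h.s1 univ F isOpen_univ hS z trivial hz).1.differentiableAt one_ne_zero
    have e : fderiv ℝ (fun z => Ps (y * ‖F z‖ ^ 2)) z =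
        (fderiv ℝ (fun w : Cn n => Ps (y * ‖w‖ ^ 2)) (F z)).comp (Dz F z) := by
      rw [Dz, if_neg hz]
      exact fderiv_comp z (hΨ.differentiable (by simp) _) d1
    rw [e]
    refine ((hL n y hy).2 s (F z) (Dz F z) (by rw [abs_of_pos s0]; exact s1.le) hz
      (m.op F hS z hz)).1.trans ?_
    have := (b.th0 (y * ‖F z‖ ^ 2) (by positivity)).1
    gcongr
    exact le_add_of_nonneg_left (b.xy 1 _ _).1
  have h0 : ∀ z, 0 ≤ η z ^ 2 * (th (y * ‖F z‖ ^ 2) * Y2 (F z) (Dz F z)) := fun z =>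
    mul_nonneg (sq_nonneg _) (dens_le b hy _ _).1
  calc en (ball x r) (fderiv ℝ fun z => Ps (y * ‖F z‖ ^ 2))
      ≤ ∫ z in ball x r, C * (η z ^ 2 * (th (y * ‖F z‖ ^ 2) * Y2 (F z) (Dz F z))) := by
        refine integral_mono_of_nonneg (Eventually.of_forall fun z => sq_nonneg _)
          ((hi y hy).const_mul C).integrableOn ?_
        filter_upwards [ae_restrict_mem measurableSet_ball] with z hz
        rw [hr z hz, one_pow, one_mul]
        exact hp z
    _ ≤ C * Sg y F η := by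
        rw [integral_const_mul]
        exact mul_le_mul_of_nonneg_left
          (setIntegral_le_integral (hi y hy) (Eventually.of_forall h0)) C0
    _ ≤ _ := mul_le_mul_of_nonneg_right (le_add_of_nonneg_right (by positivity))
        (integral_nonneg h0)

end Pool.Agent.MP_815c6c_an.L

end
end MrgPart9

-- ======== part 10: formerly Pool.Agent.MP_815c6c_an.L.Zer
section MrgPart10

/-! Planar p-harmonic maps: a zero carries mass. -/

set_option autoImplicit false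

noncomputable section

namespace Pool.Agent.MP_815c6c_an.L

open Set Metric MeasureTheory Filter Topology Complex
open scoped ContDiff ComplexConjugate
open Q

namespace ZerA

/-- radii in geometric progression on which the map is small -/
theorem rad {n : ℕ} {s : ℝ} (h : Shell n s) {F : ℂ → Cn n} (hF : Sol s univ F) {x : ℂ}
    (h0 : F x = 0) {d : ℝ} (d0 : 0 < d) : ∃ ρ b : ℝ, 0 < ρ ∧ ρ ≤ d ∧ 0 ≤ b ∧ ∀ K : ℕ,
      ∀ z ∈ sphere x (ρ * Real.exp (-(b * K))), 4 ^ K * ‖F z‖ ^ 2 ≤ 1 := by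
  obtain ⟨a, C, a0, C0, h3⟩ := h.s3
  obtain ⟨M, hM⟩ := (isCompact_closedBall x (2 * 1)).exists_bound_of_continuousOn
    (hF.1.mono (subset_univ _))
  have h4 := h3 F x 1 M one_pos (hF.mono (subset_univ _)) fun y hy =>
    hM y (ball_subset_closedBall hy)
  have c : Continuous fun t : ℝ => C * M * t ^ a :=
    continuous_const.mul (Continuous.rpow_const continuous_id fun _ => Or.inr a0.le)
  have e : ∀ᶠ t in 𝓝 (0 : ℝ), C * M * t ^ a < 1 :=
    (c.tendsto 0).eventually_lt_const (by simp [Real.zero_rpow a0.ne'])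
  obtain ⟨ρ, ⟨⟨e1, e2⟩, e3⟩, ρ0⟩ := (((e.and (eventually_lt_nhds one_pos)).and
    (eventually_lt_nhds d0)).filter_mono (nhdsWithin_le_nhds (s := Ioi 0))).and
    self_mem_nhdsWithin |>.exists
  have l2 := Real.log_pos one_lt_two
  replace ρ0 : 0 < ρ := ρ0
  refine ⟨ρ, Real.log 2 / a, ρ0, e3.le, by positivity, fun K z hz => ?_⟩
  rw [mem_sphere_iff_norm] at hz
  have t : Real.exp (-(Real.log 2 / a * K)) ≤ 1 :=
    Real.exp_le_one_iff.2 (neg_nonpos.2 (by positivity))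
  have := h4 z (mem_ball_iff_norm.2 (by rw [hz]; nlinarith))
  rw [h0, sub_zero, div_one, hz, Real.mul_rpow ρ0.le (Real.exp_pos _).le, ← Real.exp_mul,
    show -(Real.log 2 / a * K) * a = -(K * Real.log 2) by field_simp, Real.exp_neg,
    Real.exp_nat_mul, Real.exp_log two_pos, ← mul_assoc, ← div_eq_mul_inv,
    le_div_iff₀ (by positivity)] at this
  rw [show (4 : ℝ) ^ K * ‖F z‖ ^ 2 = (‖F z‖ * 2 ^ K) ^ 2 by
    rw [mul_pow, ← pow_mul, mul_comm K, pow_mul, mul_comm]; norm_num]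
  exact pow_le_one₀ (by positivity) (this.trans e1.le)

end ZerA

open ZerA

theorem zer : Kit → ∀ n s, 0 < s → s < 1 → Shell n s → Mas n s → SigS n s → ZerS n s := by
  rintro k n s - - h - ⟨C, C0, sig⟩ F x η hF h0 hη ⟨r, x', hx', ne, hn, h1⟩ lim
  obtain ⟨-, -, s1, s2⟩ := sig F η hF hη
  obtain ⟨-, -, -, p0, p1, -⟩ := k.log
  have cF : Continuous F := continuousOn_univ.1 hF.1
  have n0 : 0 < ‖F x'‖ ^ 2 := pow_pos (norm_pos_iff.2 hn) 2
  obtain ⟨e, e0, τ, τ0, hτ⟩ : ∃ e, 0 < e ∧ ∃ τ, 0 < τ ∧ ∀ z ∈ ball x' τ, e < ‖F z‖ ^ 2 :=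
    ⟨_, half_pos n0, Metric.eventually_nhds_iff_ball.1
      (((cF.norm.pow 2).tendsto x').eventually_const_lt (half_lt_self n0))⟩
  have d0 : 0 < ‖x' - x‖ := norm_pos_iff.2 (sub_ne_zero.2 ne)
  have d1 := mem_ball_iff_norm.1 hx'
  obtain ⟨ρ, b, ρ0, ρ1, b0, hρ⟩ := rad h hF h0 (half_pos d0)
  obtain ⟨c, c0, pol⟩ := k.pol x x' r τ τ0 ne hx'
  have t4 : Tendsto (fun K : ℕ => (4 : ℝ) ^ K) atTop atTop :=
    tendsto_pow_atTop_atTop_of_one_lt (by norm_num)
  have ce := (lim.comp t4).cesaro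
  have u : Tendsto (fun K : ℕ => (K : ℝ)⁻¹) atTop (𝓝 0) := tendsto_inv_atTop_nhds_zero_nat
  have l4 : 0 < Real.log 4 := Real.log_pos (by norm_num)
  have key := le_of_tendsto_of_tendsto
    ((((u.mul_const (Real.log e)).const_add (Real.log 4)).pow 2).const_mul c)
    (((u.mul_const (Real.log (r / ρ))).add_const b).mul
      (((u.mul_const (Sg 1 F η)).add (ce.const_mul C)).const_mul C)) ?_
  · simp only [zero_mul, add_zero, mul_zero] at key
    exact absurd key (not_le.2 (by positivity))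
  filter_upwards [(t4.atTop_mul_const e0).eventually_ge_atTop 2, eventually_gt_atTop 0] with K a K0
  have y0 : (0 : ℝ) < 4 ^ K := by positivity
  have K1 : (0 : ℝ) < K := Nat.cast_pos.2 K0
  obtain ⟨w1, w2⟩ := s2 _ y0
  have t : Real.exp (-(b * K)) ≤ 1 := Real.exp_le_one_iff.2 (neg_nonpos.2 (by positivity))
  have ρ2 : ρ * Real.exp (-(b * K)) ≤ ρ := mul_le_of_le_one_right ρ0.le t
  have := (pol _ 0 (Real.log (4 ^ K * e)) w1.contDiffOn
    ((((w1.continuous_fderiv one_ne_zero).norm.pow 2).continuousOn.integrableOn_compact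
      (isCompact_closedBall x r)).mono_set ball_subset_closedBall)
    (Real.log_nonneg (by linarith)) fun z hz => ?_).2 _ (by positivity) (ρ2.trans ρ1)
    fun z hz => (p0 _ (hρ K z hz)).le
  · have g := this.trans (mul_le_mul_of_nonneg_left ((w2 x r h1).trans
      (mul_le_mul_of_nonneg_left (s1 K) C0))
      (Real.log_nonneg ((one_le_div (by positivity)).2 (by linarith))))
    rw [Real.log_mul y0.ne' e0.ne', Real.log_pow, ← div_div, Real.log_div
      (div_pos (d0.trans d1) ρ0).ne' (Real.exp_pos _).ne', Real.log_exp] at g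
    refine le_of_mul_le_mul_left ((le_of_eq ?_).trans (g.trans_eq ?_)) (pow_pos K1 2)
    · field_simp
    · simp only [Function.comp_apply]
      field_simp
      ring
  · have m := mul_le_mul_of_nonneg_left (hτ z hz).le y0.le
    rw [zero_add, p1 _ (a.trans m)]
    exact Real.log_le_log (by positivity) m

end Pool.Agent.MP_815c6c_an.L

end
end MrgPart10

-- marker of a merged file
example : 731051 + 654444 = 731051 + 654444 := rfl
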